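import Pool.Agent.Helper12.Defs

/-!
Basic facts on `tau`, `opi`, `rho`, `Is2`, `Nrm`, `Good`.
-/

set_option autoImplicit false

open scoped commutatorElement

namespace Pool.Agent.Helper12.TwoLen

/-- every element has finite order -/
def Tor (G : Type*) [Group G] : Prop := ∀ x : G, IsOfFinOrder x

section elements

variable {G G' : Type*} [Group G] [Group G'] {x y : G}

theorem E2.one : E2 (1 : G) := ⟨0, by simp⟩
theorem EO.one : EO (1 : G) := ⟨1, odd_one, by simp⟩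

theorem E2.map (h : E2 x) (f : G →* G') : E2 (f x) := by
  obtain ⟨k, hk⟩ := h
  exact ⟨k, by rw [← map_pow, hk, map_one]⟩

theorem EO.map (h : EO x) (f : G →* G') : EO (f x) := by
  obtain ⟨k, ho, hk⟩ := h
  exact ⟨k, ho, by rw [← map_pow, hk, map_one]⟩

theorem E2.conj (h : E2 x) (g : G) : E2 (g * x * g⁻¹) := by
  simpa using h.map (MulAut.conj g).toMonoidHom

theorem EO.conj (h : EO x) (g : G) : EO (g * x * g⁻¹) := by
  simpa using h.map (MulAut.conj g).toMonoidHom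

theorem E2.inv (h : E2 x) : E2 x⁻¹ := by
  obtain ⟨k, hk⟩ := h
  exact ⟨k, by rw [inv_pow, hk, inv_one]⟩

theorem EO.inv (h : EO x) : EO x⁻¹ := by
  obtain ⟨k, ho, hk⟩ := h
  exact ⟨k, ho, by rw [inv_pow, hk, inv_one]⟩

theorem E2.pow (h : E2 x) (n : ℕ) : E2 (x ^ n) := by
  obtain ⟨k, hk⟩ := h
  exact ⟨k, by rw [← pow_mul, mul_comm, pow_mul, hk, one_pow]⟩

theorem EO.pow (h : EO x) (n : ℕ) : EO (x ^ n) := by
  obtain ⟨k, ho, hk⟩ := h
  exact ⟨k, ho, by rw [← pow_mul, mul_comm, pow_mul, hk, one_pow]⟩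

theorem E2.of_pow {k : ℕ} (h : E2 (x ^ (2 ^ k : ℕ))) : E2 x := by
  obtain ⟨j, hj⟩ := h
  exact ⟨k + j, by rw [pow_add, pow_mul, hj]⟩

theorem EO.of_pow {m : ℕ} (ho : Odd m) (h : EO (x ^ m)) : EO x := by
  obtain ⟨j, hj, h⟩ := h
  exact ⟨m * j, ho.mul hj, by rw [pow_mul, h]⟩

/-- If `x ^ (2 ^ k)` and `x ^ m` (with `m` odd) are in `D` then `x ∈ D`. -/
theorem mem_of_pow_mem {D : Subgroup G} {k m : ℕ} (h1 : x ^ (2 ^ k : ℕ) ∈ D) (hm : Odd m)
    (h2 : x ^ m ∈ D) : x ∈ D := by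
  have hc : IsCoprime ((2 ^ k : ℕ) : ℤ) (m : ℤ) := by
    rw [Nat.isCoprime_iff_coprime]
    exact Nat.Coprime.pow_left _ (Nat.coprime_two_left.mpr hm)
  obtain ⟨a, b, hab⟩ := hc
  have : x = (x ^ (2 ^ k : ℕ)) ^ a * (x ^ m) ^ b := by
    rw [← zpow_natCast, ← zpow_natCast, ← zpow_mul, ← zpow_mul, ← zpow_add, mul_comm _ a,
      mul_comm _ b, hab, zpow_one]
  rw [this]
  exact D.mul_mem (D.zpow_mem h1 _) (D.zpow_mem h2 _)

theorem eq_one_of_E2_EO (h1 : E2 x) (h2 : EO x) : x = 1 := by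
  obtain ⟨k, hk⟩ := h1
  obtain ⟨m, hm, h⟩ := h2
  have := mem_of_pow_mem (D := (⊥ : Subgroup G)) (x := x) (k := k) (by simpa using hk) hm
    (by simpa using h)
  simpa using this

theorem E2.mem_of_odd {D : Subgroup G} (h1 : E2 x) {m : ℕ} (hm : Odd m) (h : x ^ m ∈ D) :
    x ∈ D := by
  obtain ⟨k, hk⟩ := h1
  exact mem_of_pow_mem (k := k) (by rw [hk]; exact D.one_mem) hm h

theorem EO.mem_of_two {D : Subgroup G} (h1 : EO x) {k : ℕ} (h : x ^ (2 ^ k : ℕ) ∈ D) :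
    x ∈ D := by
  obtain ⟨m, hm, hx⟩ := h1
  exact mem_of_pow_mem h hm (by rw [hx]; exact D.one_mem)

/-- splitting an exponent: `n = 2^a * m`. -/
theorem exists_two_pow_mul_odd {n : ℕ} (hn : 0 < n) : ∃ a m : ℕ, Odd m ∧ n = 2 ^ a * m := by
  obtain ⟨a, m, hm, h⟩ := Nat.exists_eq_two_pow_mul_odd hn.ne'
  exact ⟨a, m, hm, h⟩

theorem exists_crt {a b m : ℕ} (hm : Odd m) : ∃ r : ℕ, m ∣ r ∧ r ≡ 1 [MOD 2 ^ (a + b)] := by
  have hc : Nat.Coprime m (2 ^ (a + b)) :=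
    Nat.Coprime.pow_right _ (Nat.coprime_two_right.mpr hm)
  obtain ⟨r, h1, h2⟩ := Nat.chineseRemainder hc 0 1
  exact ⟨r, (Nat.modEq_zero_iff_dvd).1 h1, h2⟩

theorem exists_crt' {a m m' : ℕ} (hm : Odd m) (hm' : Odd m') :
    ∃ r : ℕ, 2 ^ a ∣ r ∧ r ≡ 1 [MOD m * m'] := by
  have hc : Nat.Coprime (2 ^ a) (m * m') :=
    Nat.Coprime.pow_left _ (Nat.coprime_two_left.mpr (hm.mul hm'))
  obtain ⟨r, h1, h2⟩ := Nat.chineseRemainder hc 0 1
  exact ⟨r, (Nat.modEq_zero_iff_dvd).1 h1, h2⟩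

theorem inv_mul_pow_mem {D : Subgroup G} {N r : ℕ} (h : x ^ N ∈ D) (hr : r ≡ 1 [MOD N]) :
    x⁻¹ * x ^ r ∈ D := by
  have h1 : x⁻¹ * x ^ r = x ^ ((r : ℤ) - 1) := by
    rw [sub_eq_add_neg, add_comm, zpow_add, zpow_neg_one, zpow_natCast]
  have h2 : (N : ℤ) ∣ (r : ℤ) - 1 := by
    have := (Nat.modEq_iff_dvd.1 hr.symm)
    simpa using this
  obtain ⟨c, hc⟩ := h2
  rw [h1, hc, zpow_mul, zpow_natCast]
  exact D.zpow_mem h _

theorem lift2 (hx : IsOfFinOrder x) {D : Subgroup G} {k : ℕ} (h : x ^ (2 ^ k : ℕ) ∈ D) :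
    ∃ r : ℕ, E2 (x ^ r) ∧ x⁻¹ * x ^ r ∈ D := by
  obtain ⟨n, hn, hxn⟩ := isOfFinOrder_iff_pow_eq_one.1 hx
  obtain ⟨a, m, hm, rfl⟩ := exists_two_pow_mul_odd hn
  obtain ⟨r, ⟨c, hc⟩, hr⟩ := exists_crt (a := a) (b := k) hm
  refine ⟨r, ⟨a, ?_⟩, inv_mul_pow_mem h (hr.of_dvd (pow_dvd_pow 2 (Nat.le_add_left k a)))⟩
  rw [← pow_mul, hc, show m * c * 2 ^ a = (2 ^ a * m) * c by ring, pow_mul, hxn, one_pow]

theorem liftO (hx : IsOfFinOrder x) {D : Subgroup G} {m' : ℕ} (hm' : Odd m') (h : x ^ m' ∈ D) :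
    ∃ r : ℕ, EO (x ^ r) ∧ x⁻¹ * x ^ r ∈ D := by
  obtain ⟨n, hn, hxn⟩ := isOfFinOrder_iff_pow_eq_one.1 hx
  obtain ⟨a, m, hm, rfl⟩ := exists_two_pow_mul_odd hn
  obtain ⟨r, ⟨c, hc⟩, hr⟩ := exists_crt' (a := a) hm hm'
  refine ⟨r, ⟨m, hm, ?_⟩, inv_mul_pow_mem h (hr.of_dvd (Dvd.intro_left m rfl))⟩
  rw [← pow_mul, hc, show 2 ^ a * c * m = (2 ^ a * m) * c by ring, pow_mul, hxn, one_pow]

theorem E2_of_not_dvd (hx : IsOfFinOrder x) (h : ∀ r : ℕ, EO (x ^ r) → x ^ r = 1) : E2 x := by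
  obtain ⟨n, hn, hxn⟩ := isOfFinOrder_iff_pow_eq_one.1 hx
  obtain ⟨a, m, hm, rfl⟩ := exists_two_pow_mul_odd hn
  refine ⟨a, h _ ⟨m, hm, ?_⟩⟩
  rw [← pow_mul, hxn]

theorem EO_of_not_dvd (hx : IsOfFinOrder x) (h : ∀ r : ℕ, E2 (x ^ r) → x ^ r = 1) : EO x := by
  obtain ⟨n, hn, hxn⟩ := isOfFinOrder_iff_pow_eq_one.1 hx
  obtain ⟨a, m, hm, rfl⟩ := exists_two_pow_mul_odd hn
  refine ⟨m, hm, h _ ⟨a, ?_⟩⟩
  rw [← pow_mul, mul_comm, hxn]

end elements

section tauopi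

variable {G G' : Type*} [Group G] [Group G'] {H K : Subgroup G} {x : G}

theorem tau_le (H : Subgroup G) : tau H ≤ H := (Subgroup.closure_le _).2 fun _ hx => hx.1
theorem opi_le (H : Subgroup G) : opi H ≤ H := (Subgroup.closure_le _).2 fun _ hx => hx.1
theorem rho_le (H : Subgroup G) : rho H ≤ H := (tau_le _).trans (opi_le _)

theorem mem_tau (hx : x ∈ H) (h : E2 x) : x ∈ tau H := Subgroup.subset_closure ⟨hx, h⟩
theorem mem_opi (hx : x ∈ H) (h : EO x) : x ∈ opi H := Subgroup.subset_closure ⟨hx, h⟩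

theorem tau_mono (h : H ≤ K) : tau H ≤ tau K :=
  Subgroup.closure_mono fun _ hx => ⟨h hx.1, hx.2⟩

theorem opi_mono (h : H ≤ K) : opi H ≤ opi K :=
  Subgroup.closure_mono fun _ hx => ⟨h hx.1, hx.2⟩

theorem rho_mono (h : H ≤ K) : rho H ≤ rho K := tau_mono (opi_mono h)

theorem rhoIter_mono (n : ℕ) (h : H ≤ K) : rho^[n] H ≤ rho^[n] K := by
  induction n with
  | zero => simpa using h
  | succ n ih => rw [Function.iterate_succ_apply', Function.iterate_succ_apply']; exact rho_mono ih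

theorem rhoIter_le (n : ℕ) (H : Subgroup G) : rho^[n] H ≤ H := by
  induction n with
  | zero => simp
  | succ n ih => rw [Function.iterate_succ_apply']; exact (rho_le _).trans ih

theorem rhoIter_anti {m n : ℕ} (h : m ≤ n) (H : Subgroup G) : rho^[n] H ≤ rho^[m] H := by
  obtain ⟨k, rfl⟩ := Nat.exists_eq_add_of_le h
  rw [add_comm, Function.iterate_add_apply]
  exact rhoIter_le _ _

theorem rhoIter_bot (n : ℕ) : rho^[n] (⊥ : Subgroup G) = ⊥ :=
  le_bot_iff.1 (rhoIter_le _ _)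

theorem tau_idem (H : Subgroup G) : tau (tau H) = tau H :=
  le_antisymm (tau_le _) ((Subgroup.closure_le _).2 fun _ hx => mem_tau (mem_tau hx.1 hx.2) hx.2)

theorem opi_idem (H : Subgroup G) : opi (opi H) = opi H :=
  le_antisymm (opi_le _) ((Subgroup.closure_le _).2 fun _ hx => mem_opi (mem_opi hx.1 hx.2) hx.2)

theorem tau_rho (H : Subgroup G) : tau (rho H) = rho H := tau_idem _

theorem tau_eq_of_Is2 (h : Is2 H) : tau H = H :=
  le_antisymm (tau_le _) fun _ hx => mem_tau hx (h _ hx)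

theorem opi_eq_of_IsO (h : IsO H) : opi H = H :=
  le_antisymm (opi_le _) fun _ hx => mem_opi hx (h _ hx)

theorem Is2.mono (h : H ≤ K) (hK : Is2 K) : Is2 H := fun x hx => hK x (h hx)
theorem IsO.mono (h : H ≤ K) (hK : IsO K) : IsO H := fun x hx => hK x (h hx)
theorem Is2.bot : Is2 (⊥ : Subgroup G) := fun x hx => by rw [Subgroup.mem_bot.1 hx]; exact E2.one
theorem IsO.bot : IsO (⊥ : Subgroup G) := fun x hx => by rw [Subgroup.mem_bot.1 hx]; exact EO.one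

theorem Is2.inf_IsO (h2 : Is2 H) (hO : IsO K) : H ⊓ K = ⊥ :=
  le_bot_iff.1 fun x hx => Subgroup.mem_bot.2 (eq_one_of_E2_EO (h2 x hx.1) (hO x hx.2))

theorem is2_iff_isPGroup : Is2 H ↔ IsPGroup 2 H := by
  constructor
  · intro h x
    obtain ⟨k, hk⟩ := h x x.2
    exact ⟨k, by ext; simpa using hk⟩
  · intro h x hx
    obtain ⟨k, hk⟩ := h ⟨x, hx⟩
    exact ⟨k, by simpa using congrArg Subtype.val hk⟩

theorem Is2.map (h : Is2 H) (f : G →* G') : Is2 (H.map f) := by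
  rintro _ ⟨x, hx, rfl⟩
  exact (h x hx).map f

theorem IsO.map (h : IsO H) (f : G →* G') : IsO (H.map f) := by
  rintro _ ⟨x, hx, rfl⟩
  exact (h x hx).map f

theorem opi_eq_bot_of_Is2 (h : Is2 H) : opi H = ⊥ := by
  rw [opi, Subgroup.closure_eq_bot_iff]
  rintro x ⟨hx, ho⟩
  exact eq_one_of_E2_EO (h x hx) ho

theorem tau_eq_bot_of_IsO (h : IsO H) : tau H = ⊥ := by
  rw [tau, Subgroup.closure_eq_bot_iff]
  rintro x ⟨hx, ho⟩
  exact eq_one_of_E2_EO ho (h x hx)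

theorem rho_eq_bot_of_Is2 (h : Is2 H) : rho H = ⊥ := by
  rw [rho, opi_eq_bot_of_Is2 h]
  exact le_bot_iff.1 (tau_le _)

theorem Is2_of_opi_eq_bot (hG : Tor G) (h : opi H = ⊥) : Is2 H := by
  intro x hx
  refine E2_of_not_dvd (hG x) fun r hr => ?_
  have := mem_opi (H.pow_mem hx r) hr
  rw [h] at this
  simpa using this

theorem IsO_of_tau_eq_bot (hG : Tor G) (h : tau H = ⊥) : IsO H := by
  intro x hx
  refine EO_of_not_dvd (hG x) fun r hr => ?_
  have := mem_tau (H.pow_mem hx r) hr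
  rw [h] at this
  simpa using this

theorem LocFin.tor (h : LocFin G) : Tor G := by
  intro x
  have : Finite (Subgroup.zpowers x) := h _ ⟨{x}, by simp [Subgroup.zpowers_eq_closure]⟩
  have hx := isOfFinOrder_of_finite (⟨x, Subgroup.mem_zpowers x⟩ : Subgroup.zpowers x)
  obtain ⟨n, hn, e⟩ := isOfFinOrder_iff_pow_eq_one.1 hx
  exact isOfFinOrder_iff_pow_eq_one.2 ⟨n, hn, by simpa using congrArg Subtype.val e⟩

theorem Tor.of_finite [Finite G] : Tor G := fun x => isOfFinOrder_of_finite x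

theorem LocFin.of_finite [Finite G] : LocFin G := fun _ _ => inferInstance

/-- images -/
theorem map_tau (hG : Tor G) (f : G →* G') (H : Subgroup G) :
    (tau H).map f = tau (H.map f) := by
  apply le_antisymm
  · rw [tau, MonoidHom.map_closure, Subgroup.closure_le]
    rintro _ ⟨x, ⟨hx, h2⟩, rfl⟩
    exact mem_tau ⟨x, hx, rfl⟩ (h2.map f)
  · rw [tau, Subgroup.closure_le]
    rintro _ ⟨⟨x, hx, rfl⟩, k, hk⟩
    obtain ⟨r, hr, hr'⟩ := lift2 (hG x) (D := f.ker) (k := k) (by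
      rw [MonoidHom.mem_ker, map_pow]; exact hk)
    refine ⟨x ^ r, mem_tau (H.pow_mem hx r) hr, ?_⟩
    rw [MonoidHom.mem_ker, map_mul, map_inv] at hr'
    exact (inv_mul_eq_one.1 hr').symm

theorem map_opi (hG : Tor G) (f : G →* G') (H : Subgroup G) :
    (opi H).map f = opi (H.map f) := by
  apply le_antisymm
  · rw [opi, MonoidHom.map_closure, Subgroup.closure_le]
    rintro _ ⟨x, ⟨hx, h2⟩, rfl⟩
    exact mem_opi ⟨x, hx, rfl⟩ (h2.map f)
  · rw [opi, Subgroup.closure_le]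
    rintro _ ⟨⟨x, hx, rfl⟩, k, hko, hk⟩
    obtain ⟨r, hr, hr'⟩ := liftO (hG x) (D := f.ker) (m' := k) hko (by
      rw [MonoidHom.mem_ker, map_pow]; exact hk)
    refine ⟨x ^ r, mem_opi (H.pow_mem hx r) hr, ?_⟩
    rw [MonoidHom.mem_ker, map_mul, map_inv] at hr'
    exact (inv_mul_eq_one.1 hr').symm

theorem map_rho (hG : Tor G) (f : G →* G')
    (H : Subgroup G) : (rho H).map f = rho (H.map f) := by
  rw [rho, map_tau hG, map_opi hG, rho]

theorem map_rhoIter (hG : Tor G) (f : G →* G')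
    (n : ℕ) (H : Subgroup G) : (rho^[n] H).map f = rho^[n] (H.map f) := by
  induction n with
  | zero => simp
  | succ n ih => rw [Function.iterate_succ_apply', Function.iterate_succ_apply', map_rho hG, ih]

/-- injective maps need no torsion. -/
theorem map_tau_of_injective (f : G →* G') (hf : Function.Injective f) (H : Subgroup G) :
    (tau H).map f = tau (H.map f) := by
  rw [tau, tau, MonoidHom.map_closure]
  congr 1
  ext y
  constructor
  · rintro ⟨x, ⟨hx, h2⟩, rfl⟩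
    exact ⟨⟨x, hx, rfl⟩, h2.map f⟩
  · rintro ⟨⟨x, hx, rfl⟩, k, hk⟩
    exact ⟨x, ⟨hx, k, hf (by rw [map_pow, map_one]; exact hk)⟩, rfl⟩

theorem map_opi_of_injective (f : G →* G') (hf : Function.Injective f) (H : Subgroup G) :
    (opi H).map f = opi (H.map f) := by
  rw [opi, opi, MonoidHom.map_closure]
  congr 1
  ext y
  constructor
  · rintro ⟨x, ⟨hx, h2⟩, rfl⟩
    exact ⟨⟨x, hx, rfl⟩, h2.map f⟩
  · rintro ⟨⟨x, hx, rfl⟩, k, hko, hk⟩
    exact ⟨x, ⟨hx, k, hko, hf (by rw [map_pow, map_one]; exact hk)⟩, rfl⟩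

theorem map_rhoIter_of_injective (f : G →* G') (hf : Function.Injective f) (n : ℕ)
    (H : Subgroup G) : (rho^[n] H).map f = rho^[n] (H.map f) := by
  induction n with
  | zero => simp
  | succ n ih =>
    rw [Function.iterate_succ_apply', Function.iterate_succ_apply', rho, rho,
      map_tau_of_injective f hf, map_opi_of_injective f hf, ih]

end tauopi

section nrm

variable {G G' : Type*} [Group G] [Group G'] {A B H K P Q : Subgroup G} {x : G}

theorem nrm_iff : Nrm A H ↔ A ≤ Subgroup.normalizer (H : Set G) := by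
  constructor
  · intro h a ha n
    refine ⟨fun hn => h a ha n hn, fun hn => ?_⟩
    have := h a⁻¹ (A.inv_mem ha) _ hn
    simpa [mul_assoc] using this
  · intro h a ha x hx
    exact (h ha x).1 hx

theorem Nrm.inv (h : Nrm A H) {a x : G} (ha : a ∈ A) (hx : x ∈ H) : a⁻¹ * x * a ∈ H := by
  have := h a⁻¹ (A.inv_mem ha) x hx
  simpa using this

theorem Nrm.iff (h : Nrm A H) {a x : G} (ha : a ∈ A) : a * x * a⁻¹ ∈ H ↔ x ∈ H := by
  refine ⟨fun hx => ?_, fun hx => h a ha x hx⟩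
  have := h.inv ha hx
  simpa [mul_assoc] using this

theorem Nrm.self (H : Subgroup G) : Nrm H H := fun a ha x hx =>
  H.mul_mem (H.mul_mem ha hx) (H.inv_mem ha)

theorem Nrm.of_normal [hH : H.Normal] : Nrm A H := fun a _ x hx => hH.conj_mem x hx a

theorem Nrm.mono (h : A ≤ B) (hB : Nrm B H) : Nrm A H := fun a ha x hx => hB a (h ha) x hx

theorem Nrm.of_le (h : A ≤ H) : Nrm A H := (Nrm.self H).mono h

theorem Nrm.bot : Nrm A (⊥ : Subgroup G) := fun _ _ x hx => by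
  rw [Subgroup.mem_bot] at hx ⊢; subst hx; simp

theorem Nrm.top : Nrm A (⊤ : Subgroup G) := fun _ _ _ _ => trivial

theorem Nrm.sup_left (hA : Nrm A H) (hB : Nrm B H) : Nrm (A ⊔ B) H := by
  rw [nrm_iff] at *
  exact sup_le hA hB

theorem Nrm.closure_right {S : Set G} (h : ∀ a ∈ A, ∀ s ∈ S, a * s * a⁻¹ ∈ Subgroup.closure S) :
    Nrm A (Subgroup.closure S) := by
  intro a ha x hx
  induction hx using Subgroup.closure_induction with
  | mem x hx => exact h a ha x hx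
  | one => simp
  | mul x y _ _ hx hy =>
    have : a * (x * y) * a⁻¹ = (a * x * a⁻¹) * (a * y * a⁻¹) := by group
    rw [this]; exact Subgroup.mul_mem _ hx hy
  | inv x _ hx =>
    have : a * x⁻¹ * a⁻¹ = (a * x * a⁻¹)⁻¹ := by group
    rw [this]; exact Subgroup.inv_mem _ hx

theorem Nrm.sup_right (hH : Nrm A H) (hK : Nrm A K) : Nrm A (H ⊔ K) := by
  rw [Subgroup.sup_eq_closure]
  apply Nrm.closure_right
  rintro a ha s (hs | hs)
  · exact Subgroup.subset_closure (Or.inl (hH a ha s hs))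
  · exact Subgroup.subset_closure (Or.inr (hK a ha s hs))

theorem Nrm.inf_right (hH : Nrm A H) (hK : Nrm A K) : Nrm A (H ⊓ K) := fun a ha x hx =>
  ⟨hH a ha x hx.1, hK a ha x hx.2⟩

theorem Nrm.iInf_right {ι : Sort*} {H : ι → Subgroup G} (h : ∀ i, Nrm A (H i)) :
    Nrm A (⨅ i, H i) := by
  intro a ha x hx
  rw [Subgroup.mem_iInf] at hx ⊢
  exact fun i => h i a ha x (hx i)

theorem Nrm.iSup_right {ι : Sort*} {H : ι → Subgroup G} (h : ∀ i, Nrm A (H i)) :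
    Nrm A (⨆ i, H i) := by
  rw [Subgroup.iSup_eq_closure]
  apply Nrm.closure_right
  intro a ha s hs
  obtain ⟨i, hi⟩ := Set.mem_iUnion.1 hs
  exact Subgroup.subset_closure (Set.mem_iUnion.2 ⟨i, h i a ha s hi⟩)

theorem Nrm.tau (h : Nrm A H) : Nrm A (tau H) :=
  Nrm.closure_right fun a ha s hs =>
    Subgroup.subset_closure ⟨h a ha s hs.1, hs.2.conj a⟩

theorem Nrm.opi (h : Nrm A H) : Nrm A (opi H) :=
  Nrm.closure_right fun a ha s hs =>
    Subgroup.subset_closure ⟨h a ha s hs.1, hs.2.conj a⟩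

theorem Nrm.rho (h : Nrm A H) : Nrm A (rho H) := h.opi.tau

theorem Nrm.rhoIter (h : Nrm A H) (n : ℕ) : Nrm A (TwoLen.rho^[n] H) := by
  induction n with
  | zero => simpa using h
  | succ n ih => rw [Function.iterate_succ_apply']; exact ih.rho

theorem Nrm.commutator (hH : Nrm A H) (hK : Nrm A K) : Nrm A ⁅H, K⁆ := by
  rw [Subgroup.commutator_def]
  apply Nrm.closure_right
  rintro a ha _ ⟨x, hx, y, hy, rfl⟩
  refine Subgroup.subset_closure ⟨a * x * a⁻¹, hH a ha x hx, a * y * a⁻¹, hK a ha y hy, ?_⟩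
  simp only [commutatorElement_def]; group

theorem Nrm.map (h : Nrm A H) (f : G →* G') : Nrm (A.map f) (H.map f) := by
  rintro _ ⟨a, ha, rfl⟩ _ ⟨x, hx, rfl⟩
  exact ⟨a * x * a⁻¹, h a ha x hx, by simp⟩

theorem normal_of_nrm_top (h : Nrm ⊤ H) : H.Normal := ⟨fun x hx a => h a trivial x hx⟩

/-- elements of a join with a normalised subgroup. -/
theorem mem_sup_nrm (h : Nrm B K) : x ∈ K ⊔ B ↔ ∃ k ∈ K, ∃ b ∈ B, x = k * b := by
  constructor
  · intro hx
    let S : Subgroup G :=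
      { carrier := {x | ∃ k ∈ K, ∃ b ∈ B, x = k * b}
        one_mem' := ⟨1, K.one_mem, 1, B.one_mem, by simp⟩
        mul_mem' := by
          rintro _ _ ⟨k, hk, b, hb, rfl⟩ ⟨k', hk', b', hb', rfl⟩
          exact ⟨k * (b * k' * b⁻¹), K.mul_mem hk (h b hb k' hk'), b * b', B.mul_mem hb hb',
            by group⟩
        inv_mem' := by
          rintro _ ⟨k, hk, b, hb, rfl⟩
          exact ⟨b⁻¹ * k⁻¹ * b, h.inv hb (K.inv_mem hk), b⁻¹, B.inv_mem hb, by group⟩ }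
    have : K ⊔ B ≤ S := sup_le (fun k hk => ⟨k, hk, 1, B.one_mem, by simp⟩)
      (fun b hb => ⟨1, K.one_mem, b, hb, by simp⟩)
    exact this hx
  · rintro ⟨k, hk, b, hb, rfl⟩
    exact Subgroup.mul_mem_sup hk hb

theorem mem_sup_nrm' (h : Nrm B K) : x ∈ K ⊔ B ↔ ∃ b ∈ B, ∃ k ∈ K, x = b * k := by
  rw [mem_sup_nrm h]
  constructor
  · rintro ⟨k, hk, b, hb, rfl⟩
    exact ⟨b, hb, b⁻¹ * k * b, h.inv hb hk, by group⟩
  · rintro ⟨b, hb, k, hk, rfl⟩
    exact ⟨b * k * b⁻¹, h b hb k hk, b, hb, by group⟩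

/-- powers of a product modulo a normalised subgroup -/
theorem mul_pow_mem_nrm (h : Nrm B K) {k b : G} (hk : k ∈ K) (hb : b ∈ B) (n : ℕ) :
    ∃ k' ∈ K, (k * b) ^ n = k' * b ^ n := by
  induction n with
  | zero => exact ⟨1, K.one_mem, by simp⟩
  | succ n ih =>
    obtain ⟨k', hk', e⟩ := ih
    refine ⟨k' * (b ^ n * k * (b ^ n)⁻¹), K.mul_mem hk' (h _ (B.pow_mem hb n) _ hk), ?_⟩
    rw [pow_succ, e, pow_succ]; group

theorem Is2.sup_of_nrm (hP : Is2 P) (hQ : Is2 Q) (h : Nrm Q P) : Is2 (P ⊔ Q) := by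
  intro x hx
  obtain ⟨p, hp, q, hq, rfl⟩ := (mem_sup_nrm h).1 hx
  obtain ⟨k, hk⟩ := hQ q hq
  obtain ⟨p', hp', e⟩ := mul_pow_mem_nrm h hp hq (2 ^ k)
  rw [hk, mul_one] at e
  exact E2.of_pow (k := k) (by rw [e]; exact hP p' hp')

theorem IsO.sup_of_nrm (hP : IsO P) (hQ : IsO Q) (h : Nrm Q P) : IsO (P ⊔ Q) := by
  intro x hx
  obtain ⟨p, hp, q, hq, rfl⟩ := (mem_sup_nrm h).1 hx
  obtain ⟨k, hko, hk⟩ := hQ q hq
  obtain ⟨p', hp', e⟩ := mul_pow_mem_nrm h hp hq k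
  rw [hk, mul_one] at e
  exact EO.of_pow hko (by rw [e]; exact hP p' hp')

theorem tau_sup_le (hG : Tor G) (h : Nrm B K) : tau (K ⊔ B) ≤ K ⊔ tau B := by
  rw [tau, Subgroup.closure_le]
  rintro x ⟨hx, k, hk⟩
  obtain ⟨p, hp, q, hq, rfl⟩ := (mem_sup_nrm h).1 hx
  obtain ⟨p', hp', e⟩ := mul_pow_mem_nrm h hp hq (2 ^ k)
  rw [hk] at e
  have hqk : q ^ (2 ^ k : ℕ) ∈ K := by
    rw [← inv_eq_of_mul_eq_one_right e.symm]; exact K.inv_mem hp'
  obtain ⟨r, hr, hr'⟩ := lift2 (hG q) (D := K) hqk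
  have : p * q = (p * (q * (q⁻¹ * q ^ r) * q⁻¹)⁻¹) * q ^ r := by group
  rw [this]
  exact Subgroup.mul_mem_sup (K.mul_mem hp (K.inv_mem (h q hq _ hr')))
    (mem_tau (B.pow_mem hq r) hr)

theorem opi_sup_le (hG : Tor G) (h : Nrm B K) : opi (K ⊔ B) ≤ K ⊔ opi B := by
  rw [opi, Subgroup.closure_le]
  rintro x ⟨hx, k, hko, hk⟩
  obtain ⟨p, hp, q, hq, rfl⟩ := (mem_sup_nrm h).1 hx
  obtain ⟨p', hp', e⟩ := mul_pow_mem_nrm h hp hq k
  rw [hk] at e
  have hqk : q ^ k ∈ K := by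
    rw [← inv_eq_of_mul_eq_one_right e.symm]; exact K.inv_mem hp'
  obtain ⟨r, hr, hr'⟩ := liftO (hG q) (D := K) hko hqk
  have : p * q = (p * (q * (q⁻¹ * q ^ r) * q⁻¹)⁻¹) * q ^ r := by group
  rw [this]
  exact Subgroup.mul_mem_sup (K.mul_mem hp (K.inv_mem (h q hq _ hr')))
    (mem_opi (B.pow_mem hq r) hr)

theorem rho_sup_le (hG : Tor G) (h : Nrm B K) : rho (K ⊔ B) ≤ K ⊔ rho B :=
  (tau_mono (opi_sup_le hG h)).trans (tau_sup_le hG (h.mono (opi_le _)))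

theorem rhoIter_sup_le (hG : Tor G) (h : Nrm B K) (n : ℕ) :
    rho^[n] (K ⊔ B) ≤ K ⊔ rho^[n] B := by
  induction n with
  | zero => simp
  | succ n ih =>
    rw [Function.iterate_succ_apply', Function.iterate_succ_apply']
    exact (rho_mono ih).trans (rho_sup_le hG (h.mono (rhoIter_le _ _)))

end nrm

section comm

variable {G G' : Type*} [Group G] [Group G'] {A B H K P Q : Subgroup G} {x : G}

theorem rho_le_commutator (H : Subgroup G) : rho H ≤ ⁅H, H⁆ := by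
  have key : ∀ x ∈ opi H, ∀ hx : x ∈ H, EO (Abelianization.of (⟨x, hx⟩ : H)) := by
    intro x hx
    induction hx using Subgroup.closure_induction with
    | mem x hx =>
      intro hxH
      obtain ⟨m, hm, e⟩ := hx.2
      refine ⟨m, hm, ?_⟩
      rw [← map_pow]
      have : (⟨x, hxH⟩ : H) ^ m = 1 := by ext; simpa using e
      rw [this, map_one]
    | one => intro hx; exact ⟨1, odd_one, by
        have : (⟨1, hx⟩ : H) = 1 := rfl
        rw [this, map_one]; simp⟩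
    | mul x y hx' hy' hx hy =>
      intro hxy
      obtain ⟨m, hm, e⟩ := hx (opi_le _ hx')
      obtain ⟨n, hn, f⟩ := hy (opi_le _ hy')
      refine ⟨m * n, hm.mul hn, ?_⟩
      have : (⟨x * y, hxy⟩ : H) = ⟨x, opi_le _ hx'⟩ * ⟨y, opi_le _ hy'⟩ := rfl
      rw [this, map_mul, mul_pow, pow_mul, e, one_pow, one_mul, mul_comm m n, pow_mul, f, one_pow]
    | inv x hx' hx =>
      intro hxi
      have := (hx (opi_le _ hx')).inv
      rw [← map_inv] at this
      exact this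
  rw [rho, tau, Subgroup.closure_le]
  rintro x ⟨hx, h2⟩
  have hxH := opi_le _ hx
  have h1 := key x hx hxH
  have h3 : E2 (Abelianization.of (⟨x, hxH⟩ : H)) := by
    obtain ⟨k, hk⟩ := h2
    refine ⟨k, ?_⟩
    rw [← map_pow]
    have : (⟨x, hxH⟩ : H) ^ (2 ^ k : ℕ) = 1 := by ext; simpa using hk
    rw [this, map_one]
  have h4 := eq_one_of_E2_EO h3 h1
  have h5 : (⟨x, hxH⟩ : H) ∈ _root_.commutator H := by
    rw [← Abelianization.ker_of]; exact h4
  have h6 : x ∈ (_root_.commutator H).map H.subtype := ⟨_, h5, rfl⟩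
  rwa [Subgroup.map_subtype_commutator] at h6

theorem rho_lt_of_solvable [Group.IsSolvable H] (hH : H ≠ ⊥) : rho H < H := by
  refine lt_of_le_of_lt (rho_le_commutator H) ?_
  have : Nontrivial H := (Subgroup.nontrivial_iff_ne_bot H).2 hH
  have h := Group.IsSolvable.commutator_lt_top_of_nontrivial H
  rw [← Subgroup.map_subtype_commutator]
  refine lt_of_le_of_ne (Subgroup.map_subtype_le _) fun e => h.ne ?_
  rw [eq_top_iff]
  intro y _
  have : (y : G) ∈ (_root_.commutator H).map H.subtype := by rw [e]; exact y.2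
  obtain ⟨z, hz, hzy⟩ := this
  rwa [← Subtype.ext hzy]

end comm

section bound2

variable {G : Type*} [Group G] {H K : Subgroup G}

/-- `H / opi H` is a 2-group -/
theorem exists_pow_mem_opi (hG : Tor G) {x : G} (hx : x ∈ H) :
    ∃ k : ℕ, x ^ (2 ^ k : ℕ) ∈ opi H := by
  obtain ⟨n, hn, hxn⟩ := isOfFinOrder_iff_pow_eq_one.1 (hG x)
  obtain ⟨a, m, hm, rfl⟩ := exists_two_pow_mul_odd hn
  exact ⟨a, mem_opi (H.pow_mem hx _) ⟨m, hm, by rw [← pow_mul, hxn]⟩⟩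

/-- `H / tau H` is odd -/
theorem exists_pow_mem_tau (hG : Tor G) {x : G} (hx : x ∈ H) :
    ∃ m : ℕ, Odd m ∧ x ^ m ∈ tau H := by
  obtain ⟨n, hn, hxn⟩ := isOfFinOrder_iff_pow_eq_one.1 (hG x)
  obtain ⟨a, m, hm, rfl⟩ := exists_two_pow_mul_odd hn
  exact ⟨m, hm, mem_tau (H.pow_mem hx _) ⟨a, by rw [← pow_mul, mul_comm, hxn]⟩⟩

/-- The frozen statement's 2-soluble series gives `rho^[n] = ⊥`. -/
theorem rhoIter_eq_bot_of_series {n : ℕ} {S : ℕ → Subgroup G} (h0 : S 0 = ⊥)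
    (hs : ∀ i < n, S i ≤ S (i + 1) ∧
      ((∀ x ∈ S (i + 1), ∃ k : ℕ, x ^ (2 ^ k : ℕ) ∈ S i) ∨
       (∀ x ∈ S (i + 1), ∃ m : ℕ, Odd m ∧ x ^ m ∈ S i))) : rho^[n] (S n) = ⊥ := by
  have step : ∀ i < n, rho (S (i + 1)) ≤ S i := by
    intro i hi
    rcases (hs i hi).2 with h | h
    · refine (tau_le _).trans ((Subgroup.closure_le _).2 ?_)
      rintro x ⟨hx, ho⟩
      obtain ⟨k, hk⟩ := h x hx
      exact ho.mem_of_two hk
    · refine (tau_mono (opi_le _)).trans ((Subgroup.closure_le _).2 ?_)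
      rintro x ⟨hx, h2⟩
      obtain ⟨m, hm, hk⟩ := h x hx
      exact h2.mem_of_odd hm hk
  have main : ∀ j ≤ n, rho^[j] (S n) ≤ S (n - j) := by
    intro j
    induction j with
    | zero => intro _; simp
    | succ j ih =>
      intro hj
      rw [Function.iterate_succ_apply']
      have h1 := rho_mono (ih (by omega))
      have h2 := step (n - (j + 1)) (by omega)
      have e : n - (j + 1) + 1 = n - j := by omega
      rw [e] at h2
      exact h1.trans h2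
  have := main n le_rfl
  rw [Nat.sub_self, h0] at this
  exact le_bot_iff.1 this

end bound2

end Pool.Agent.Helper12.TwoLen
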