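import Pool.Agent.Helper12.LemW

/-!
Section version of Lemma 1 and Corollary 1.
-/

set_option autoImplicit false

open scoped commutatorElement Pointwise

namespace Pool.Agent.Helper12.TwoLen

theorem rhoIter_top_le_derivedSeries {X : Type*} [Group X] (n : ℕ) :
    rho^[n] (⊤ : Subgroup X) ≤ derivedSeries X n := by
  induction n with
  | zero => simp
  | succ n ih =>
    rw [Function.iterate_succ_apply', derivedSeries_succ]
    exact (rho_le_commutator _).trans (Subgroup.commutator_mono ih ih)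

theorem rhoIter_coe {G : Type*} [Group G] (X : Subgroup G) (n : ℕ) :
    rho^[n] X = (rho^[n] (⊤ : Subgroup X)).map X.subtype := by
  rw [map_rhoIter_of_injective _ (Subgroup.subtype_injective X), ← MonoidHom.range_eq_map,
    Subgroup.range_subtype]

theorem lem1_sec (h1 : Lem1) (k : ℕ) : ∃ g : ℕ, ∀ (G : Type) [Group G] [Finite G]
    (X M1 M2 : Subgroup G) [Group.IsSolvable X] (S : Set G), Nrm X M1 → Nrm X M2 → M2 ≤ M1 →
    ⁅M1, M1⁆ ≤ M2 →
    (∀ U : Subgroup G, M2 ≤ U → U ≤ M1 → Nrm X U → U = M2 ∨ U = M1) →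
    Subgroup.closure S = X →
    (∀ σ ∈ S, ∃ T : Subgroup G, T ≤ M1 ∧ (∀ t ∈ T, σ * t * σ⁻¹ * t⁻¹ ∈ M2) ∧
      T.relIndex M1 ≤ k) →
    ∀ x ∈ rho^[g] X, ∀ y ∈ M1, x * y * x⁻¹ * y⁻¹ ∈ M2 := by
  obtain ⟨g, hg⟩ := h1 k
  refine ⟨g, ?_⟩
  intro G _ _ X M1 M2 _ S hX1 hX2 h21 hab hirr hS hSk x hx y hy
  have hN : Nrm M1 M2 := by
    intro a ha b hb
    have h2 : ⁅a, b⁆ ∈ M2 := hab (Subgroup.commutator_mem_commutator ha (h21 hb))
    rw [commutatorElement_def] at h2
    have := M2.mul_mem h2 hb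
    simpa using this
  have hn : (M2.subgroupOf M1).Normal := subgroupOf_normal hN
  let cg : CommGroup (M1 ⧸ M2.subgroupOf M1) :=
    { (inferInstance : Group (M1 ⧸ M2.subgroupOf M1)) with
      mul_comm := by
        intro a b
        induction a using QuotientGroup.induction_on with
        | H a =>
          induction b using QuotientGroup.induction_on with
          | H b =>
            change ((a * b : M1) : M1 ⧸ M2.subgroupOf M1) = ((b * a : M1) : M1 ⧸ M2.subgroupOf M1)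
            rw [QuotientGroup.eq_iff_div_mem, Subgroup.mem_subgroupOf]
            have : ⁅(a : G), (b : G)⁆ ∈ M2 := hab (Subgroup.commutator_mem_commutator a.2 b.2)
            rw [commutatorElement_def] at this
            simpa [div_eq_mul_inv, mul_assoc] using this }
  set q : M1 →* M1 ⧸ M2.subgroupOf M1 := QuotientGroup.mk' (M2.subgroupOf M1) with hq
  have hDker : ∀ (x : M1), q x = 1 ↔ (x : G) ∈ M2 := by
    intro x
    rw [hq, QuotientGroup.mk'_apply, QuotientGroup.eq_one_iff, Subgroup.mem_subgroupOf]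
  have hkey := @hg X (M1 ⧸ M2.subgroupOf M1) _ _ _ cg _ (secHom hX1 hX2)
    {s : X | (s : G) ∈ S} (by
      subst hS
      exact Subgroup.closure_closure_coe_preimage) (by
      intro U hU
      have hle : M2 ≤ (U.comap q).map M1.subtype := by
        intro x hx
        exact ⟨⟨x, h21 hx⟩, by
          change q _ ∈ U
          rw [(hDker ⟨x, h21 hx⟩).2 hx]; exact U.one_mem, rfl⟩
      have hnrm : Nrm X ((U.comap q).map M1.subtype) := by
        rintro a ha _ ⟨y, hy, rfl⟩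
        refine ⟨cj hX1 ⟨a, ha⟩ y, ?_, rfl⟩
        change q _ ∈ U
        have := hU ⟨a, ha⟩ _ hy
        rw [hq, QuotientGroup.mk'_apply] at this
        rw [secHom_mk] at this
        exact this
      rcases hirr _ hle (Subgroup.map_subtype_le _) hnrm with h | h
      · left
        rw [eq_bot_iff]
        intro u hu
        obtain ⟨z, rfl⟩ := QuotientGroup.mk'_surjective (M2.subgroupOf M1) u
        have : (z : G) ∈ (U.comap q).map M1.subtype := ⟨z, hu, rfl⟩
        rw [h] at this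
        exact (hDker z).2 this
      · right
        rw [eq_top_iff]
        intro u _
        obtain ⟨z, rfl⟩ := QuotientGroup.mk'_surjective (M2.subgroupOf M1) u
        have : (z : G) ∈ (U.comap q).map M1.subtype := by rw [h]; exact z.2
        obtain ⟨z', hz', e⟩ := this
        have : z' = z := Subtype.ext e
        rw [← this]
        exact hz') (by
      intro σ hσ
      obtain ⟨T, hT1, hT2, hT3⟩ := hSk σ hσ
      refine ⟨(T.subgroupOf M1).map q, ?_, ?_⟩
      · rintro _ ⟨t, ht, rfl⟩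
        rw [hq, QuotientGroup.mk'_apply]
        rw [secHom_mk]
        rw [QuotientGroup.eq_iff_div_mem, Subgroup.mem_subgroupOf]
        have := hT2 t ht
        simpa [div_eq_mul_inv] using this
      · refine le_trans (Nat.le_of_dvd ?_ (Subgroup.index_map_dvd _
          (QuotientGroup.mk'_surjective _))) hT3
        exact Nat.pos_of_ne_zero Subgroup.FiniteIndex.index_ne_zero)
  rw [rhoIter_coe] at hx
  obtain ⟨x, hx, rfl⟩ := hx
  have h2 := hkey x (rhoIter_top_le_derivedSeries g hx)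
  have h3 : secHom hX1 hX2 x (QuotientGroup.mk (⟨y, hy⟩ : M1)) = QuotientGroup.mk (⟨y, hy⟩ : M1) := by
    rw [h2]; rfl
  rw [secHom_mk, QuotientGroup.eq_iff_div_mem, Subgroup.mem_subgroupOf] at h3
  simpa [div_eq_mul_inv] using h3

section minmax

variable {G : Type*} [Group G] [Finite G]

theorem exists_min (p : Subgroup G → Prop) (h : ∃ U, p U) :
    ∃ U, p U ∧ ∀ V, p V → V ≤ U → V = U := by
  obtain ⟨U, hU, hm⟩ := (Set.toFinite {U : Subgroup G | p U}).exists_minimal h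
  exact ⟨U, hU, fun V hV hVU => le_antisymm hVU (hm hV hVU)⟩

theorem exists_max (p : Subgroup G → Prop) (h : ∃ U, p U) :
    ∃ U, p U ∧ ∀ V, p V → U ≤ V → V = U := by
  obtain ⟨U, hU, hm⟩ := (Set.toFinite {U : Subgroup G | p U}).exists_maximal h
  exact ⟨U, hU, fun V hV hVU => le_antisymm (hm hV hVU) hVU⟩

end minmax

theorem relIndex_ne {G : Type*} [Group G] [Finite G] (T X : Subgroup G) : T.relIndex X ≠ 0 := by
  rw [Subgroup.relIndex]
  exact Subgroup.FiniteIndex.index_ne_zero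

theorem nrm_commutator_left {G : Type*} [Group G] (L B : Subgroup G) : Nrm L ⁅L, B⁆ := by
  rw [Subgroup.commutator_def]
  apply Nrm.closure_right
  rintro a ha _ ⟨x, hx, y, hy, rfl⟩
  have e : a * ⁅x, y⁆ * a⁻¹ = ⁅a * x, y⁆ * ⁅a, y⁆⁻¹ := by
    simp only [commutatorElement_def]; group
  rw [e]
  exact Subgroup.mul_mem _ (Subgroup.subset_closure ⟨a * x, L.mul_mem ha hx, y, hy, rfl⟩)
    (Subgroup.inv_mem _ (Subgroup.subset_closure ⟨a, ha, y, hy, rfl⟩))

theorem nrm_commutator_right {G : Type*} [Group G] (L B : Subgroup G) : Nrm B ⁅L, B⁆ := by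
  rw [Subgroup.commutator_comm]
  exact nrm_commutator_left B L

section cen

variable {G : Type*} [Group G]

/-- the centraliser in `U / X` of a set `R`. -/
def cen (R : Set G) (U X : Subgroup G) (h : Nrm U X) : Subgroup G where
  carrier := {y | y ∈ U ∧ ∀ x ∈ R, x * y * x⁻¹ * y⁻¹ ∈ X}
  one_mem' := ⟨U.one_mem, fun x _ => by simp⟩
  mul_mem' := by
    rintro y z ⟨hy, hy'⟩ ⟨hz, hz'⟩
    refine ⟨U.mul_mem hy hz, fun x hx => ?_⟩
    have e : x * (y * z) * x⁻¹ * (y * z)⁻¹ = (x * y * x⁻¹ * y⁻¹) * (y * (x * z * x⁻¹ * z⁻¹) * y⁻¹) := by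
      group
    rw [e]
    exact X.mul_mem (hy' x hx) (h y hy _ (hz' x hx))
  inv_mem' := by
    rintro y ⟨hy, hy'⟩
    refine ⟨U.inv_mem hy, fun x hx => ?_⟩
    have e : x * y⁻¹ * x⁻¹ * y⁻¹⁻¹ = y⁻¹ * (x * y * x⁻¹ * y⁻¹)⁻¹ * y := by group
    rw [e]
    exact h.inv hy (X.inv_mem (hy' x hx))

theorem mem_cen {R : Set G} {U X : Subgroup G} {h : Nrm U X} {y : G} :
    y ∈ cen R U X h ↔ y ∈ U ∧ ∀ x ∈ R, x * y * x⁻¹ * y⁻¹ ∈ X := Iff.rfl

theorem cen_le {R : Set G} {U X : Subgroup G} {h : Nrm U X} : cen R U X h ≤ U := fun _ hy => hy.1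

theorem nrm_cen {R Q U X : Subgroup G} {h : Nrm U X} (hR : Nrm Q R) (hU : Nrm Q U)
    (hX : Nrm Q X) : Nrm Q (cen (R : Set G) U X h) := by
  rintro q hq y ⟨hy, hy'⟩
  refine ⟨hU q hq y hy, fun x hx => ?_⟩
  have := hX q hq _ (hy' _ (hR.inv hq hx))
  convert this using 1
  group

/-- the elements of `P` acting trivially on `y` mod `X`. -/
def fixer (P X : Subgroup G) (y : G) (h : Nrm P X) : Subgroup G where
  carrier := {x | x ∈ P ∧ x * y * x⁻¹ * y⁻¹ ∈ X}
  one_mem' := ⟨P.one_mem, by simp⟩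
  mul_mem' := by
    rintro a b ⟨ha, ha'⟩ ⟨hb, hb'⟩
    refine ⟨P.mul_mem ha hb, ?_⟩
    have e : a * b * y * (a * b)⁻¹ * y⁻¹ = (a * (b * y * b⁻¹ * y⁻¹) * a⁻¹) * (a * y * a⁻¹ * y⁻¹) := by
      group
    rw [e]
    exact X.mul_mem (h a ha _ hb') ha'
  inv_mem' := by
    rintro a ⟨ha, ha'⟩
    refine ⟨P.inv_mem ha, ?_⟩
    have e : a⁻¹ * y * a⁻¹⁻¹ * y⁻¹ = a⁻¹ * (a * y * a⁻¹ * y⁻¹)⁻¹ * a := by group
    rw [e]
    exact h.inv ha (X.inv_mem ha')

theorem relIndex_cK (x : G) (T X : Subgroup G) : (cK x T).relIndex (cK x X) = T.relIndex X :=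
  Subgroup.relIndex_map_map_of_injective _ _ (MulAut.conj x).injective

end cen

theorem cor1 {l f0 : ℕ} (h : PAct l f0) (h1 : Lem1) (c : ℕ) : ∃ f5 : ℕ, ∀ (G : Type) [Group G]
    [Finite G] (A L P X1 X2 : Subgroup G) [Group.IsSolvable L] (b : G), Is2 A → Nrm A L →
    Good A L → Nat.card A ≤ 2 ^ (l + 1) → L ≤ P → Nrm P L → Nrm P X1 → Nrm P X2 → X2 ≤ X1 →
    ⁅X1, X1⁆ ≤ X2 → (∀ U : Subgroup G, X2 ≤ U → U ≤ X1 → Nrm P U → U = X2 ∨ U = X1) →
    b ∈ A → b ∈ P → b ≠ 1 →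
    (∃ T : Subgroup G, T ≤ X1 ∧ (∀ t ∈ T, b * t * b⁻¹ * t⁻¹ ∈ X2) ∧ T.relIndex X1 ≤ c) →
    ∀ x ∈ rho^[f5] L, ∀ y ∈ X1, x * y * x⁻¹ * y⁻¹ ∈ X2 := by
  obtain ⟨g, hg⟩ := lem1_sec h1 (c * c)
  refine ⟨2 ^ (l + 1) * (2 ^ (l + 1) + f0) + g, ?_⟩
  intro G _ _ A L P X1 X2 _ b hA hAL hgood hcard hLP hPL hP1 hP2 h21 hab hirr hbA hbP hb1 hT
  obtain ⟨T, hT1, hTb, hTc⟩ := hT
  by_cases hX : X1 = X2
  · subst hX
    intro x hx y hy
    exact X1.mul_mem (hP1 x (hLP (rhoIter_le _ _ hx)) y hy) (X1.inv_mem hy)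
  have h12 : Nrm X1 X2 := by
    intro a ha z hz
    have h2 : ⁅a, z⁆ ∈ X2 := hab (Subgroup.commutator_mem_commutator ha (h21 hz))
    rw [commutatorElement_def] at h2
    have := X2.mul_mem h2 hz
    simpa using this
  set B : Subgroup G := Subgroup.zpowers b with hB
  have hBP : B ≤ P := by rw [hB, Subgroup.zpowers_le]; exact hbP
  have hBA : B ≤ A := by rw [hB, Subgroup.zpowers_le]; exact hbA
  have hbB : b ∈ B := Subgroup.mem_zpowers b
  set X : Subgroup G := ⁅L, B⁆ with hXdef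
  have hBL : Nrm B L := hAL.mono hBA
  have hXL : X ≤ L := by
    rw [hXdef, Subgroup.commutator_le]
    intro x hx y hy
    have e : ⁅x, y⁆ = x * (y * x⁻¹ * y⁻¹) := by rw [commutatorElement_def]; group
    rw [e]
    exact L.mul_mem hx (hBL y hy _ (L.inv_mem hx))
  have hLX : Nrm L X := nrm_commutator_left L B
  have hBX : Nrm B X := nrm_commutator_right L B
  have hsolX : Group.IsSolvable X :=
    Group.isSolvable_of_isSolvable_injective (Subgroup.inclusion_injective hXL)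
  -- minimal invariant
  obtain ⟨M', ⟨hM'1, hM'2, hM'L, hM'B⟩, hM'min⟩ := exists_min (fun U : Subgroup G =>
    X2 < U ∧ U ≤ X1 ∧ Nrm L U ∧ Nrm B U) ⟨X1, lt_of_le_of_ne h21 (Ne.symm hX), le_rfl,
      hP1.mono hLP, hP1.mono hBP⟩
  obtain ⟨M1, ⟨hM11, hM12, hM1X⟩, hM1min⟩ := exists_min (fun U : Subgroup G =>
    X2 < U ∧ U ≤ M' ∧ Nrm X U) ⟨M', hM'1, le_rfl, hM'L.mono hXL⟩
  have hM1X1 : M1 ≤ X1 := hM12.trans hM'2
  have hM'n : Nrm M' X2 := h12.mono hM'2
  have hM1n : Nrm M1 X2 := h12.mono hM1X1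
  -- Lemma 1
  have hfix : ∀ x ∈ rho^[g] X, ∀ y ∈ M1, x * y * x⁻¹ * y⁻¹ ∈ X2 := by
    refine hg G X M1 X2 {z | ∃ x ∈ L, ∃ y ∈ B, ⁅x, y⁆ = z} hM1X (hP2.mono (hXL.trans hLP))
      hM11.le ((Subgroup.commutator_mono hM1X1 hM1X1).trans hab) ?_ ?_ ?_
    · intro U hU1 hU2 hU3
      by_cases hU : U = X2
      · exact Or.inl hU
      · right
        exact hM1min U ⟨lt_of_le_of_ne hU1 (Ne.symm hU), hU2.trans hM12, hU3⟩ hU2
    · rw [hXdef, Subgroup.commutator_def]
    · rintro σ ⟨x, hx, y, hy, rfl⟩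
      have hxP := hLP hx
      have hyP := hBP hy
      set F1 := cen {y} X1 X2 h12 with hF1
      set F2 := cen {x * y * x⁻¹} X1 X2 h12 with hF2
      have i1 : T ≤ F1 := by
        intro t ht
        refine ⟨hT1 ht, ?_⟩
        rintro _ rfl
        have hbt : b ∈ fixer P X2 t hP2 := ⟨hbP, hTb t ht⟩
        have : B ≤ fixer P X2 t hP2 := by rw [hB, Subgroup.zpowers_le]; exact hbt
        exact (this hy).2
      have i2 : F1.relIndex X1 ≤ c := by
        refine le_trans ?_ hTc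
        exact Subgroup.relIndex_le_of_le_left i1 (relIndex_ne _ _)
      have i3 : F2.relIndex X1 ≤ c := by
        have e1 : cK x F1 ≤ F2 := by
          intro z hz
          rw [mem_cK] at hz
          obtain ⟨hz1, hz2⟩ := hz
          have hzX1 : z ∈ X1 := by
            have := hP1 x hxP _ hz1
            simpa [mul_assoc] using this
          refine ⟨hzX1, ?_⟩
          rintro _ rfl
          have := hP2 x hxP _ (hz2 y rfl)
          convert this using 1
          group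
        have e2 : cK x X1 = X1 := cK_eq_of_mem hP1 hxP
        have e3 : (cK x F1).relIndex X1 = F1.relIndex X1 := by
          conv_lhs => rw [← e2]
          exact relIndex_cK x F1 X1
        refine le_trans ?_ i2
        rw [← e3]
        exact Subgroup.relIndex_le_of_le_left e1 (relIndex_ne _ _)
      have i4 : F1 ⊓ F2 ≤ cen {⁅x, y⁆} X1 X2 h12 := by
        rintro z ⟨⟨hz1, hz2⟩, ⟨_, hz3⟩⟩
        refine ⟨hz1, ?_⟩
        rintro _ rfl
        have j1 : y⁻¹ ∈ fixer P X2 z hP2 := Subgroup.inv_mem _ ⟨hyP, hz2 y rfl⟩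
        have j2 : x * y * x⁻¹ ∈ fixer P X2 z hP2 :=
          ⟨P.mul_mem (P.mul_mem hxP hyP) (P.inv_mem hxP), hz3 _ rfl⟩
        have j3 := Subgroup.mul_mem _ j2 j1
        rw [commutatorElement_def]
        exact j3.2
      refine ⟨cen {⁅x, y⁆} X1 X2 h12 ⊓ M1, inf_le_right, ?_, ?_⟩
      · rintro t ⟨ht, _⟩
        exact ht.2 _ rfl
      · rw [Subgroup.inf_relIndex_right]
        refine (Subgroup.relIndex_le_of_le_right hM1X1 (relIndex_ne _ _)).trans ?_
        refine (Subgroup.relIndex_le_of_le_left i4 (relIndex_ne _ _)).trans ?_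
        refine (Subgroup.relIndex_inf_le).trans ?_
        exact Nat.mul_le_mul i2 i3
  -- rho^[g] X acts trivially on M'
  have hM'fix : ∀ x ∈ rho^[g] X, ∀ y ∈ M', x * y * x⁻¹ * y⁻¹ ∈ X2 := by
    have hF : cen (rho^[g] X : Set G) M' X2 hM'n = M' := by
      apply hM'min _ ⟨?_, cen_le.trans hM'2, nrm_cen (hLX.rhoIter g) hM'L (hP2.mono hLP),
        nrm_cen (hBX.rhoIter g) hM'B (hP2.mono hBP)⟩ cen_le
      exact lt_of_lt_of_le hM11 fun y hy => ⟨hM12 hy, fun x hx => hfix x hx y hy⟩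
    intro x hx y hy
    rw [← hF] at hy
    exact hy.2 x hx
  -- Lemma W
  have hW : rho^[2 ^ (l + 1) * (2 ^ (l + 1) + f0)] L ≤ X := by
    refine lemW h hA hAL hgood hcard hbA hb1 hXL hLX ?_
    intro x hx
    have := X.inv_mem (Subgroup.commutator_mem_commutator hx hbB : ⁅x, b⁆ ∈ ⁅L, B⁆)
    rw [commutatorElement_def] at this
    convert this using 1
    group
  have hR : rho^[2 ^ (l + 1) * (2 ^ (l + 1) + f0) + g] L ≤ rho^[g] X := by
    rw [add_comm, Function.iterate_add_apply]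
    exact rhoIter_mono _ hW
  set R := rho^[2 ^ (l + 1) * (2 ^ (l + 1) + f0) + g] L with hRdef
  have hlast : cen (R : Set G) X1 X2 h12 = X1 := by
    have hn : Nrm P (cen (R : Set G) X1 X2 h12) := nrm_cen (hPL.rhoIter _) hP1 hP2
    have hle : X2 < cen (R : Set G) X1 X2 h12 := by
      refine lt_of_lt_of_le hM'1 fun y hy => ⟨hM'2 hy, fun x hx => hM'fix x (hR hx) y hy⟩
    rcases hirr _ hle.le cen_le hn with e | e
    · exact absurd e hle.ne'
    · exact e
  intro x hx y hy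
  rw [← hlast] at hy
  exact hy.2 x hx

end Pool.Agent.Helper12.TwoLen
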