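import Mathlib

/-!
MP_ecbc8a_al (S03471), helper12's plan.  Common definitions and the exact statements of the
independent packets.
-/

set_option autoImplicit false

open scoped commutatorElement

namespace Pool.Agent.Helper12.TwoLen

section defs

variable {G : Type*} [Group G]

/-- `x` is a 2-element. -/
def E2 (x : G) : Prop := ∃ k : ℕ, x ^ (2 ^ k : ℕ) = 1

/-- `x` is an element of odd order. -/
def EO (x : G) : Prop := ∃ m : ℕ, Odd m ∧ x ^ m = 1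

/-- all elements are 2-elements. -/
def Is2 (H : Subgroup G) : Prop := ∀ x ∈ H, E2 x

/-- all elements have odd order. -/
def IsO (H : Subgroup G) : Prop := ∀ x ∈ H, EO x

/-- the subgroup generated by the 2-elements of `H`. -/
def tau (H : Subgroup G) : Subgroup G := Subgroup.closure {x | x ∈ H ∧ E2 x}

/-- the subgroup generated by the elements of odd order of `H`. -/
def opi (H : Subgroup G) : Subgroup G := Subgroup.closure {x | x ∈ H ∧ EO x}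

/-- `rho = tau ∘ opi`. -/
def rho (H : Subgroup G) : Subgroup G := tau (opi H)

/-- `A` normalises `H`. -/
def Nrm (A H : Subgroup G) : Prop := ∀ a ∈ A, ∀ h ∈ H, a * h * a⁻¹ ∈ H

/-- `A` acts well on `N`: any two `A`-invariant 2-subgroups of `N` generate a 2-group. -/
def Good (A N : Subgroup G) : Prop :=
  ∀ P Q : Subgroup G, P ≤ N → Q ≤ N → Is2 P → Is2 Q → Nrm A P → Nrm A Q → Is2 (P ⊔ Q)

end defs

/-- Every finitely generated subgroup is finite. -/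
def LocFin (G : Type*) [Group G] : Prop := ∀ H : Subgroup G, H.FG → Finite H

/-- Each countable subgroup `H` has a finite 2-subgroup `A` such that any two 2-subgroups of `H`
containing `A` generate a 2-group. -/
def Sparse (K : Type*) [Group K] : Prop :=
  ∀ H : Subgroup K, Countable H → ∃ A : Subgroup K, A ≤ H ∧ Finite A ∧ Is2 A ∧
    ∀ P Q : Subgroup K, P ≤ H → Q ≤ H → Is2 P → Is2 Q → A ≤ P → A ≤ Q → Is2 (P ⊔ Q)

/-! ### Packet statements: finite part -/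

/-- Lemma G. -/
def LemG : Prop :=
  ∀ (X : Type) [Group X] (d : ℕ) (S : Set X), Subgroup.closure S = ⊤ →
    derivedSeries X (d + 3) = ⊥ → derivedSeries X (d + 2) ≠ ⊥ →
    (∃ B : Subgroup X, B.Normal ∧ (∀ x ∈ B, ∀ y ∈ B, x * y = y * x) ∧
        ∃ β ∈ B, ∃ σ ∈ S, ⁅β, σ⁆ ≠ 1) ∨
    (∃ γ γ' : X, ∃ σ ∈ S, ⁅⁅γ, σ⁆, γ'⁆ ≠ 1 ∧ ⁅⁅γ, σ⁆, γ'⁆ ∈ Subgroup.center X)

/-- Lemma 0: solvable transitive permutation groups generated by elements moving few points have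
bounded derived length. -/
def Lem0 : Prop :=
  ∀ k : ℕ, ∃ d : ℕ, ∀ (X I : Type) [Group X] [Finite X] [Group.IsSolvable X] [Finite I]
    (φ : X →* Equiv.Perm I) (S : Set X), Subgroup.closure S = ⊤ →
    (∀ i j : I, ∃ x : X, φ x i = j) →
    (∀ σ ∈ S, {i : I | φ σ i ≠ i}.ncard ≤ k) →
    ∀ x ∈ derivedSeries X d, φ x = 1

/-- Lemma 1: irreducible solvable linear groups generated by elements with large fixed spaces have
bounded derived length. -/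
def Lem1 : Prop :=
  ∀ k : ℕ, ∃ d : ℕ, ∀ (X M : Type) [Group X] [Finite X] [Group.IsSolvable X] [CommGroup M] [Finite M]
    (φ : X →* MulAut M) (S : Set X), Subgroup.closure S = ⊤ →
    (∀ U : Subgroup M, (∀ x : X, ∀ u ∈ U, φ x u ∈ U) → U = ⊥ ∨ U = ⊤) →
    (∀ σ ∈ S, ∃ T : Subgroup M, (∀ t ∈ T, φ σ t = t) ∧ T.index ≤ k) →
    ∀ x ∈ derivedSeries X d, φ x = 1

/-- Lemma S: the symplectic-type fixed point lemma. -/
def LemS : Prop :=
  ∀ l : ℕ, ∃ c : ℕ, ∀ (V : Type) [CommGroup V] [Finite V] [Nontrivial V]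
    (Γ Z D : Subgroup (MulAut V)) (z₀ s : MulAut V),
    Odd (Nat.card V) → Nat.card D ≤ 2 ^ l → Nrm D Γ → Nrm D Z → Z ≤ Γ →
    (∀ z ∈ Z, ∀ g ∈ Γ, z * g = g * z) →
    (∀ g ∈ Γ, g * g ∈ Z) →
    (s ∈ Γ ∧ ∀ v : V, s v = v⁻¹) →
    (∀ g ∈ Γ, ∀ h ∈ Γ, g * h = h * g ∨ g * h = s * (h * g)) →
    (∀ z ∈ Z, ∃ y ∈ Z, z = y * y ∨ z = z₀ * (y * y)) →
    (∀ b ∈ D, b ≠ 1 → ∀ T : Subgroup (MulAut V), T ≤ Γ →
      (∀ g ∈ T, ∀ h ∈ Γ, (b * g * b⁻¹ * g⁻¹) * h = h * (b * g * b⁻¹ * g⁻¹)) →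
      c < T.relIndex Γ) →
    ∃ v : V, v ≠ 1 ∧ ∀ δ ∈ D, δ v = v

/-- Reduction from 2-soluble to soluble groups.  (`∃ m, rho^[m] ⊤ = ⊥` is 2-solubility.) -/
def Red10 : Prop :=
  ∀ (X : Type) [Group X] [Finite X], (∃ m : ℕ, rho^[m] (⊤ : Subgroup X) = ⊥) →
    ∀ n : ℕ, rho^[n] (tau (⊤ : Subgroup X)) ≠ ⊥ →
    ∃ X₀ : Subgroup X, Group.IsSolvable X₀ ∧ Odd X₀.index ∧ rho^[n] (tau X₀) ≠ ⊥

/-! ### Packet statements: infinite part -/

/-- Fewer than continuum Sylow 2-subgroups gives a finite good 2-subgroup. -/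
def ExistsGood : Prop :=
  ∀ (H : Type) [Group H], LocFin H → Cardinal.mk (Sylow 2 H) < Cardinal.continuum →
    ∃ A : Subgroup H, Finite A ∧ Is2 A ∧
      ∀ P Q : Subgroup H, Is2 P → Is2 Q → A ≤ P → A ≤ Q → Is2 (P ⊔ Q)

/-- No infinite elementary abelian 2-group acts faithfully on a `2'`-group inside a sparse group. -/
def Star : Prop :=
  ∀ (K : Type) [Group K], LocFin K → Sparse K → ∀ (E U : Subgroup K),
    (∀ x ∈ E, x * x = 1) → IsO U → Nrm E U →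
    (∀ e ∈ E, (∀ u ∈ U, e * u = u * e) → e = 1) → Finite E

/-- Structure of locally finite 2-groups without infinite elementary abelian subgroups. -/
def Cern : Prop :=
  ∀ (P : Type) [Group P], LocFin P → (∀ x : P, E2 x) →
    (∀ E : Subgroup P, (∀ x ∈ E, x * x = 1) → Finite E) →
    (∃ D : Subgroup P, D.Normal ∧ D.FiniteIndex ∧ (∀ x ∈ D, ∀ y ∈ D, x * y = y * x) ∧
      (∀ x ∈ D, ∃ y ∈ D, y * y = x) ∧ {x : P | x ∈ D ∧ x * x = 1}.Finite) ∧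
    (∀ H : ℕ → Subgroup P, Antitone H → ∃ N : ℕ, ∀ n ≥ N, H n = H N)

/-- Finite index of `O_2` when it is self-centralising and has no infinite elementary abelian
subgroup. -/
def FinIdx : Prop :=
  ∀ (M : Type) [Group M], LocFin M → ∀ P : Subgroup M, P.Normal → Is2 P →
    (∀ Q : Subgroup M, Q.Normal → Is2 Q → Q ≤ P) →
    (∀ x : M, (∀ p ∈ P, x * p = p * x) → x ∈ P) →
    (∀ E : Subgroup M, E ≤ P → (∀ x ∈ E, x * x = 1) → Finite E) → P.FiniteIndex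

/-- Hall-Higman, first form: `C(O_2) ≤ O_2` if `O_{2'} = 1`. -/
def HHa : Prop :=
  ∀ (M : Type) [Group M], LocFin M → (∃ m : ℕ, rho^[m] (⊤ : Subgroup M) = ⊥) →
    ∀ P : Subgroup M, P.Normal → Is2 P → (∀ Q : Subgroup M, Q.Normal → Is2 Q → Q ≤ P) →
    (∀ Q : Subgroup M, Q.Normal → IsO Q → Q = ⊥) →
    ∀ x : M, (∀ p ∈ P, x * p = p * x) → x ∈ P

/-- Hall-Higman, second form: `C(O_{2'}) ≤ O_{2'}` if `O_2 = 1`. -/
def HHb : Prop :=
  ∀ (M : Type) [Group M], LocFin M → (∃ m : ℕ, rho^[m] (⊤ : Subgroup M) = ⊥) →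
    ∀ P : Subgroup M, P.Normal → IsO P → (∀ Q : Subgroup M, Q.Normal → IsO Q → Q ≤ P) →
    (∀ Q : Subgroup M, Q.Normal → Is2 Q → Q = ⊥) →
    ∀ x : M, (∀ p ∈ P, x * p = p * x) → x ∈ P

/-- The finite bound: if a 2-subgroup of order at most `2 ^ l` of a finite 2-soluble group lies in
a unique Sylow 2-subgroup, the 2-length is bounded. -/
def Bound : Prop :=
  ∀ l : ℕ, ∃ n : ℕ, ∀ (X : Type) [Group X] [Finite X], (∃ m : ℕ, rho^[m] (⊤ : Subgroup X) = ⊥) →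
    ∀ A : Subgroup X, Is2 A → Nat.card A ≤ 2 ^ l →
    (∀ P Q : Subgroup X, Is2 P → Is2 Q → A ≤ P → A ≤ Q → Is2 (P ⊔ Q)) →
    rho^[n] (tau (⊤ : Subgroup X)) = ⊥

/-- The frozen statement S03471. -/
def Main : Prop :=
  ∀ (G : Type) [Group G],
    (∀ H : Subgroup G, H.FG → Finite H) →
    (∀ K : Subgroup G, K.FG → ∃ n : ℕ, ∃ S : ℕ → Subgroup G, S 0 = ⊥ ∧ S n = K ∧
        ∀ i < n, S i ≤ S (i + 1) ∧ ((S i).subgroupOf (S (i + 1))).Normal ∧
          ((∀ x ∈ S (i + 1), ∃ k : ℕ, x ^ (2 ^ k : ℕ) ∈ S i) ∨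
           (∀ x ∈ S (i + 1), ∃ m : ℕ, Odd m ∧ x ^ m ∈ S i))) →
    (∃ K : Subgroup G, K.FiniteIndex ∧
        ∀ H : Subgroup G, H ≤ K → Countable H →
          Cardinal.mk (Sylow 2 H) < Cardinal.continuum) →
    (∃ A B C : Subgroup G, A.Normal ∧ B.Normal ∧ C.Normal ∧ A ≤ B ∧ B ≤ C ∧
        C.FiniteIndex ∧ IsPGroup 2 A ∧
        (∀ x ∈ B, ∃ m : ℕ, Odd m ∧ x ^ m ∈ A) ∧
        (∀ x ∈ C, ∃ k : ℕ, x ^ (2 ^ k : ℕ) ∈ B)) ∧
    (∀ H : ℕ → Subgroup G, Antitone H →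
        (∀ n, IsPGroup 2 (H n) ∧ sSup {N : Subgroup G | N.Normal ∧ IsPGroup 2 N} ≤ H n) →
        ∃ N : ℕ, ∀ n ≥ N, H n = H N)

end Pool.Agent.Helper12.TwoLen
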