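import Pool.Agent.Helper12.ThmA

/-!
Statements for the last packets.
-/

set_option autoImplicit false

namespace Pool.Agent.Helper12.TwoLen

/-- Theorem B'. -/
def ThmB : Prop :=
  ∀ l f0 : ℕ, PAct l f0 → ∃ m1 : ℕ, ∀ (V : Type) [CommGroup V] [Finite V]
    (N A : Subgroup (MulAut V)) [Group.IsSolvable N], Odd (Nat.card V) → Is2 A →
    Nat.card A ≤ 2 ^ (l + 1) → Nrm A N → Good A N →
    (∀ U : Subgroup V, (∀ g ∈ N ⊔ A, ∀ u ∈ U, g u ∈ U) → U = ⊥ ∨ U = ⊤) →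
    (∀ v : V, (∀ a ∈ A, a v = v) → v = 1) →
    ∀ i : ℕ, m1 < i → Is2 (rho^[i] N) → rho^[i] N = ⊥

/-- Theorem F. -/
def ThmF : Prop := ∀ l : ℕ, ∃ f : ℕ, PAct l f

end Pool.Agent.Helper12.TwoLen
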