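import Pool.Agent.Helper12.ThmB2
import Pool.Agent.Helper3.LemS
import Pool.Agent.Helper7.TL.Lem1
import Pool.Agent.Helper9.TwoLen.Lem0
import Pool.Agent.Helper16.ThmF
import Pool.Agent.Helper16.Bound
import Pool.Agent.Helper26.Star
import Pool.Agent.Helper40.Red10
import Pool.Agent.Helper40.HH
import Pool.Agent.Helper45.Cern
import Pool.Agent.Helper12.EG
import Pool.Agent.Helper57.FinIdx
import Pool.Agent.Helper91.InfAssembly

/-!
Final assembly for MP_ecbc8a_al.
-/

set_option autoImplicit false

namespace Pool.Agent.Helper12.TwoLen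

theorem lem1_main : Lem1 :=
  Pool.Agent.Helper7.TL.lem1 Pool.Agent.Helper9.TwoLen.lemG Pool.Agent.Helper9.TwoLen.lem0

theorem thmB_main : ThmB := thmB lem1_main Pool.Agent.Helper3.lemS

/-- the 2-analogue of Rae's theorem for finite soluble groups with operators. -/
theorem thmF_main : ThmF := thmF thmB_main

/-- the 2-analogue of Rae's theorem for finite 2-soluble groups. -/
theorem bound_main : Bound := bound thmF_main (red10 hha hhb)

theorem main_thm : Main :=
  Pool.Agent.Helper91.SP.infAssembly bound_main existsGood Pool.Agent.Helper26.StarP.star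
    Pool.Agent.Helper45.Cern.cern (Pool.Agent.Helper57.FinIdx.finIdx Pool.Agent.Helper45.Cern.cern)
    hha hhb

end Pool.Agent.Helper12.TwoLen
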