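import Pool.Agent.Helper12.Defs2

/-!
Fixed subgroups of commuting families of automorphisms of an abelian group of odd order.
-/

set_option autoImplicit false

open scoped commutatorElement Pointwise

namespace Pool.Agent.Helper12.TwoLen

section FV

variable {V : Type} [CommGroup V]

/-- fixed vectors of `S` -/
def FV (S : Subgroup (MulAut V)) : Subgroup V where
  carrier := {v | ∀ g ∈ S, g v = v}
  one_mem' := by intro g _; simp
  mul_mem' := by intro a b ha hb g hg; rw [map_mul, ha g hg, hb g hg]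
  inv_mem' := by intro a ha g hg; rw [map_inv, ha g hg]

theorem mem_FV {S : Subgroup (MulAut V)} {v : V} : v ∈ FV S ↔ ∀ g ∈ S, g v = v := Iff.rfl

theorem FV_anti {S T : Subgroup (MulAut V)} (h : S ≤ T) : FV T ≤ FV S :=
  fun _ hv g hg => hv g (h hg)

theorem FV_bot : FV (⊥ : Subgroup (MulAut V)) = ⊤ := by
  rw [eq_top_iff]
  intro v _ g hg
  rw [Subgroup.mem_bot] at hg
  subst hg; rfl

theorem FV_cK {S : Subgroup (MulAut V)} {g : MulAut V} {v : V} (hv : v ∈ FV S) :
    g v ∈ FV (cK g S) := by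
  intro x hx
  rw [mem_cK] at hx
  have := hv _ hx
  have e : x (g v) = g ((g⁻¹ * x * g) v) := by
    simp only [MulAut.mul_apply, MulAut.apply_inv_self]
  rw [e, this]

theorem FV_cK_iff {S : Subgroup (MulAut V)} {g : MulAut V} {v : V} :
    v ∈ FV (cK g S) ↔ g⁻¹ v ∈ FV S := by
  constructor
  · intro hv
    have := FV_cK (g := g⁻¹) hv
    rwa [← cK_mul, inv_mul_cancel, cK_one] at this
  · intro hv
    have := FV_cK (g := g) hv
    rwa [MulAut.apply_inv_self] at this

/-- `B` is maximal in `Z` among subgroups with a non-trivial fixed vector -/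
def IsMaxF (Z B : Subgroup (MulAut V)) : Prop :=
  B ≤ Z ∧ FV B ≠ ⊥ ∧ ∀ z ∈ Z, z ∉ B → ∀ v ∈ FV B, z v = v → v = 1

theorem exists_isMaxF [Finite V] (hV : Nontrivial V) (Z : Subgroup (MulAut V)) :
    ∃ B, IsMaxF Z B := by
  obtain ⟨B, ⟨hB1, hB2⟩, hBm⟩ := exists_max (fun B : Subgroup (MulAut V) => B ≤ Z ∧ FV B ≠ ⊥)
    ⟨⊥, bot_le, by rw [FV_bot]; exact top_ne_bot⟩
  refine ⟨B, hB1, hB2, fun z hz hzB v hv hzv => ?_⟩
  by_contra hv1
  have h1 : FV (B ⊔ Subgroup.zpowers z) ≠ ⊥ := by
    intro e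
    apply hv1
    rw [← Subgroup.mem_bot, ← e]
    intro g hg
    have : B ⊔ Subgroup.zpowers z ≤ MulAction.stabilizer (MulAut V) v := by
      refine sup_le (fun g hg => hv g hg) ?_
      rw [Subgroup.zpowers_le]
      exact hzv
    exact this hg
  have h2 := hBm _ ⟨sup_le hB1 (by rw [Subgroup.zpowers_le]; exact hz), h1⟩ le_sup_left
  apply hzB
  rw [← h2]
  exact Subgroup.mem_sup_right (Subgroup.mem_zpowers z)

theorem IsMaxF.cK {Z B : Subgroup (MulAut V)} (h : IsMaxF Z B) {g : MulAut V}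
    (hg : ∀ x ∈ Z, g * x * g⁻¹ ∈ Z) (hg' : ∀ x ∈ Z, g⁻¹ * x * g ∈ Z) : IsMaxF Z (cK g B) := by
  refine ⟨?_, ?_, ?_⟩
  · rintro _ ⟨x, hx, rfl⟩
    exact hg x (h.1 hx)
  · intro e
    apply h.2.1
    rw [eq_bot_iff]
    intro v hv
    have := FV_cK (g := g) hv
    rw [e, Subgroup.mem_bot] at this
    rw [Subgroup.mem_bot]
    exact (map_eq_one_iff g g.injective).1 this
  · intro z hz hzB v hv hzv
    rw [FV_cK_iff] at hv
    rw [mem_cK] at hzB
    have h1 := h.2.2 _ (hg' z hz) hzB (g⁻¹ v) hv (by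
      rw [MulAut.mul_apply, MulAut.mul_apply, MulAut.apply_inv_self, hzv])
    exact (map_eq_one_iff g⁻¹ (g⁻¹).injective).1 h1

theorem IsMaxF.exists_notMem {Z B B' : Subgroup (MulAut V)} (h : IsMaxF Z B) (h' : IsMaxF Z B')
    (hne : B ≠ B') : ∃ z ∈ B', z ∉ B := by
  by_contra hcon
  push Not at hcon
  -- B' ≤ B, so B' = B
  have hle : B' ≤ B := hcon
  have hlt : ¬ B ≤ B' := fun h2 => hne (le_antisymm h2 hle)
  obtain ⟨z, hz, hzB⟩ := SetLike.not_le_iff_exists.1 hlt
  apply h.2.1
  rw [eq_bot_iff]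
  intro v hv
  rw [Subgroup.mem_bot]
  exact h'.2.2 z (h.1 hz) hzB v (FV_anti hle hv) (hv z hz)

/-- independence of the fixed subgroups -/
theorem indep {Z : Subgroup (MulAut V)} (hZ : ∀ x ∈ Z, ∀ y ∈ Z, x * y = y * x)
    (s : Finset (Subgroup (MulAut V))) : (∀ B ∈ s, IsMaxF Z B) →
    ∀ v : Subgroup (MulAut V) → V, (∀ B ∈ s, v B ∈ FV B) → ∏ B ∈ s, v B = 1 →
    ∀ B ∈ s, v B = 1 := by
  classical
  induction s using Finset.induction_on with
  | empty => intro _ v _ _ B hB; simp at hB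
  | insert C s hC ih =>
    intro hmax v hv hprod
    have hmax' : ∀ B ∈ s, IsMaxF Z B := fun B hB => hmax B (Finset.mem_insert_of_mem hB)
    have hmaxC := hmax C (Finset.mem_insert_self C s)
    have hvC := hv C (Finset.mem_insert_self C s)
    rw [Finset.prod_insert hC] at hprod
    have hs : ∀ B ∈ s, v B = 1 := by
      intro B hB
      have hne : B ≠ C := fun e => hC (e ▸ hB)
      obtain ⟨z, hz, hzB⟩ := (hmax' B hB).exists_notMem hmaxC hne
      have hzZ := hmaxC.1 hz
      have h1 := ih hmax' (fun K => z (v K) * (v K)⁻¹) (by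
        intro K hK
        refine Subgroup.mul_mem _ ?_ (Subgroup.inv_mem _ (hv K (Finset.mem_insert_of_mem hK)))
        intro g hg
        have hgZ := (hmax' K hK).1 hg
        have e : g (z (v K)) = z (g (v K)) := by
          rw [← MulAut.mul_apply, ← MulAut.mul_apply, hZ g hgZ z hzZ]
        rw [e, hv K (Finset.mem_insert_of_mem hK) g hg]) (by
        rw [Finset.prod_mul_distrib, ← map_prod, Finset.prod_inv_distrib]
        have e1 : ∏ B ∈ s, v B = (v C)⁻¹ := (inv_eq_of_mul_eq_one_right hprod).symm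
        rw [e1, map_inv, hvC z hz]
        simp) B hB
      have h2 : z (v B) = v B := by
        have := mul_inv_eq_one.1 h1
        exact this
      exact (hmax' B hB).2.2 z hzZ hzB _ (hv B (Finset.mem_insert_of_mem hB)) h2
    intro B hB
    rcases Finset.mem_insert.1 hB with rfl | hB
    · rw [Finset.prod_eq_one hs, mul_one] at hprod
      exact hprod
    · exact hs B hB

theorem eq_one_of_pow_two_pow [Finite V] (hodd : Odd (Nat.card V)) {v : V} {k : ℕ}
    (h : v ^ (2 ^ k : ℕ) = 1) : v = 1 :=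
  eq_one_of_E2_EO ⟨k, h⟩ ⟨Nat.card V, hodd, pow_card_eq_one'⟩

/-- a vector of `FV B` fixed by the normaliser of `B` in `A` is trivial -/
theorem stab_trivial [Finite V] {Z A : Subgroup (MulAut V)} (hZ : ∀ x ∈ Z, ∀ y ∈ Z, x * y = y * x)
    (hAZ : Nrm A Z) (hodd : Odd (Nat.card V)) (hA : Is2 A)
    (hCA : ∀ v : V, (∀ a ∈ A, a v = v) → v = 1) {B : Subgroup (MulAut V)} (hB : IsMaxF Z B)
    {v : V} (hv : v ∈ FV B) (hfix : ∀ a ∈ A, cK a B = B → a v = v) : v = 1 := by
  classical
  have := Fintype.ofFinite A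
  -- the norm
  have h1 : ∏ a : A, (a : MulAut V) v = 1 := by
    apply hCA
    intro b hb
    rw [map_prod]
    refine Fintype.prod_equiv (Equiv.mulLeft (⟨b, hb⟩ : A)) _ _ fun a => ?_
    simp [MulAut.mul_apply]
  set f : A → Subgroup (MulAut V) := fun a => cK (a : MulAut V) B with hf
  have h2 : ∏ C ∈ Finset.univ.image f, ∏ a : A with f a = C, (a : MulAut V) v = 1 := by
    rw [Finset.prod_fiberwise_of_maps_to (fun a _ => Finset.mem_image_of_mem f (Finset.mem_univ a))]
    exact h1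
  have h3 := indep hZ (Finset.univ.image f) (by
    intro C hC
    obtain ⟨a, -, rfl⟩ := Finset.mem_image.1 hC
    exact hB.cK (fun x hx => hAZ a a.2 x hx) (fun x hx => hAZ.inv a.2 hx))
    (fun C => ∏ a : A with f a = C, (a : MulAut V) v) (by
    intro C _
    refine Subgroup.prod_mem _ fun a ha => ?_
    rw [Finset.mem_filter] at ha
    rw [← ha.2]
    exact FV_cK hv) h2 B (Finset.mem_image.2 ⟨1, Finset.mem_univ _, by simp [hf, cK_one]⟩)
  have h4 : ∏ a : A with f a = B, (a : MulAut V) v = v ^ (Finset.univ.filter (fun a => f a = B)).card := by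
    rw [← Finset.prod_const]
    refine Finset.prod_congr rfl fun a ha => ?_
    rw [Finset.mem_filter] at ha
    exact hfix a a.2 ha.2
  let DA : Subgroup A :=
    { carrier := {a | cK (a : MulAut V) B = B}
      one_mem' := cK_one
      mul_mem' := by
        rintro x y hx hy
        change cK ((x * y : A) : MulAut V) B = B
        rw [Subgroup.coe_mul, cK_mul]
        rw [show cK (y : MulAut V) B = B from hy, show cK (x : MulAut V) B = B from hx]
      inv_mem' := by
        rintro x hx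
        change cK ((x⁻¹ : A) : MulAut V) B = B
        conv_lhs => rw [← (show cK (x : MulAut V) B = B from hx)]
        rw [← cK_mul]
        simp [cK_one] }
  have h5 : (Finset.univ.filter (fun a => f a = B)).card = Nat.card DA := by
    rw [Nat.card_eq_fintype_card, Fintype.card_subtype]
    rfl
  have : Fact (Nat.Prime 2) := ⟨Nat.prime_two⟩
  have h6 : IsPGroup 2 DA := (is2_iff_isPGroup.1 hA).to_subgroup DA
  obtain ⟨k, hk⟩ := IsPGroup.iff_card.1 h6
  rw [h4, h5, hk] at h3
  exact eq_one_of_pow_two_pow hodd h3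

/-- an automorphism trivial on all the `FV B` is trivial -/
theorem eq_one_of_max [Finite V] [Nontrivial V] {Z N A : Subgroup (MulAut V)}
    (hNZ : Nrm N Z) (hAZ : Nrm A Z)
    (hirr : ∀ U : Subgroup V, (∀ g ∈ N ⊔ A, ∀ u ∈ U, g u ∈ U) → U = ⊥ ∨ U = ⊤)
    {u : MulAut V} (hu : ∀ B, IsMaxF Z B → ∀ v ∈ FV B, u v = v) : u = 1 := by
  set U : Subgroup V := ⨆ B : {B // IsMaxF Z B}, FV B.1 with hU
  have hNA : Nrm (N ⊔ A) Z := hNZ.sup_left hAZ
  have h1 : ∀ g ∈ N ⊔ A, ∀ u ∈ U, g u ∈ U := by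
    intro g hg
    have : U ≤ U.comap g.toMonoidHom := by
      rw [hU]
      refine iSup_le fun B v hv => ?_
      have h2 := B.2.cK (g := g) (fun x hx => hNA g hg x hx) (fun x hx => hNA.inv hg hx)
      exact (le_iSup (fun B : {B // IsMaxF Z B} => FV B.1) ⟨_, h2⟩) (FV_cK hv)
    intro u hu
    exact this hu
  obtain ⟨B, hB⟩ := exists_isMaxF (V := V) inferInstance Z
  have h2 : U = ⊤ := by
    rcases hirr U h1 with h | h
    · exfalso
      apply hB.2.1
      rw [eq_bot_iff, ← h]
      exact le_iSup (fun B : {B // IsMaxF Z B} => FV B.1) ⟨B, hB⟩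
    · exact h
  have h3 : U ≤ FV (Subgroup.zpowers u) := by
    refine iSup_le fun B v hv => ?_
    intro g hg
    have : Subgroup.zpowers u ≤ MulAction.stabilizer (MulAut V) v := by
      rw [Subgroup.zpowers_le]
      exact hu B.1 B.2 v hv
    exact this hg
  ext v
  exact h3 (h2 ▸ Subgroup.mem_top v) u (Subgroup.mem_zpowers u)

end FV

end Pool.Agent.Helper12.TwoLen
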