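import Pool.Agent.Helper12.Basics

/-!
Invariant Sylow subgroups, good actions, sections.
-/

set_option autoImplicit false

open scoped commutatorElement Pointwise

namespace Pool.Agent.Helper12.TwoLen

section conj

variable {G : Type*} [Group G] {A H D I N : Subgroup G}

/-- conjugation action of `A` on `H` -/
def cj (h : Nrm A H) : A →* MulAut H where
  toFun a :=
    { toFun := fun x => ⟨a * x * (a : G)⁻¹, h a a.2 x x.2⟩
      invFun := fun x => ⟨(a : G)⁻¹ * x * a, h.inv a.2 x.2⟩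
      left_inv := fun x => by ext; simp [mul_assoc]
      right_inv := fun x => by ext; simp [mul_assoc]
      map_mul' := fun x y => by ext; simp [mul_assoc] }
  map_one' := by ext; simp
  map_mul' a b := by ext; simp [mul_assoc]

@[simp] theorem cj_coe (h : Nrm A H) (a : A) (x : H) : ((cj h a x : H) : G) = a * x * (a : G)⁻¹ := rfl

theorem exists_inv_sylow [Finite G] (hA : Is2 A) (h : Nrm A H) :
    ∃ T : Subgroup G, T ≤ H ∧ Is2 T ∧ Nrm A T ∧ Odd (T.relIndex H) := by
  classical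
  have : Fact (Nat.Prime 2) := ⟨Nat.prime_two⟩
  let _ : MulAction A (Sylow 2 H) := MulAction.compHom (Sylow 2 H) (cj h)
  have hA' : IsPGroup 2 A := is2_iff_isPGroup.1 hA
  obtain ⟨P, hP⟩ := hA'.nonempty_fixed_point_of_prime_not_dvd_card (Sylow 2 H)
    (not_dvd_card_sylow 2 H)
  refine ⟨(P : Subgroup H).map H.subtype, Subgroup.map_subtype_le _, ?_, ?_, ?_⟩
  · exact is2_iff_isPGroup.2 (P.isPGroup'.map _)
  · rintro a ha _ ⟨x, hx, rfl⟩
    have h1 := hP ⟨a, ha⟩
    have h2 : (cj h ⟨a, ha⟩) • (P : Subgroup H) = (P : Subgroup H) := by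
      have := congrArg (fun Q : Sylow 2 H => (Q : Subgroup H)) h1
      exact this
    have h3 : cj h ⟨a, ha⟩ x ∈ (P : Subgroup H) := by
      rw [← h2]
      exact Subgroup.smul_mem_pointwise_smul _ _ _ hx
    exact ⟨_, h3, rfl⟩
  · have h1 : ¬ 2 ∣ (P : Subgroup H).index := P.not_dvd_index
    rw [Subgroup.relIndex, Subgroup.subgroupOf, Subgroup.comap_map_eq_self_of_injective
      (Subgroup.subtype_injective H)]
    exact Nat.not_even_iff_odd.1 fun he => h1 he.two_dvd

/-- `H / D` is a 2-group. -/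
def Is2M (D H : Subgroup G) : Prop := ∀ x ∈ H, ∃ k : ℕ, x ^ (2 ^ k : ℕ) ∈ D

theorem Is2M.mono {H' : Subgroup G} (h : H' ≤ H) (hH : Is2M D H) : Is2M D H' :=
  fun x hx => hH x (h hx)

theorem Is2.is2M (h : Is2 H) : Is2M D H := fun x hx => by
  obtain ⟨k, hk⟩ := h x hx
  exact ⟨k, by rw [hk]; exact D.one_mem⟩

theorem Is2M.refl : Is2M D D := fun x hx => ⟨0, by simpa using hx⟩

theorem is2_of_is2M_bot (h : Is2M ⊥ H) : Is2 H := fun x hx => by
  obtain ⟨k, hk⟩ := h x hx
  exact ⟨k, by simpa using hk⟩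

theorem Is2M.sup_of_nrm {P Q : Subgroup G} (hP : Is2M D P) (hQ : Is2M D Q) (hDP : D ≤ P)
    (h : Nrm Q P) : Is2M D (P ⊔ Q) := by
  intro x hx
  obtain ⟨p, hp, q, hq, rfl⟩ := (mem_sup_nrm h).1 hx
  obtain ⟨k, hk⟩ := hQ q hq
  obtain ⟨p', hp', e⟩ := mul_pow_mem_nrm h hp hq (2 ^ k)
  obtain ⟨j, hj⟩ := hP _ (P.mul_mem hp' (hDP hk))
  exact ⟨k + j, by rw [pow_add, pow_mul, e]; exact hj⟩

/-- relative index of a subgroup between `D` and a group that is a 2-group mod `D`. -/
theorem relIndex_eq_two_pow [Finite G] {R P : Subgroup G} (hDR : D ≤ R)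
    (hPD : Nrm P D) (h : Is2M D P) : ∃ k : ℕ, R.relIndex P = 2 ^ k := by
  have : Fact (Nat.Prime 2) := ⟨Nat.prime_two⟩
  have hn : (D.subgroupOf P).Normal := ⟨fun x hx g => by
    rw [Subgroup.mem_subgroupOf] at hx ⊢
    exact hPD g g.2 x hx⟩
  have hp : IsPGroup 2 (P ⧸ D.subgroupOf P) := by
    intro y
    induction y using QuotientGroup.induction_on with
    | H y =>
      obtain ⟨k, hk⟩ := h y y.2
      refine ⟨k, ?_⟩
      rw [← QuotientGroup.mk_pow, QuotientGroup.eq_one_iff, Subgroup.mem_subgroupOf]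
      exact hk
  obtain ⟨k, hk⟩ := hp.index ((R.subgroupOf P).map (QuotientGroup.mk' (D.subgroupOf P)))
  refine ⟨k, ?_⟩
  rw [← hk, Subgroup.relIndex]
  symm
  apply Subgroup.index_map_eq
  · exact QuotientGroup.mk'_surjective _
  · rw [QuotientGroup.ker_mk']
    exact fun x hx => hDR hx

theorem sup_eq_of_odd_relIndex [Finite G] {P T : Subgroup G} (hTP : T ≤ P) (hDP : D ≤ P)
    (hPD : Nrm P D) (h : Is2M D P) (ho : Odd (T.relIndex P)) : D ⊔ T = P := by
  apply le_antisymm (sup_le hDP hTP)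
  obtain ⟨k, hk⟩ := relIndex_eq_two_pow (R := D ⊔ T) le_sup_left hPD h
  have h1 : (D ⊔ T).relIndex P ∣ T.relIndex P := Subgroup.relIndex_dvd_of_le_left P le_sup_right
  rw [hk] at h1
  have h2 : Odd (2 ^ k) := ho.of_dvd_nat h1
  have h3 : k = 0 := by
    by_contra h0
    rw [Nat.odd_pow_iff h0] at h2
    exact absurd h2 (by decide)
  rw [h3, pow_zero] at hk
  exact Subgroup.relIndex_eq_one.1 hk

/-- good action on the section `I / D`. -/
def GoodMod (A I D : Subgroup G) : Prop :=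
  ∀ P Q : Subgroup G, D ≤ P → D ≤ Q → P ≤ I → Q ≤ I → Is2M D P → Is2M D Q →
    Nrm A P → Nrm A Q → Is2M D (P ⊔ Q)

theorem Good.mod [Finite G] (hA : Is2 A) (hg : Good A N)
    (hDN : Nrm N D) : GoodMod A N D := by
  intro P Q hDP hDQ hPN hQN hP hQ hAP hAQ
  obtain ⟨T, hT, hT2, hAT, hTo⟩ := exists_inv_sylow hA hAP
  obtain ⟨S, hS, hS2, hAS, hSo⟩ := exists_inv_sylow hA hAQ
  have e1 := sup_eq_of_odd_relIndex hT hDP (hDN.mono hPN) hP hTo
  have e2 := sup_eq_of_odd_relIndex hS hDQ (hDN.mono hQN) hQ hSo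
  have h1 : Is2 (T ⊔ S) := hg T S (hT.trans hPN) (hS.trans hQN) hT2 hS2 hAT hAS
  have e3 : P ⊔ Q = D ⊔ (T ⊔ S) := by
    rw [← e1, ← e2]
    apply le_antisymm
    · exact sup_le (sup_le le_sup_left (le_sup_left.trans le_sup_right))
        (sup_le le_sup_left (le_sup_right.trans le_sup_right))
    · exact sup_le (le_sup_left.trans le_sup_left)
        (sup_le (le_sup_right.trans le_sup_left) (le_sup_right.trans le_sup_right))
  rw [e3]
  exact Is2M.refl.sup_of_nrm h1.is2M le_rfl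
    (hDN.mono (sup_le (hT.trans hPN) (hS.trans hQN)))

theorem Good.mono {N' : Subgroup G} (h : N' ≤ N) (hg : Good A N) : Good A N' :=
  fun P Q hP hQ => hg P Q (hP.trans h) (hQ.trans h)

theorem Good.map [Finite G] {G' : Type*} [Group G'] (hA : Is2 A) (hAN : Nrm A N) (hg : Good A N)
    (f : G →* G') : Good (A.map f) (N.map f) := by
  intro P Q hP hQ hP2 hQ2 hAP hAQ
  have hkerN : Nrm N (N ⊓ f.ker) := (Nrm.self N).inf_right Nrm.of_normal
  have hgm := hg.mod hA hkerN
  have hc : ∀ R : Subgroup G', Nrm (A.map f) R → Nrm A (N ⊓ R.comap f) := by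
    intro R hR
    refine hAN.inf_right fun a ha x hx => ?_
    rw [Subgroup.mem_comap] at hx ⊢
    have := hR (f a) ⟨a, ha, rfl⟩ (f x) hx
    simpa using this
  have h2 : ∀ R : Subgroup G', Is2 R → Is2M (N ⊓ f.ker) (N ⊓ R.comap f) := by
    intro R hR x hx
    obtain ⟨k, hk⟩ := hR (f x) hx.2
    exact ⟨k, N.pow_mem hx.1 _, MonoidHom.mem_ker.2 (by rw [map_pow, hk])⟩
  have hle : ∀ R : Subgroup G', N ⊓ f.ker ≤ N ⊓ R.comap f := fun R =>
    inf_le_inf le_rfl (fun x hx => by
      rw [Subgroup.mem_comap, (MonoidHom.mem_ker).1 hx]; exact R.one_mem)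
  have key := hgm _ _ (hle P) (hle Q) inf_le_left inf_le_left (h2 P hP2) (h2 Q hQ2) (hc P hAP)
    (hc Q hAQ)
  have hmap : ∀ R : Subgroup G', R ≤ N.map f → (N ⊓ R.comap f).map f = R := by
    intro R hR
    apply le_antisymm
    · rintro _ ⟨x, hx, rfl⟩
      exact hx.2
    · intro y hy
      obtain ⟨x, hx, rfl⟩ := hR hy
      exact ⟨x, ⟨hx, hy⟩, rfl⟩
  have e : P ⊔ Q = ((N ⊓ P.comap f) ⊔ (N ⊓ Q.comap f)).map f := by
    rw [Subgroup.map_sup, hmap P hP, hmap Q hQ]
  rw [e]
  rintro _ ⟨x, hx, rfl⟩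
  obtain ⟨k, hk⟩ := key x hx
  refine ⟨k, ?_⟩
  rw [← map_pow]
  exact hk.2

end conj

section secs

variable {G : Type*} [Group G] {A I D : Subgroup G}

theorem subgroupOf_normal (hID : Nrm I D) : (D.subgroupOf I).Normal :=
  ⟨fun x hx g => by
    rw [Subgroup.mem_subgroupOf] at hx ⊢
    exact hID g g.2 x hx⟩

/-- the conjugation action of `A` on the section `I / D`. -/
noncomputable def secHom [(D.subgroupOf I).Normal] (hAI : Nrm A I) (hAD : Nrm A D) :
    A →* MulAut (I ⧸ D.subgroupOf I) where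
  toFun a := QuotientGroup.congr (D.subgroupOf I) (D.subgroupOf I) (cj hAI a) (by
    ext x
    constructor
    · rintro ⟨y, hy, rfl⟩
      have hy' : (y : G) ∈ D := hy
      rw [Subgroup.mem_subgroupOf]
      exact hAD a a.2 y hy'
    · intro hx
      have hx' : (x : G) ∈ D := hx
      refine ⟨(cj hAI a).symm x, ?_, ?_⟩
      · change (((cj hAI a).symm x : I) : G) ∈ D
        exact hAD.inv a.2 hx'
      · exact (cj hAI a).apply_symm_apply x)
  map_one' := by
    ext x
    induction x using QuotientGroup.induction_on with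
    | H x => simp [QuotientGroup.congr_mk]
  map_mul' a b := by
    ext x
    induction x using QuotientGroup.induction_on with
    | H x => simp [QuotientGroup.congr_mk]

theorem secHom_mk [(D.subgroupOf I).Normal] (hAI : Nrm A I) (hAD : Nrm A D) (a : A) (x : I) :
    secHom hAI hAD a (QuotientGroup.mk x) = QuotientGroup.mk (cj hAI a x) := by
  simp [secHom, QuotientGroup.congr_mk]

end secs

end Pool.Agent.Helper12.TwoLen
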