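import Pool.Agent.Helper12.GoodAct

/-!
The induction hypothesis in action form, its version for sections, and Lemma W.
-/

set_option autoImplicit false

open scoped commutatorElement Pointwise

namespace Pool.Agent.Helper12.TwoLen

/-- Theorem F for groups of operators of order at most `2 ^ l`, with bound `f`. -/
def PAct (l f : ℕ) : Prop :=
  ∀ (M : Type) [Group M] [Finite M] [Group.IsSolvable M] (B : Subgroup (MulAut M)), Is2 B →
    Nat.card B ≤ 2 ^ l →
    (∀ P Q : Subgroup M, Is2 P → Is2 Q → (∀ β ∈ B, ∀ x ∈ P, β x ∈ P) →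
      (∀ β ∈ B, ∀ x ∈ Q, β x ∈ Q) → Is2 (P ⊔ Q)) →
    rho^[f] (⊤ : Subgroup M) = ⊥

section ih

variable {G : Type} [Group G] [Finite G] {A I D : Subgroup G}

theorem card_range_le {X Y : Type*} [Group X] [Group Y] [Finite X] (f : X →* Y) {l : ℕ}
    (hX : Nat.card X ≤ 2 ^ (l + 1)) {b : X} (hb : b ≠ 1) (hfb : f b = 1) :
    Nat.card f.range ≤ 2 ^ l := by
  have h1 : Nat.card f.ker * f.ker.index = Nat.card X := Subgroup.card_mul_index _
  rw [Subgroup.index_ker] at h1
  have h2 : 2 ≤ Nat.card f.ker := by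
    have : Nontrivial f.ker := ⟨⟨⟨b, hfb⟩, 1, fun h => hb (by simpa using congrArg Subtype.val h)⟩⟩
    exact Finite.one_lt_card
  have h3 : 2 * Nat.card f.range ≤ 2 * 2 ^ l := by
    calc 2 * Nat.card f.range ≤ Nat.card f.ker * Nat.card f.range := Nat.mul_le_mul_right _ h2
      _ = Nat.card X := h1
      _ ≤ 2 ^ (l + 1) := hX
      _ = 2 * 2 ^ l := by ring
  omega

theorem ihsec_aux {l f : ℕ} (h : PAct l f) (hA : Is2 A) (hAI : Nrm A I)
    (hAD : Nrm A D) (hDI : D ≤ I) (hg : GoodMod A I D) [Group.IsSolvable I]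
    [hn : (D.subgroupOf I).Normal]
    (hcard : Nat.card (secHom (I := I) (D := D) hAI hAD).range ≤ 2 ^ l) :
    rho^[f] I ≤ D := by
  set q : I →* I ⧸ D.subgroupOf I := QuotientGroup.mk' (D.subgroupOf I) with hq
  have h2B : Is2 (secHom (I := I) (D := D) hAI hAD).range := by
    rintro _ ⟨a, rfl⟩
    obtain ⟨k, hk⟩ := hA a a.2
    refine E2.map ?_ _
    exact ⟨k, by ext; simpa using hk⟩
  have hDker : ∀ (x : I), q x = 1 ↔ (x : G) ∈ D := by
    intro x
    rw [hq, QuotientGroup.mk'_apply, QuotientGroup.eq_one_iff, Subgroup.mem_subgroupOf]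
  have hgood : ∀ P Q : Subgroup (I ⧸ D.subgroupOf I), Is2 P → Is2 Q →
      (∀ β ∈ (secHom (I := I) (D := D) hAI hAD).range, ∀ x ∈ P, β x ∈ P) →
      (∀ β ∈ (secHom (I := I) (D := D) hAI hAD).range, ∀ x ∈ Q, β x ∈ Q) → Is2 (P ⊔ Q) := by
    intro P Q hP hQ hAP hAQ
    have hle : ∀ R : Subgroup (I ⧸ D.subgroupOf I), D ≤ (R.comap q).map I.subtype := by
      intro R x hx
      exact ⟨⟨x, hDI hx⟩, by
        change q _ ∈ R
        rw [(hDker ⟨x, hDI hx⟩).2 hx]; exact R.one_mem, rfl⟩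
    have h2M : ∀ R : Subgroup (I ⧸ D.subgroupOf I), Is2 R → Is2M D ((R.comap q).map I.subtype) := by
      rintro R hR _ ⟨y, hy, rfl⟩
      obtain ⟨k, hk⟩ := hR _ hy
      refine ⟨k, ?_⟩
      have : q (y ^ (2 ^ k : ℕ)) = 1 := by rw [map_pow]; exact hk
      rw [hDker] at this
      simpa using this
    have hnrm : ∀ R : Subgroup (I ⧸ D.subgroupOf I),
        (∀ β ∈ (secHom (I := I) (D := D) hAI hAD).range, ∀ x ∈ R, β x ∈ R) →
        Nrm A ((R.comap q).map I.subtype) := by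
      rintro R hR a ha _ ⟨y, hy, rfl⟩
      refine ⟨cj hAI ⟨a, ha⟩ y, ?_, rfl⟩
      change q _ ∈ R
      have := hR _ ⟨⟨a, ha⟩, rfl⟩ _ hy
      rw [hq, QuotientGroup.mk'_apply, secHom_mk] at this
      exact this
    have key := hg _ _ (hle P) (hle Q) (Subgroup.map_subtype_le _) (Subgroup.map_subtype_le _)
      (h2M P hP) (h2M Q hQ) (hnrm P hAP) (hnrm Q hAQ)
    intro y hy
    obtain ⟨x, rfl⟩ := QuotientGroup.mk'_surjective (D.subgroupOf I) y
    have hx : x ∈ P.comap q ⊔ Q.comap q := by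
      rw [Subgroup.comap_sup_eq q P Q (QuotientGroup.mk'_surjective _)]
      exact hy
    have hx' : (x : G) ∈ (P.comap q).map I.subtype ⊔ (Q.comap q).map I.subtype := by
      rw [← Subgroup.map_sup]
      exact ⟨x, hx, rfl⟩
    obtain ⟨k, hk⟩ := key _ hx'
    refine ⟨k, ?_⟩
    have : q (x ^ (2 ^ k : ℕ)) = 1 := by rw [hDker]; simpa using hk
    rw [map_pow] at this
    exact this
  have key := h (I ⧸ D.subgroupOf I) (secHom (I := I) (D := D) hAI hAD).range h2B hcard hgood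
  have h1 : (rho^[f] (⊤ : Subgroup I)).map q = ⊥ := by
    rw [map_rhoIter Tor.of_finite, ← MonoidHom.range_eq_map,
      MonoidHom.range_eq_top.2 (QuotientGroup.mk'_surjective _), key]
  have h2 : rho^[f] I = (rho^[f] (⊤ : Subgroup I)).map I.subtype := by
    rw [map_rhoIter_of_injective _ (Subgroup.subtype_injective I), ← MonoidHom.range_eq_map,
      Subgroup.range_subtype]
  rw [h2]
  rintro _ ⟨x, hx, rfl⟩
  have : q x ∈ (rho^[f] (⊤ : Subgroup I)).map q := ⟨x, hx, rfl⟩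
  rw [h1, Subgroup.mem_bot, hDker] at this
  exact this

theorem ihsec {l f : ℕ} (h : PAct l f) (hA : Is2 A) (hAI : Nrm A I)
    (hAD : Nrm A D) (hDI : D ≤ I) (hID : Nrm I D) (hg : GoodMod A I D) [Group.IsSolvable I]
    (hcard : Nat.card A ≤ 2 ^ (l + 1)) {b : G} (hb : b ∈ A) (hb1 : b ≠ 1)
    (hbt : ∀ x ∈ I, b * x * b⁻¹ * x⁻¹ ∈ D) :
    rho^[f] I ≤ D := by
  have hn : (D.subgroupOf I).Normal := subgroupOf_normal hID
  refine ihsec_aux h hA hAI hAD hDI hg ?_
  refine card_range_le _ hcard (b := ⟨b, hb⟩) (fun e => hb1 (by simpa using congrArg Subtype.val e)) ?_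
  ext y
  induction y using QuotientGroup.induction_on with
  | H y =>
    rw [secHom_mk]
    simp only [MulAut.one_apply]
    rw [QuotientGroup.eq_iff_div_mem, Subgroup.mem_subgroupOf]
    have := hbt y y.2
    simpa [div_eq_mul_inv] using this

end ih

section cK

variable {G : Type*} [Group G] {A L K P : Subgroup G} {a b x : G}

/-- the conjugate `a K a⁻¹` -/
def cK (a : G) (K : Subgroup G) : Subgroup G := K.map (MulAut.conj a).toMonoidHom

theorem mem_cK : x ∈ cK a K ↔ a⁻¹ * x * a ∈ K := by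
  constructor
  · rintro ⟨y, hy, rfl⟩
    simpa [mul_assoc] using hy
  · intro h
    exact ⟨_, h, by simp [mul_assoc]⟩

theorem cK_one : cK 1 K = K := by ext; simp [mem_cK]

theorem cK_mul : cK (a * b) K = cK a (cK b K) := by ext; simp [mem_cK, mul_assoc]

theorem cK_mono (h : K ≤ P) : cK a K ≤ cK a P := Subgroup.map_mono h

theorem cK_eq_of_mem (h : Nrm A K) (ha : a ∈ A) : cK a K = K := by
  ext x
  rw [mem_cK]
  have := h.iff (A.inv_mem ha) (x := x)
  simpa using this

theorem cK_le (h : Nrm A L) (hK : K ≤ L) (ha : a ∈ A) : cK a K ≤ L := by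
  rw [← cK_eq_of_mem h ha]
  exact cK_mono hK

theorem nrm_cK (hAL : Nrm A L) (h : Nrm L K) (ha : a ∈ A) : Nrm L (cK a K) := by
  intro y hy x hx
  rw [mem_cK] at hx ⊢
  have := h _ (hAL.inv ha hy) _ hx
  convert this using 1
  group

/-- pairwise normalising families of 2-groups mod `D` -/
theorem is2M_iSup {ι : Type*} [Finite ι] {D : Subgroup G} (i₀ : ι) (P : ι → Subgroup G)
    (hD : ∀ i, D ≤ P i) (h2 : ∀ i, Is2M D (P i)) (hn : ∀ i j, Nrm (P i) (P j)) :
    Is2M D (⨆ i, P i) := by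
  classical
  have := Fintype.ofFinite ι
  have key : ∀ s : Finset ι, Is2M D (P i₀ ⊔ ⨆ i ∈ s, P i) := by
    intro s
    induction s using Finset.induction_on with
    | empty => simpa using h2 i₀
    | insert i s _ ih =>
      have e : P i₀ ⊔ ⨆ j ∈ insert i s, P j = (P i₀ ⊔ ⨆ j ∈ s, P j) ⊔ P i := by
        rw [Finset.iSup_insert, sup_comm (P i), ← sup_assoc]
      rw [e]
      refine ih.sup_of_nrm (h2 i) ((hD i₀).trans le_sup_left) ?_
      exact (hn i i₀).sup_right (Nrm.iSup_right fun j => Nrm.iSup_right fun _ => hn i j)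
  refine (key Finset.univ).mono ?_
  simp

end cK

section lemW

variable {G : Type} [Group G] {A L K : Subgroup G} {b : G}

/-- the product of the conjugates -/
def KC (C : Finset G) (K : Subgroup G) : Subgroup G := ⨆ c ∈ C, cK c K

theorem KC_le (hAL : Nrm A L) (hK : K ≤ L) {C : Finset G} (hC : ∀ c ∈ C, c ∈ A) : KC C K ≤ L :=
  iSup₂_le fun c hc => cK_le hAL hK (hC c hc)

theorem nrm_KC (hAL : Nrm A L) (hK : Nrm L K) {C : Finset G} (hC : ∀ c ∈ C, c ∈ A) :
    Nrm L (KC C K) := by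
  refine Nrm.iSup_right fun c => Nrm.iSup_right fun hc => nrm_cK hAL hK (hC c hc)

theorem le_KC {C : Finset G} (hC : 1 ∈ C) : K ≤ KC C K := by
  have h : cK 1 K ≤ KC C K := le_iSup₂ (f := fun c (_ : c ∈ C) => cK c K) 1 hC
  rwa [cK_one] at h

theorem KC_union [DecidableEq G] {C C' : Finset G} : KC (C ∪ C') K = KC C K ⊔ KC C' K := by
  rw [KC, Finset.iSup_union]; rfl

theorem KC_image [DecidableEq G] {C : Finset G} (a : G) :
    KC (C.image (a * ·)) K = cK a (KC C K) := by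
  rw [KC, Finset.iSup_finset_image, KC, cK, Subgroup.map_iSup]
  refine iSup_congr fun c => ?_
  rw [Subgroup.map_iSup]
  refine iSup_congr fun _ => ?_
  exact cK_mul

theorem commutator_sup_le {H X Y : Subgroup G} (hLK : Nrm L K) (hLX : Nrm L X) (hLY : Nrm L Y)
    (hX : X ≤ L) (hY : Y ≤ L) (h1 : H ≤ K ⊔ X) (h2 : H ≤ K ⊔ Y) :
    ⁅H, H⁆ ≤ K ⊔ (X ⊓ Y) := by
  rw [Subgroup.commutator_le]
  intro x hx y hy
  obtain ⟨k, hk, x1, hx1, rfl⟩ := (mem_sup_nrm (hLK.mono hX)).1 (h1 hx)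
  obtain ⟨k', hk', y1, hy1, rfl⟩ := (mem_sup_nrm (hLK.mono hY)).1 (h2 hy)
  have hxL := hX hx1
  have hyL := hY hy1
  have hz : ⁅x1, y1⁆ ∈ X ⊓ Y := by
    constructor
    · have : ⁅x1, y1⁆ = x1 * (y1 * x1⁻¹ * y1⁻¹) := by rw [commutatorElement_def]; group
      rw [this]
      exact X.mul_mem hx1 (hLX y1 hyL _ (X.inv_mem hx1))
    · exact Y.mul_mem (hLY x1 hxL _ hy1) (Y.inv_mem hy1)
  have hzL : ⁅x1, y1⁆ ∈ L := hX hz.1
  have e : ⁅k * x1, k' * y1⁆ = (k * (x1 * k' * x1⁻¹) *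
      ((x1 * y1 * x1⁻¹) * k⁻¹ * (x1 * y1 * x1⁻¹)⁻¹) *
      (⁅x1, y1⁆ * k'⁻¹ * ⁅x1, y1⁆⁻¹)) * ⁅x1, y1⁆ := by
    simp only [commutatorElement_def]; group
  rw [e]
  refine Subgroup.mul_mem_sup ?_ hz
  refine K.mul_mem (K.mul_mem (K.mul_mem hk (hLK x1 hxL _ hk')) ?_) ?_
  · exact hLK _ (L.mul_mem (L.mul_mem hxL hyL) (L.inv_mem hxL)) _ (K.inv_mem hk)
  · exact hLK _ hzL _ (K.inv_mem hk')

theorem goodMod_inter [Finite G] {A1 I D K' : Subgroup G} (hA : Is2 A) (hAL : Nrm A L)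
    (hg : Good A L)
    (hLK : Nrm L K') (hA1 : ∀ a, a ∈ A1 ↔ a ∈ A ∧ cK a K' = K')
    (hI : ∀ x, x ∈ I ↔ x ∈ L ∧ ∀ a ∈ A, a ∉ A1 → x ∈ cK a K')
    (hD : ∀ x, x ∈ D ↔ x ∈ L ∧ ∀ a ∈ A, x ∈ cK a K') : GoodMod A1 I D := by
  have hA1A : A1 ≤ A := fun a ha => ((hA1 a).1 ha).1
  have hIL : I ≤ L := fun x hx => ((hI x).1 hx).1
  have hDA : Nrm A D := by
    intro a ha x hx
    rw [hD] at hx ⊢
    refine ⟨hAL a ha x hx.1, fun c hc => ?_⟩
    have := hx.2 (a⁻¹ * c) (A.mul_mem (A.inv_mem ha) hc)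
    rw [mem_cK] at this ⊢
    convert this using 1
    group
  have hLD : Nrm L D := by
    intro y hy x hx
    rw [hD] at hx ⊢
    exact ⟨L.mul_mem (L.mul_mem hy hx.1) (L.inv_mem hy),
      fun c hc => nrm_cK hAL hLK hc y hy x (hx.2 c hc)⟩
  have hgm : GoodMod A L D := hg.mod hA hLD
  have key : ∀ P : Subgroup G, D ≤ P → P ≤ I → Is2M D P → Nrm A1 P →
      D ≤ (⨆ a : A, cK (a : G) P) ∧ (⨆ a : A, cK (a : G) P) ≤ L ∧
      Is2M D (⨆ a : A, cK (a : G) P) ∧ Nrm A (⨆ a : A, cK (a : G) P) ∧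
      P ≤ (⨆ a : A, cK (a : G) P) := by
    intro P hDP hPI hP hAP
    have hPle : P ≤ ⨆ a : A, cK (a : G) P := by
      have : cK ((1 : A) : G) P ≤ ⨆ a : A, cK (a : G) P := le_iSup (fun a : A => cK (a : G) P) 1
      rwa [OneMemClass.coe_one, cK_one] at this
    refine ⟨hDP.trans hPle, iSup_le fun a => cK_le hAL (hPI.trans hIL) a.2, ?_, ?_, hPle⟩
    · -- is2M
      apply is2M_iSup (1 : A)
      · intro a x hx
        rw [mem_cK]
        exact hDP (hDA.inv a.2 hx)
      · rintro a x hx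
        rw [mem_cK] at hx
        obtain ⟨k, hk⟩ := hP _ hx
        refine ⟨k, ?_⟩
        have e : ((a : G)⁻¹ * x * a) ^ (2 ^ k : ℕ) = (a : G)⁻¹ * x ^ (2 ^ k : ℕ) * a := by
          have := (conj_pow (i := 2 ^ k) (a := (a : G)⁻¹) (b := x))
          simpa using this
        rw [e] at hk
        have := hDA a a.2 _ hk
        simpa [mul_assoc] using this
      · intro a' a
        by_cases hc : (a : G)⁻¹ * a' ∈ A1
        · have e : cK (a' : G) P = cK (a : G) P := by
            have : (a' : G) = a * ((a : G)⁻¹ * a') := by group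
            rw [this, cK_mul, cK_eq_of_mem hAP hc]
          rw [e]
          exact Nrm.self _
        · intro y hy x hx
          have hyI : ∀ c ∈ A, c ∉ A1 → y ∈ cK ((a' : G) * c) K' := by
            intro c hc hc1
            rw [cK_mul, mem_cK]
            rw [mem_cK] at hy
            exact ((hI _).1 (hPI hy)).2 c hc hc1
          have hxI : ∀ c ∈ A, c ∉ A1 → x ∈ cK ((a : G) * c) K' := by
            intro c hc hc1
            rw [cK_mul, mem_cK]
            rw [mem_cK] at hx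
            exact ((hI _).1 (hPI hx)).2 c hc hc1
          have hyL : y ∈ L := cK_le hAL (hPI.trans hIL) a'.2 hy
          have hxL : x ∈ L := cK_le hAL (hPI.trans hIL) a.2 hx
          have hcomm : y * x * y⁻¹ * x⁻¹ ∈ D := by
            rw [hD]
            refine ⟨L.mul_mem (L.mul_mem (L.mul_mem hyL hxL) (L.inv_mem hyL)) (L.inv_mem hxL), ?_⟩
            intro a'' ha''
            by_cases hc2 : (a : G)⁻¹ * a'' ∈ A1
            · have hc3 : (a' : G)⁻¹ * a'' ∉ A1 := by
                intro h3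
                apply hc
                have := A1.mul_mem hc2 (A1.inv_mem h3)
                convert this using 1
                group
              have hy' := hyI _ (A.mul_mem (A.inv_mem a'.2) ha'') hc3
              rw [show (a' : G) * ((a' : G)⁻¹ * a'') = a'' by group] at hy'
              have : y * x * y⁻¹ * x⁻¹ = y * (x * y⁻¹ * x⁻¹) := by group
              rw [this]
              exact Subgroup.mul_mem _ hy'
                (nrm_cK hAL hLK ha'' x hxL _ (Subgroup.inv_mem _ hy'))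
            · have hx' := hxI _ (A.mul_mem (A.inv_mem a.2) ha'') hc2
              rw [show (a : G) * ((a : G)⁻¹ * a'') = a'' by group] at hx'
              exact Subgroup.mul_mem _ (nrm_cK hAL hLK ha'' y hyL _ hx')
                (Subgroup.inv_mem _ hx')
          have e : y * x * y⁻¹ = (y * x * y⁻¹ * x⁻¹) * x := by group
          rw [e]
          refine Subgroup.mul_mem _ ?_ hx
          rw [mem_cK]
          exact hDP (hDA.inv a.2 hcomm)
    · -- A-invariance
      intro a ha x hx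
      have h1 : cK a (⨆ a : A, cK (a : G) P) ≤ ⨆ a : A, cK (a : G) P := by
        rw [cK, Subgroup.map_iSup]
        refine iSup_le fun c => ?_
        have h2 : Subgroup.map (MulAut.conj a).toMonoidHom (cK (c : G) P)
            = cK ((⟨a, ha⟩ * c : A) : G) P := by
          rw [Subgroup.coe_mul, cK_mul]; rfl
        rw [h2]
        exact le_iSup (fun a : A => cK (a : G) P) (⟨a, ha⟩ * c)
      apply h1
      rw [mem_cK]
      simpa [mul_assoc] using hx
  intro P Q hDP hDQ hPI hQI hP hQ hAP hAQ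
  obtain ⟨p1, p2, p3, p4, p5⟩ := key P hDP hPI hP hAP
  obtain ⟨q1, q2, q3, q4, q5⟩ := key Q hDQ hQI hQ hAQ
  exact (hgm _ _ p1 q1 p2 q2 p3 q3 p4 q4).mono (sup_le_sup p5 q5)

theorem lemW_step [Finite G] {l f0 g : ℕ} (h : PAct l f0) (hA : Is2 A) (hAL : Nrm A L)
    (hg : Good A L)
    [Group.IsSolvable L] (hcard : Nat.card A ≤ 2 ^ (l + 1)) (hb : b ∈ A) (hb1 : b ≠ 1)
    {K' : Subgroup G}
    (hKL : K' ≤ L) (hLK : Nrm L K') (hbt : ∀ x ∈ L, b * x * b⁻¹ * x⁻¹ ∈ K')
    (hstep : ∀ a ∈ A, cK a K' ≠ K' → rho^[g] L ≤ K' ⊔ cK a K') :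
    rho^[g + Nat.card A + f0] L ≤ K' := by
  classical
  -- the stabiliser
  let A1 : Subgroup G :=
    { carrier := {a | a ∈ A ∧ cK a K' = K'}
      one_mem' := ⟨A.one_mem, cK_one⟩
      mul_mem' := by
        rintro x y ⟨hx, hx'⟩ ⟨hy, hy'⟩
        exact ⟨A.mul_mem hx hy, by rw [cK_mul, hy', hx']⟩
      inv_mem' := by
        rintro x ⟨hx, hx'⟩
        refine ⟨A.inv_mem hx, ?_⟩
        conv_lhs => rw [← hx']
        rw [← cK_mul, inv_mul_cancel, cK_one] }
  have hA1 : ∀ a, a ∈ A1 ↔ a ∈ A ∧ cK a K' = K' := fun a => Iff.rfl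
  let I : Subgroup G := L ⊓ ⨅ a : {a // a ∈ A ∧ a ∉ A1}, cK (a : G) K'
  have hI : ∀ x, x ∈ I ↔ x ∈ L ∧ ∀ a ∈ A, a ∉ A1 → x ∈ cK a K' := by
    intro x
    simp only [I, Subgroup.mem_inf, Subgroup.mem_iInf, Subtype.forall]
    exact ⟨fun ⟨h1, h2⟩ => ⟨h1, fun a ha ha' => h2 a ⟨ha, ha'⟩⟩,
      fun ⟨h1, h2⟩ => ⟨h1, fun a ha => h2 a ha.1 ha.2⟩⟩
  let D : Subgroup G := L ⊓ ⨅ a : A, cK (a : G) K'
  have hD : ∀ x, x ∈ D ↔ x ∈ L ∧ ∀ a ∈ A, x ∈ cK a K' := by
    intro x
    simp only [D, Subgroup.mem_inf, Subgroup.mem_iInf, Subtype.forall]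
  have hA1A : A1 ≤ A := fun a ha => ha.1
  have hIL : I ≤ L := inf_le_left
  have hDI : D ≤ I := fun x hx => by
    rw [hI]; rw [hD] at hx
    exact ⟨hx.1, fun a ha _ => hx.2 a ha⟩
  have hDK : D ≤ K' := fun x hx => by
    have := ((hD x).1 hx).2 1 A.one_mem
    rwa [cK_one] at this
  have hIKD : ∀ x, x ∈ I → x ∈ K' → x ∈ D := by
    intro x hx hxK
    rw [hD]; rw [hI] at hx
    refine ⟨hx.1, fun a ha => ?_⟩
    by_cases h1 : a ∈ A1
    · rw [h1.2]; exact hxK
    · exact hx.2 a ha h1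
  have hLD : Nrm L D := by
    intro y hy x hx
    rw [hD] at hx ⊢
    exact ⟨L.mul_mem (L.mul_mem hy hx.1) (L.inv_mem hy),
      fun c hc => nrm_cK hAL hLK hc y hy x (hx.2 c hc)⟩
  have hA1I : Nrm A1 I := by
    intro a ha x hx
    rw [hI] at hx ⊢
    refine ⟨hAL a ha.1 x hx.1, fun c hc hc1 => ?_⟩
    have := hx.2 (a⁻¹ * c) (A.mul_mem (A.inv_mem ha.1) hc) (fun h3 => hc1 (by
      have := A1.mul_mem ha h3
      simpa using this))
    rw [mem_cK] at this ⊢
    convert this using 1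
    group
  have hA1D : Nrm A1 D := by
    intro a ha x hx
    rw [hD] at hx ⊢
    refine ⟨hAL a ha.1 x hx.1, fun c hc => ?_⟩
    have := hx.2 (a⁻¹ * c) (A.mul_mem (A.inv_mem ha.1) hc)
    rw [mem_cK] at this ⊢
    convert this using 1
    group
  have hbA1 : b ∈ A1 := by
    refine ⟨hb, ?_⟩
    have h1 : ∀ x ∈ K', b * x * b⁻¹ ∈ K' := by
      intro x hx
      have := K'.mul_mem (hbt x (hKL hx)) hx
      simpa using this
    have h2 : cK b K' ≤ K' := by
      rintro _ ⟨x, hx, rfl⟩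
      exact h1 x hx
    apply SetLike.coe_injective
    apply Set.eq_of_subset_of_ncard_le h2 _ (Set.toFinite _)
    exact (Set.ncard_image_of_injective (K' : Set G) (MulAut.conj b).injective).ge
  have hgm := goodMod_inter hA hAL hg hLK hA1 hI hD
  have hsolI : Group.IsSolvable I := by
    have : Function.Injective (Subgroup.inclusion hIL) := Subgroup.inclusion_injective hIL
    exact Group.isSolvable_of_isSolvable_injective this
  have hih : rho^[f0] I ≤ D := by
    refine ihsec h (hA.mono hA1A) hA1I hA1D hDI (hLD.mono hIL) hgm ?_ hbA1 hb1 ?_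
    · exact (Subgroup.card_le_of_le hA1A).trans hcard
    · intro x hx
      have hxb := hA1I b hbA1 x hx
      exact hIKD _ (I.mul_mem hxb (I.inv_mem hx)) (hbt x (hIL hx))
  -- the derived part
  have hder : ∀ S : Finset G, (∀ a ∈ S, a ∈ A ∧ a ∉ A1) →
      rho^[g + S.card] L ≤ K' ⊔ (L ⊓ ⨅ a ∈ S, cK a K') := by
    intro S
    induction S using Finset.induction_on with
    | empty =>
      intro _
      simp only [Finset.notMem_empty, iInf_false, iInf_top, inf_top_eq]
      exact (rhoIter_le _ _).trans le_sup_right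
    | insert a S haS ih =>
      intro hS
      have h1 := ih fun c hc => hS c (Finset.mem_insert_of_mem hc)
      have ha := hS a (Finset.mem_insert_self a S)
      have h2 : rho^[g + S.card] L ≤ K' ⊔ cK a K' :=
        (rhoIter_anti (Nat.le_add_right g S.card) L).trans
          (hstep a ha.1 fun e => ha.2 ⟨ha.1, e⟩)
      have hn : Nrm L (L ⊓ ⨅ a ∈ S, cK a K') := by
        refine (Nrm.self L).inf_right (Nrm.iInf_right fun c => Nrm.iInf_right fun hc => ?_)
        exact nrm_cK hAL hLK (hS c (Finset.mem_insert_of_mem hc)).1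
      rw [Finset.card_insert_of_notMem haS, ← add_assoc, Function.iterate_succ_apply']
      refine (rho_le_commutator _).trans ((commutator_sup_le hLK hn (nrm_cK hAL hLK ha.1)
        inf_le_left (cK_le hAL hKL ha.1) h1 h2).trans ?_)
      rw [Finset.iInf_insert]
      refine sup_le_sup le_rfl ?_
      exact le_inf (inf_le_left.trans inf_le_left)
        (le_inf inf_le_right (inf_le_left.trans inf_le_right))
  -- apply to all of A \ A1
  have hfin : {a : G | a ∈ A ∧ a ∉ A1}.Finite := Set.toFinite _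
  have h3 := hder hfin.toFinset (by simp)
  have hcardS : hfin.toFinset.card ≤ Nat.card A := by
    rw [← Set.ncard_eq_toFinset_card _ hfin, ← SetLike.coe_sort_coe, Nat.card_coe_set_eq]
    exact Set.ncard_le_ncard (fun a ha => ha.1) (Set.toFinite _)
  have h4 : rho^[g + Nat.card A] L ≤ K' ⊔ I := by
    refine (rhoIter_anti (Nat.add_le_add_left hcardS g) L).trans (h3.trans ?_)
    refine sup_le_sup le_rfl ?_
    intro x hx
    rw [hI]
    refine ⟨hx.1, fun a ha ha1 => ?_⟩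
    exact Subgroup.mem_iInf.1 (Subgroup.mem_iInf.1 hx.2 a) (by simp [ha, ha1])
  have h5 : rho^[g + Nat.card A + f0] L ≤ rho^[f0] (K' ⊔ I) := by
    rw [add_comm (g + Nat.card A) f0, Function.iterate_add_apply]
    exact rhoIter_mono _ h4
  refine h5.trans ((rhoIter_sup_le Tor.of_finite (hLK.mono hIL) f0).trans ?_)
  exact sup_le le_rfl (hih.trans hDK)

theorem lemW_aux [Finite G] {l f0 : ℕ} (h : PAct l f0) (hA : Is2 A) (hAL : Nrm A L)
    (hg : Good A L)
    [Group.IsSolvable L] (hcard : Nat.card A ≤ 2 ^ (l + 1)) (hb : b ∈ A) (hb1 : b ≠ 1)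
    (hKL : K ≤ L) (hLK : Nrm L K) (hbt : ∀ x ∈ L, b * x * b⁻¹ * x⁻¹ ∈ K) (j : ℕ) :
    ∀ C : Finset G, (∀ c ∈ C, c ∈ A) → 1 ∈ C → Nat.card A ≤ C.card + j →
      rho^[(j + 1) * (Nat.card A + f0)] L ≤ KC C K := by
  classical
  have hA' : (Set.toFinite (A : Set G)).toFinset.card = Nat.card A := by
    rw [← Set.ncard_eq_toFinset_card _, ← SetLike.coe_sort_coe, Nat.card_coe_set_eq]
  have hgrow : ∀ C : Finset G, (∀ c ∈ C, c ∈ A) → ∀ a ∈ A, cK a (KC C K) ≠ KC C K →
      C.card < (C ∪ C.image (a * ·)).card ∧ (C ∪ C.image (a * ·)).card ≤ Nat.card A ∧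
      (∀ c ∈ C ∪ C.image (a * ·), c ∈ A) := by
    intro C hC a ha hne
    have hsub : ∀ c ∈ C ∪ C.image (a * ·), c ∈ A := by
      intro c hc
      rcases Finset.mem_union.1 hc with hc | hc
      · exact hC c hc
      · obtain ⟨d, hd, rfl⟩ := Finset.mem_image.1 hc
        exact A.mul_mem ha (hC d hd)
    refine ⟨?_, ?_, hsub⟩
    · apply Finset.card_lt_card
      refine Finset.ssubset_iff_subset_ne.2 ⟨Finset.subset_union_left, fun e => hne ?_⟩
      have h1 : C.image (a * ·) ⊆ C := by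
        intro c hc
        rw [e]; exact Finset.mem_union_right _ hc
      have h2 : C.image (a * ·) = C := by
        apply Finset.eq_of_subset_of_card_le h1
        rw [Finset.card_image_of_injective _ (mul_right_injective a)]
      rw [← KC_image, h2]
    · rw [← hA']
      apply Finset.card_le_card
      intro c hc
      rw [Set.Finite.mem_toFinset]
      exact hsub c hc
  induction j with
  | zero =>
    intro C hC h1 hcd
    have := lemW_step (g := 0) h hA hAL hg hcard hb hb1 (K' := KC C K) (KC_le hAL hKL hC)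
      (nrm_KC hAL hLK hC) (fun x hx => le_KC h1 (hbt x hx)) (fun a ha hne => by
        obtain ⟨h3, h4, -⟩ := hgrow C hC a ha hne
        omega)
    convert this using 2
    ring_nf
  | succ j ih =>
    intro C hC h1 hcd
    have := lemW_step (g := (j + 1) * (Nat.card A + f0)) h hA hAL hg hcard hb hb1
      (K' := KC C K) (KC_le hAL hKL hC)
      (nrm_KC hAL hLK hC) (fun x hx => le_KC h1 (hbt x hx)) (fun a ha hne => by
        obtain ⟨h3, h4, h5⟩ := hgrow C hC a ha hne
        have := ih _ h5 (Finset.mem_union_left _ h1) (by omega)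
        rwa [KC_union, KC_image] at this)
    convert this using 2
    ring_nf

/-- **Lemma W.** -/
theorem lemW [Finite G] {l f0 : ℕ} (h : PAct l f0) (hA : Is2 A) (hAL : Nrm A L)
    (hg : Good A L)
    [Group.IsSolvable L] (hcard : Nat.card A ≤ 2 ^ (l + 1)) (hb : b ∈ A) (hb1 : b ≠ 1)
    (hKL : K ≤ L) (hLK : Nrm L K) (hbt : ∀ x ∈ L, b * x * b⁻¹ * x⁻¹ ∈ K) :
    rho^[2 ^ (l + 1) * (2 ^ (l + 1) + f0)] L ≤ K := by
  classical
  have hpos : 0 < Nat.card A := Nat.card_pos
  have h1 := lemW_aux h hA hAL hg hcard hb hb1 hKL hLK hbt (Nat.card A - 1) {1} (by simp)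
    (by simp) (by simp; omega)
  have h2 : KC {1} K = K := by simp [KC, cK_one]
  rw [h2] at h1
  refine (rhoIter_anti ?_ L).trans h1
  rw [Nat.sub_add_cancel hpos]
  exact Nat.mul_le_mul hcard (Nat.add_le_add_right hcard f0)

end lemW

end Pool.Agent.Helper12.TwoLen
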