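import Pool.Agent.Helper12.Cor1

/-!
Theorem A: fixed points on permutation domains.
-/

set_option autoImplicit false

open scoped commutatorElement Pointwise

namespace Pool.Agent.Helper12.TwoLen

section St

variable {G Ω : Type*} [Group G] [MulAction G Ω]

/-- setwise stabiliser in `A` of the `R`-orbit of `z` -/
def St (A R : Subgroup G) (h : Nrm A R) (z : Ω) : Subgroup G where
  carrier := {a | a ∈ A ∧ ∃ x ∈ R, a • z = x • z}
  one_mem' := ⟨A.one_mem, 1, R.one_mem, rfl⟩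
  mul_mem' := by
    rintro a b ⟨ha, x, hx, hxz⟩ ⟨hb, y, hy, hyz⟩
    refine ⟨A.mul_mem ha hb, (a * y * a⁻¹) * x, R.mul_mem (h a ha y hy) hx, ?_⟩
    rw [mul_smul, hyz, mul_smul, ← hxz, mul_smul, mul_smul, inv_smul_smul]
  inv_mem' := by
    rintro a ⟨ha, x, hx, hxz⟩
    refine ⟨A.inv_mem ha, a⁻¹ * x⁻¹ * a, h.inv ha (R.inv_mem hx), ?_⟩
    rw [mul_smul, hxz, mul_smul, inv_smul_smul]

theorem mem_St {A R : Subgroup G} {h : Nrm A R} {z : Ω} {a : G} :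
    a ∈ St A R h z ↔ a ∈ A ∧ ∃ x ∈ R, a • z = x • z := Iff.rfl

theorem St_le {A R : Subgroup G} {h : Nrm A R} {z : Ω} : St A R h z ≤ A := fun _ ha => ha.1

end St

section core

variable {G Ω : Type} [Group G] [Finite G] [MulAction G Ω]

/-- the last part of the proof: `L z = R' z`, with `R' = rho^[f5+1] L`. -/
theorem thmA_last {l f5 : ℕ}
    (hcor : ∀ (G : Type) [Group G]
    [Finite G] (A L P X1 X2 : Subgroup G) [Group.IsSolvable L] (b : G), Is2 A → Nrm A L →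
    Good A L → Nat.card A ≤ 2 ^ (l + 1) → L ≤ P → Nrm P L → Nrm P X1 → Nrm P X2 → X2 ≤ X1 →
    ⁅X1, X1⁆ ≤ X2 → (∀ U : Subgroup G, X2 ≤ U → U ≤ X1 → Nrm P U → U = X2 ∨ U = X1) →
    b ∈ A → b ∈ P → b ≠ 1 →
    (∃ T : Subgroup G, T ≤ X1 ∧ (∀ t ∈ T, b * t * b⁻¹ * t⁻¹ ∈ X2) ∧
      T.relIndex X1 ≤ 2 ^ (l + 1)) →
    ∀ x ∈ rho^[f5] L, ∀ y ∈ X1, x * y * x⁻¹ * y⁻¹ ∈ X2)
    {A L : Subgroup G} [Group.IsSolvable L] (hA : Is2 A) (hcard : Nat.card A ≤ 2 ^ (l + 1))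
    (hAL : Nrm A L) (hg : Good A L)
    (z : Ω) (hst : ∀ x ∈ L, ∃ b ∈ A, b ≠ 1 ∧ b • (x • z) = x • z)
    (hz : ∃ x ∈ L, x • z ≠ z)
    (htr : ∀ x ∈ L, ∃ y ∈ rho^[f5 + 1] L, x • z = y • z) : False := by
  classical
  -- the stabiliser of z
  set S : Subgroup G := MulAction.stabilizer G z with hS
  have hSmem : ∀ x : G, x ∈ S ↔ x • z = z := fun x => MulAction.mem_stabilizer_iff
  set AD : Subgroup G := St A L hAL z with hAD
  set P : Subgroup G := L ⊔ AD with hP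
  have hLP : L ≤ P := le_sup_left
  have hPL : Nrm P L := (Nrm.self L).sup_left (hAL.mono fun a ha => ha.1)
  -- D1
  obtain ⟨D1, ⟨hD1R, hD1L, hD1A, hD1tr⟩, hD1min⟩ := exists_min (fun D : Subgroup G =>
    D ≤ rho^[f5 + 1] L ∧ Nrm L D ∧ Nrm A D ∧ ∀ x ∈ L, ∃ y ∈ D, x • z = y • z)
    ⟨rho^[f5 + 1] L, le_rfl, (Nrm.self L).rhoIter _, hAL.rhoIter _, htr⟩
  have hD1le : D1 ≤ L := hD1R.trans (rhoIter_le _ _)
  -- P moves z inside D1 z
  have hPz : ∀ p ∈ P, ∃ d ∈ D1, p • z = d • z := by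
    intro p hp
    obtain ⟨x, hx, a, ha, rfl⟩ := (mem_sup_nrm (hPL.mono le_sup_right) (K := L) (B := AD)).1 hp
    obtain ⟨y, hy, hyz⟩ := ha.2
    obtain ⟨d, hd, hdz⟩ := hD1tr (x * y) (L.mul_mem hx hy)
    exact ⟨d, hd, by rw [mul_smul, hyz, ← mul_smul, hdz]⟩
  have hPD1 : Nrm P D1 := hD1L.sup_left (hD1A.mono fun a ha => ha.1)
  -- D1 nontrivial
  have hD1ne : D1 ≠ ⊥ := by
    obtain ⟨x, hx, hxz⟩ := hz
    obtain ⟨d, hd, hdz⟩ := hD1tr x hx
    intro e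
    rw [e, Subgroup.mem_bot] at hd
    subst hd
    exact hxz (by rw [hdz, one_smul])
  have hsolD1 : Group.IsSolvable D1 :=
    Group.isSolvable_of_isSolvable_injective (Subgroup.inclusion_injective hD1le)
  have hD2lt : ⁅D1, D1⁆ < D1 := by
    have : Nontrivial D1 := (Subgroup.nontrivial_iff_ne_bot D1).2 hD1ne
    have h := Group.IsSolvable.commutator_lt_top_of_nontrivial D1
    rw [← Subgroup.map_subtype_commutator]
    refine lt_of_le_of_ne (Subgroup.map_subtype_le _) fun e => h.ne ?_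
    rw [eq_top_iff]
    intro y _
    have : (y : G) ∈ (_root_.commutator D1).map D1.subtype := by rw [e]; exact y.2
    obtain ⟨z, hz, hzy⟩ := this
    rwa [← Subtype.ext hzy]
  have hD2tr : ¬ ∀ x ∈ L, ∃ y ∈ ⁅D1, D1⁆, x • z = y • z := by
    intro hc
    have := hD1min ⁅D1, D1⁆ ⟨hD2lt.le.trans hD1R, hD1L.commutator hD1L, hD1A.commutator hD1A, hc⟩
      hD2lt.le
    exact hD2lt.ne this
  -- H
  set H : Subgroup G := ⁅D1, D1⁆ ⊔ (D1 ⊓ S) with hH
  have hHD1 : H ≤ D1 := sup_le hD2lt.le inf_le_left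
  have hDH : ∀ d ∈ D1, ∀ y ∈ D1, d * y * d⁻¹ * y⁻¹ ∈ H := by
    intro d hd y hy
    have : ⁅d, y⁆ ∈ ⁅D1, D1⁆ := Subgroup.commutator_mem_commutator hd hy
    rw [commutatorElement_def] at this
    exact Subgroup.mem_sup_left this
  have hD1H : Nrm D1 H := by
    intro d hd y hy
    have := H.mul_mem (hDH d hd y (hHD1 hy)) hy
    simpa using this
  have hHne : H ≠ D1 := by
    intro e
    apply hD2tr
    intro x hx
    obtain ⟨d, hd, hdz⟩ := hD1tr x hx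
    rw [← e, hH] at hd
    have hn : Nrm (D1 ⊓ S) ⁅D1, D1⁆ := (nrm_commutator_left D1 D1).mono inf_le_left
    obtain ⟨k, hk, s, hs, rfl⟩ := (mem_sup_nrm hn).1 hd
    refine ⟨k, hk, ?_⟩
    rw [hdz, mul_smul, (hSmem s).1 hs.2]
  have hPH : Nrm P H := by
    intro p hp y hy
    obtain ⟨d, hd, hdz⟩ := hPz p hp
    -- q = d⁻¹ p fixes z
    have hq : (d⁻¹ * p) ∈ S := by rw [hSmem, mul_smul, hdz, inv_smul_smul]
    have hqP : d⁻¹ * p ∈ P := P.mul_mem (P.inv_mem (hLP (hD1le hd))) hp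
    have hqH : ∀ y ∈ H, (d⁻¹ * p) * y * (d⁻¹ * p)⁻¹ ∈ H := by
      have h1 : Nrm (P ⊓ S) H := by
        refine Nrm.sup_right ?_ ?_
        · exact (hPD1.commutator hPD1).mono inf_le_left
        · exact (hPD1.mono inf_le_left).inf_right ((Nrm.self S).mono inf_le_right)
      exact h1 _ ⟨hqP, hq⟩
    have h2 := hD1H d hd _ (hqH y hy)
    convert h2 using 1
    group
  -- D3
  obtain ⟨D3, ⟨hD31, hD32, hD3P⟩, hD3max⟩ := exists_max (fun U : Subgroup G =>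
    H ≤ U ∧ U < D1 ∧ Nrm P U) ⟨H, le_rfl, lt_of_le_of_ne hHD1 hHne, hPH⟩
  have hD1D3 : Nrm D1 D3 := hD3P.mono (hD1le.trans hLP)
  have hab : ⁅D1, D1⁆ ≤ D3 := le_sup_left.trans hD31
  have hirr : ∀ U : Subgroup G, D3 ≤ U → U ≤ D1 → Nrm P U → U = D3 ∨ U = D1 := by
    intro U h1 h2 h3
    by_cases hU : U = D1
    · exact Or.inr hU
    · left
      exact hD3max U ⟨hD31.trans h1, lt_of_le_of_ne h2 hU, h3⟩ h1
  -- the element b
  have hb : ∃ b ∈ A, b ∈ P ∧ b ≠ 1 ∧ (cen {b} D1 D3 hD1D3).relIndex D1 ≤ 2 ^ (l + 1) := by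
    have hst' : ∀ x : G, ∃ b ∈ A, x ∈ L → (b ≠ 1 ∧ b • (x • z) = x • z) := by
      intro x
      by_cases hx : x ∈ L
      · obtain ⟨b, h1, h2, h3⟩ := hst x hx
        exact ⟨b, h1, fun _ => ⟨h2, h3⟩⟩
      · exact ⟨1, A.one_mem, fun h => absurd h hx⟩
    choose β hβA hβ' using hst'
    have hβ1 : ∀ d ∈ D1, β d ≠ 1 := fun d hd => (hβ' d (hD1le hd)).1
    have hβz : ∀ d ∈ D1, β d • (d • z) = d • z := fun d hd => (hβ' d (hD1le hd)).2
    -- β fixes d z implies β in P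
    have hβP : ∀ d ∈ D1, ∀ b ∈ A, b • (d • z) = d • z → b ∈ P := by
      intro d hd b hb hbz
      apply Subgroup.mem_sup_right
      refine ⟨hb, (b * d⁻¹ * b⁻¹) * d, L.mul_mem (hAL b hb _ (L.inv_mem (hD1le hd))) (hD1le hd), ?_⟩
      have : ((b * d⁻¹ * b⁻¹) * d) • z = (b * d⁻¹ * b⁻¹) • (b • (d • z)) := by
        rw [hbz, mul_smul]
      rw [this, mul_smul, mul_smul, inv_smul_smul, inv_smul_smul]
    have hcos : ∀ d ∈ D1, ∀ d' ∈ D1, ∀ b ∈ A, b • (d • z) = d • z → b • (d' • z) = d' • z →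
        d' * d⁻¹ ∈ cen {b} D1 D3 hD1D3 := by
      intro d hd d' hd' b hb h1 h2
      refine ⟨D1.mul_mem hd' (D1.inv_mem hd), ?_⟩
      intro x0 hx0
      have hx0' : x0 = b := hx0
      rw [hx0']
      have hh : (d⁻¹ * b * d) ∈ S := by rw [hSmem, mul_smul, mul_smul, h1, inv_smul_smul]
      have hh' : (d'⁻¹ * b * d') ∈ S := by rw [hSmem, mul_smul, mul_smul, h2, inv_smul_smul]
      set u := b * (d' * d⁻¹) * b⁻¹ * (d' * d⁻¹)⁻¹ with hu
      have huD : u ∈ D1 := D1.mul_mem (hD1A b hb _ (D1.mul_mem hd' (D1.inv_mem hd)))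
        (D1.inv_mem (D1.mul_mem hd' (D1.inv_mem hd)))
      have e : d'⁻¹ * u * d' = (d'⁻¹ * b * d') * (d⁻¹ * b * d)⁻¹ := by rw [hu]; group
      have h3 : d'⁻¹ * u * d' ∈ D3 := by
        apply hD31
        apply Subgroup.mem_sup_right
        refine ⟨D1.mul_mem (D1.mul_mem (D1.inv_mem hd') huD) hd', ?_⟩
        rw [e]
        exact S.mul_mem hh' (S.inv_mem hh)
      have h4 := hD1D3 d' hd' _ h3
      convert h4 using 1
      group
    -- pigeonhole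
    by_contra hcon
    push Not at hcon
    have hD1fin : (D1 : Set G).Finite := Set.toFinite _
    have hAfin : (A : Set G).Finite := Set.toFinite _
    have hsum := Finset.card_eq_sum_card_fiberwise (s := hD1fin.toFinset) (t := hAfin.toFinset)
      (f := fun d => β d) (fun d _ => by
        simp only [Set.Finite.coe_toFinset]
        exact hβA _)
    have hcD1 : hD1fin.toFinset.card = Nat.card D1 := by
      rw [← Set.ncard_eq_toFinset_card _ hD1fin, ← SetLike.coe_sort_coe, Nat.card_coe_set_eq]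
    have hcA : hAfin.toFinset.card = Nat.card A := by
      rw [← Set.ncard_eq_toFinset_card _ hAfin, ← SetLike.coe_sort_coe, Nat.card_coe_set_eq]
    have hpos : 0 < Nat.card D1 := Nat.card_pos
    have hfib : ∀ b ∈ hAfin.toFinset,
        ({d ∈ hD1fin.toFinset | β d = b}).card * Nat.card A < Nat.card D1 := by
      intro b hb
      rw [Set.Finite.mem_toFinset] at hb
      by_cases hne : ({d ∈ hD1fin.toFinset | β d = b}).Nonempty
      · obtain ⟨d0, hd0⟩ := hne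
        rw [Finset.mem_filter, Set.Finite.mem_toFinset] at hd0
        obtain ⟨hd0, hb0⟩ := hd0
        have hd0z : b • (d0 • z) = d0 • z := by rw [← hb0]; exact hβz _ hd0
        have hbP := hβP d0 hd0 b hb hd0z
        have hb1 : b ≠ 1 := by rw [← hb0]; exact hβ1 _ hd0
        have h5 := hcon b hb hbP hb1
        have h6 : ({d ∈ hD1fin.toFinset | β d = b}).card
            ≤ Nat.card (cen {b} D1 D3 hD1D3) := by
          have hcfin : ((cen {b} D1 D3 hD1D3 : Subgroup G) : Set G).Finite := Set.toFinite _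
          have : hcfin.toFinset.card = Nat.card (cen {b} D1 D3 hD1D3) := by
            rw [← Set.ncard_eq_toFinset_card _ hcfin, ← SetLike.coe_sort_coe, Nat.card_coe_set_eq]
          rw [← this]
          apply Finset.card_le_card_of_injOn (fun d => d * d0⁻¹)
          · intro d hd
            simp only [Finset.coe_filter, Set.Finite.mem_toFinset, Set.mem_ofPred_eq] at hd
            simp only [Set.Finite.coe_toFinset]
            refine hcos d0 hd0 d hd.1 b hb hd0z ?_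
            rw [← hd.2]; exact hβz _ hd.1
          · intro x _ y _ hxy
            exact mul_right_cancel hxy
        have h7 : Nat.card (cen {b} D1 D3 hD1D3) * (cen {b} D1 D3 hD1D3).relIndex D1
            = Nat.card D1 := by
          have := Subgroup.relIndex_mul_relIndex ⊥ (cen {b} D1 D3 hD1D3) D1 bot_le cen_le
          rwa [Subgroup.relIndex_bot_left, Subgroup.relIndex_bot_left] at this
        calc _ ≤ Nat.card (cen {b} D1 D3 hD1D3) * 2 ^ (l + 1) := Nat.mul_le_mul h6 hcard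
          _ < Nat.card (cen {b} D1 D3 hD1D3) * (cen {b} D1 D3 hD1D3).relIndex D1 := by
            apply Nat.mul_lt_mul_of_pos_left h5 Nat.card_pos
          _ = Nat.card D1 := h7
      · rw [Finset.not_nonempty_iff_eq_empty] at hne
        rw [hne]
        simp [hpos]
    have hAne : hAfin.toFinset.Nonempty := ⟨1, by simp⟩
    have h8 : hD1fin.toFinset.card * Nat.card A < Nat.card A * Nat.card D1 := by
      rw [hsum, Finset.sum_mul]
      calc _ < ∑ _b ∈ hAfin.toFinset, Nat.card D1 := Finset.sum_lt_sum_of_nonempty hAne hfib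
        _ = Nat.card A * Nat.card D1 := by rw [Finset.sum_const, hcA, smul_eq_mul]
    rw [hcD1, mul_comm] at h8
    exact lt_irrefl _ h8
  obtain ⟨b, hbA, hbP, hb1, hbi⟩ := hb
  have htriv := hcor G A L P D1 D3 b hA hAL hg hcard hLP hPL hPD1 hD3P hD32.le hab hirr hbA hbP hb1
    ⟨cen {b} D1 D3 hD1D3, cen_le, fun t ht => ht.2 b rfl, hbi⟩
  -- final contradiction
  have hLD3 : Nrm L D3 := hD3P.mono hLP
  have hJ : ⁅rho^[f5] L, rho^[f5] L⁆ ≤ D3 ⊔ (L ⊓ S) := by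
    rw [Subgroup.commutator_le]
    intro x hx y hy
    have hxL := rhoIter_le _ _ hx
    have hyL := rhoIter_le _ _ hy
    obtain ⟨d1, hd1, hd1z⟩ := hD1tr x hxL
    obtain ⟨d2, hd2, hd2z⟩ := hD1tr y hyL
    have hh : d1⁻¹ * x ∈ S := by rw [hSmem, mul_smul, hd1z, inv_smul_smul]
    have hh' : d2⁻¹ * y ∈ S := by rw [hSmem, mul_smul, hd2z, inv_smul_smul]
    set h := d1⁻¹ * x with hhdef
    set h' := d2⁻¹ * y with hh'def
    have hhL : h ∈ L := L.mul_mem (L.inv_mem (hD1le hd1)) hxL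
    have hh'L : h' ∈ L := L.mul_mem (L.inv_mem (hD1le hd2)) hyL
    have ex : x = d1 * h := by rw [hhdef]; group
    have ey : y = d2 * h' := by rw [hh'def]; group
    -- the fixer of D1 / D3 in L
    have hfix : ∀ t ∈ D1, h ∈ fixer L D3 t hLD3 ∧ h' ∈ fixer L D3 t hLD3 := by
      intro t ht
      have f1 : x ∈ fixer L D3 t hLD3 := ⟨hxL, htriv x hx t ht⟩
      have f2 : y ∈ fixer L D3 t hLD3 := ⟨hyL, htriv y hy t ht⟩
      have f3 : d1 ∈ fixer L D3 t hLD3 := ⟨hD1le hd1, hD31 (hDH d1 hd1 t ht)⟩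
      have f4 : d2 ∈ fixer L D3 t hLD3 := ⟨hD1le hd2, hD31 (hDH d2 hd2 t ht)⟩
      exact ⟨Subgroup.mul_mem _ (Subgroup.inv_mem _ f3) f1,
        Subgroup.mul_mem _ (Subgroup.inv_mem _ f4) f2⟩
    have k1 : h * d2 * h⁻¹ * d2⁻¹ ∈ D3 := (hfix d2 hd2).1.2
    have k2 : (h * h' * h⁻¹) * d1⁻¹ * (h * h' * h⁻¹)⁻¹ * d1⁻¹⁻¹ ∈ D3 := by
      have f := hfix d1⁻¹ (D1.inv_mem hd1)
      exact (Subgroup.mul_mem _ (Subgroup.mul_mem _ f.1 f.2) (Subgroup.inv_mem _ f.1)).2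
    have k3 : ⁅h, h'⁆ * d2⁻¹ * ⁅h, h'⁆⁻¹ * d2⁻¹⁻¹ ∈ D3 := by
      have f := hfix d2⁻¹ (D1.inv_mem hd2)
      rw [commutatorElement_def]
      exact (Subgroup.mul_mem _ (Subgroup.mul_mem _ (Subgroup.mul_mem _ f.1 f.2)
        (Subgroup.inv_mem _ f.1)) (Subgroup.inv_mem _ f.2)).2
    have k4 : ⁅d1, d2⁆ ∈ D3 := hab (Subgroup.commutator_mem_commutator hd1 hd2)
    have e : ⁅d1 * h, d2 * h'⁆ =
        ((d1 * (h * d2 * h⁻¹ * d2⁻¹) * d1⁻¹) *
        ((d1 * d2) * ((h * h' * h⁻¹) * d1⁻¹ * (h * h' * h⁻¹)⁻¹ * d1⁻¹⁻¹) * (d1 * d2)⁻¹) *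
        ((d1 * d2 * d1⁻¹) * (⁅h, h'⁆ * d2⁻¹ * ⁅h, h'⁆⁻¹ * d2⁻¹⁻¹) * (d1 * d2 * d1⁻¹)⁻¹) *
        ⁅d1, d2⁆) * ⁅h, h'⁆ := by
      simp only [commutatorElement_def]; group
    rw [ex, ey, e]
    refine Subgroup.mul_mem_sup ?_ ?_
    · refine D3.mul_mem (D3.mul_mem (D3.mul_mem (hD1D3 d1 hd1 _ k1) ?_) ?_) k4
      · exact hD1D3 _ (D1.mul_mem hd1 hd2) _ k2
      · exact hD1D3 _ (D1.mul_mem (D1.mul_mem hd1 hd2) (D1.inv_mem hd1)) _ k3
    · rw [commutatorElement_def]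
      exact (L ⊓ S).mul_mem ((L ⊓ S).mul_mem ((L ⊓ S).mul_mem ⟨hhL, hh⟩ ⟨hh'L, hh'⟩)
        ((L ⊓ S).inv_mem ⟨hhL, hh⟩)) ((L ⊓ S).inv_mem ⟨hh'L, hh'⟩)
  have hD1J : D1 ≤ D3 := by
    intro d hd
    have h1 : d ∈ D3 ⊔ (L ⊓ S) := by
      apply hJ
      apply rho_le_commutator
      rw [← Function.iterate_succ_apply' rho]
      exact hD1R hd
    obtain ⟨d3, hd3, s, hs, rfl⟩ := (mem_sup_nrm (hLD3.mono inf_le_left)).1 h1
    refine D3.mul_mem hd3 (hD31 ?_)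
    apply Subgroup.mem_sup_right
    refine ⟨?_, hs.2⟩
    have := D1.mul_mem (D1.inv_mem (hD32.le hd3)) hd
    simpa using this
  exact absurd hD32 (not_lt_of_ge hD1J)

theorem thmA_core {l f0 f5 : ℕ} (hP : PAct l f0)
    (hcor : ∀ (G : Type) [Group G]
    [Finite G] (A L P X1 X2 : Subgroup G) [Group.IsSolvable L] (b : G), Is2 A → Nrm A L →
    Good A L → Nat.card A ≤ 2 ^ (l + 1) → L ≤ P → Nrm P L → Nrm P X1 → Nrm P X2 → X2 ≤ X1 →
    ⁅X1, X1⁆ ≤ X2 → (∀ U : Subgroup G, X2 ≤ U → U ≤ X1 → Nrm P U → U = X2 ∨ U = X1) →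
    b ∈ A → b ∈ P → b ≠ 1 →
    (∃ T : Subgroup G, T ≤ X1 ∧ (∀ t ∈ T, b * t * b⁻¹ * t⁻¹ ∈ X2) ∧
      T.relIndex X1 ≤ 2 ^ (l + 1)) →
    ∀ x ∈ rho^[f5] L, ∀ y ∈ X1, x * y * x⁻¹ * y⁻¹ ∈ X2)
    {A N : Subgroup G} [Group.IsSolvable N] (hA : Is2 A) (hcard : Nat.card A ≤ 2 ^ (l + 1))
    (hAN : Nrm A N) (hg : Good A N)
    (z : Ω) (hst : ∀ x ∈ N, ∃ b ∈ A, b ≠ 1 ∧ b • (x • z) = x • z)
    (hz : ∃ x ∈ rho^[2 ^ (l + 1) * (2 ^ (l + 1) + f0) + (f5 + 1)] N, x • z ≠ z) :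
    ∃ w : Ω, (∃ x ∈ N, w = x • z) ∧ ∃ b ∈ St A N hAN z,
      b ∉ St A (rho^[2 ^ (l + 1) * (2 ^ (l + 1) + f0) + (f5 + 1)] N) (hAN.rhoIter _) w := by
  by_contra hcon
  push Not at hcon
  set R' := rho^[2 ^ (l + 1) * (2 ^ (l + 1) + f0) + (f5 + 1)] N with hR'
  have hAR' : Nrm A R' := hAN.rhoIter _
  have hNR' : Nrm N R' := (Nrm.self N).rhoIter _
  have hR'N : R' ≤ N := rhoIter_le _ _
  have hB : ∀ w : Ω, (∃ x ∈ N, w = x • z) → ∀ b ∈ St A N hAN z, ∃ y ∈ R', b • w = y • w := by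
    rintro w hw b hb
    exact (hcon w hw b hb).2
  obtain ⟨b, hbA, hb1, hbz⟩ := hst 1 N.one_mem
  rw [one_smul] at hbz
  have hbSt : b ∈ St A N hAN z := ⟨hbA, 1, N.one_mem, by rw [hbz, one_smul]⟩
  let K : Subgroup G :=
    { carrier := {x | x ∈ N ∧ ∀ w : Ω, (∃ x ∈ N, w = x • z) → ∃ y ∈ R', x • w = y • w}
      one_mem' := ⟨N.one_mem, fun w _ => ⟨1, R'.one_mem, rfl⟩⟩
      mul_mem' := by
        rintro x x' ⟨hx, hx2⟩ ⟨hx', hx2'⟩
        refine ⟨N.mul_mem hx hx', fun w hw => ?_⟩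
        obtain ⟨y', hy', e'⟩ := hx2' w hw
        obtain ⟨u, hu, hw'⟩ := hw
        obtain ⟨y, hy, e⟩ := hx2 (x' • w) ⟨x' * u, N.mul_mem hx' hu, by rw [hw', mul_smul]⟩
        exact ⟨y * y', R'.mul_mem hy hy', by rw [mul_smul, e, e', mul_smul]⟩
      inv_mem' := by
        rintro x ⟨hx, hx2⟩
        refine ⟨N.inv_mem hx, fun w hw => ?_⟩
        obtain ⟨u, hu, hw'⟩ := hw
        obtain ⟨y, hy, e⟩ := hx2 (x⁻¹ • w) ⟨x⁻¹ * u, N.mul_mem (N.inv_mem hx) hu, by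
          rw [hw', mul_smul]⟩
        refine ⟨y⁻¹, R'.inv_mem hy, ?_⟩
        rw [smul_inv_smul] at e
        rw [eq_inv_smul_iff, ← e] }
  have hKmem : ∀ x, x ∈ K ↔ x ∈ N ∧ ∀ w : Ω, (∃ x ∈ N, w = x • z) → ∃ y ∈ R', x • w = y • w :=
    fun x => Iff.rfl
  have hKN : K ≤ N := fun x hx => hx.1
  have hNK : Nrm N K := by
    rintro g hg x ⟨hx, hx2⟩
    refine ⟨N.mul_mem (N.mul_mem hg hx) (N.inv_mem hg), fun w hw => ?_⟩
    obtain ⟨u, hu, hw'⟩ := hw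
    obtain ⟨y, hy, e⟩ := hx2 (g⁻¹ • w) ⟨g⁻¹ * u, N.mul_mem (N.inv_mem hg) hu, by
      rw [hw', mul_smul]⟩
    refine ⟨g * y * g⁻¹, hNR' g hg y hy, ?_⟩
    rw [mul_smul, mul_smul, e, mul_smul, mul_smul]
  have hbK : ∀ x ∈ N, b * x * b⁻¹ * x⁻¹ ∈ K := by
    intro x hx
    refine ⟨N.mul_mem (hAN b hbA x hx) (N.inv_mem hx), fun w hw => ?_⟩
    obtain ⟨u, hu, hw'⟩ := hw
    have hw2 : ∃ v ∈ N, x⁻¹ • w = v • z :=
      ⟨x⁻¹ * u, N.mul_mem (N.inv_mem hx) hu, by rw [hw', mul_smul]⟩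
    rcases hw2 with ⟨v, hv, hvz⟩
    obtain ⟨y1, hy1, e1⟩ := hB (x⁻¹ • w) ⟨v, hv, hvz⟩ b⁻¹ (Subgroup.inv_mem _ hbSt)
    obtain ⟨y2, hy2, e2⟩ := hB w ⟨u, hu, hw'⟩ b hbSt
    refine ⟨(b * (x * y1 * x⁻¹) * b⁻¹) * y2,
      R'.mul_mem (hAR' b hbA _ (hNR' x hx y1 hy1)) hy2, ?_⟩
    have e3 : (b * x * b⁻¹ * x⁻¹) • w = b • x • b⁻¹ • x⁻¹ • w := by simp only [mul_smul]
    have e4 : ((b * (x * y1 * x⁻¹) * b⁻¹) * y2) • w = b • x • y1 • x⁻¹ • b⁻¹ • y2 • w := by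
      simp only [mul_smul]
    rw [e3, e4, e1, ← e2, inv_smul_smul]
  have hW := lemW hP hA hAN hg hcard hbA hb1 hKN hNK hbK
  set L := rho^[2 ^ (l + 1) * (2 ^ (l + 1) + f0)] N with hL
  have hLN : L ≤ N := rhoIter_le _ _
  have hR'L : rho^[f5 + 1] L = R' := by
    rw [hL, ← Function.iterate_add_apply, hR', add_comm]
  have hsolL : Group.IsSolvable L :=
    Group.isSolvable_of_isSolvable_injective (Subgroup.inclusion_injective hLN)
  refine thmA_last hcor hA hcard (hAN.rhoIter _) (hg.mono hLN) z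
    (fun x hx => hst x (hLN hx)) ?_ ?_
  · obtain ⟨x, hx, hxz⟩ := hz
    rw [← hR'L] at hx
    exact ⟨x, rhoIter_le _ _ hx, hxz⟩
  · intro x hx
    rw [hR'L]
    exact (hW hx).2 z ⟨1, N.one_mem, by rw [one_smul]⟩

/-- **Theorem A.** -/
theorem thmA {l f0 : ℕ} (hP : PAct l f0) (h1 : Lem1) : ∃ m : ℕ, ∀ (G Ω : Type) [Group G]
    [Finite G] [MulAction G Ω] (N A : Subgroup G) [Group.IsSolvable N] (Δ : Set Ω), Is2 A →
    Nat.card A ≤ 2 ^ (l + 1) → Nrm A N → Good A N → (∀ x ∈ N, ∀ z ∈ Δ, x • z ∈ Δ) →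
    (∀ z ∈ Δ, ∃ b ∈ A, b ≠ 1 ∧ b • z = z) →
    ∀ x ∈ rho^[m] N, ∀ z ∈ Δ, x • z = z := by
  obtain ⟨f5, hcor⟩ := cor1 hP h1 (2 ^ (l + 1))
  set s := 2 ^ (l + 1) * (2 ^ (l + 1) + f0) + (f5 + 1) with hs
  refine ⟨(l + 1) * s, ?_⟩
  intro G Ω _ _ _ N A _ Δ hA hcard hAN hg hΔ hst x hx z hzΔ
  by_contra hxz
  have key : ∀ j ≤ l + 1, ∃ z ∈ Δ, (∃ x ∈ rho^[(l + 1) * s] N, x • z ≠ z) ∧
      Nat.card (St A (rho^[j * s] N) (hAN.rhoIter _) z) ≤ 2 ^ (l + 1 - j) := by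
    intro j
    induction j with
    | zero =>
      intro _
      refine ⟨z, hzΔ, ⟨x, hx, hxz⟩, ?_⟩
      rw [Nat.sub_zero]
      exact (Subgroup.card_le_of_le St_le).trans hcard
    | succ j ih =>
      intro hj
      obtain ⟨z, hzΔ, ⟨x, hx, hxz⟩, hzc⟩ := ih (by omega)
      have hsol : Group.IsSolvable (rho^[j * s] N : Subgroup G) :=
        Group.isSolvable_of_isSolvable_injective (Subgroup.inclusion_injective (rhoIter_le _ _))
      have e : rho^[s] (rho^[j * s] N) = rho^[(j + 1) * s] N := by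
        rw [← Function.iterate_add_apply, show s + j * s = (j + 1) * s by ring]
      have hle : rho^[(l + 1) * s] N ≤ rho^[(j + 1) * s] N :=
        rhoIter_anti (Nat.mul_le_mul_right s hj) N
      obtain ⟨w, ⟨u, hu, hw⟩, b, hb1, hb2⟩ := thmA_core hP hcor (A := A) (N := rho^[j * s] N) hA
        hcard (hAN.rhoIter _) (hg.mono (rhoIter_le _ _)) z
        (fun x hx => hst _ (hΔ x (rhoIter_le _ _ hx) z hzΔ)) ⟨x, by
          rw [← hs, e]; exact hle hx, hxz⟩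
      rw [← hs] at hb2
      refine ⟨w, by rw [hw]; exact hΔ u (rhoIter_le _ _ hu) z hzΔ, ⟨u * x * u⁻¹, ?_, ?_⟩, ?_⟩
      · exact (Nrm.self N).rhoIter _ u (rhoIter_le _ _ hu) x hx
      · rw [hw, mul_smul, mul_smul, inv_smul_smul]
        intro h
        exact hxz (smul_left_cancel u h)
      · -- cardinality
        have hsub : St A (rho^[(j + 1) * s] N) (hAN.rhoIter _) w
            ≤ St A (rho^[j * s] N) (hAN.rhoIter _) z := by
          rintro a ⟨ha, y, hy, hyw⟩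
          refine ⟨ha, (a * u⁻¹ * a⁻¹) * (y * u), ?_, ?_⟩
          · refine Subgroup.mul_mem _ ((hAN.rhoIter _) a ha _ (Subgroup.inv_mem _ hu))
              (Subgroup.mul_mem _ ?_ hu)
            exact rhoIter_anti (Nat.mul_le_mul_right s (Nat.le_succ j)) N hy
          · have e1 : ((a * u⁻¹ * a⁻¹) * (y * u)) • z = (a * u⁻¹ * a⁻¹) • y • w := by
              rw [hw]; simp only [mul_smul]
            rw [e1, ← hyw, hw]
            simp only [mul_smul, inv_smul_smul]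
        have hlt : St A (rho^[(j + 1) * s] N) (hAN.rhoIter _) w
            < St A (rho^[j * s] N) (hAN.rhoIter _) z := by
          refine lt_of_le_of_ne hsub fun e' => hb2 ?_
          have : b ∈ St A (rho^[(j + 1) * s] N) (hAN.rhoIter _) w := by rw [e']; exact hb1
          obtain ⟨h2, y, hy, hyw⟩ := this
          exact ⟨h2, y, by rw [e]; exact hy, hyw⟩
        -- index at least two
        have h3 := Subgroup.relIndex_mul_relIndex ⊥ _ _ bot_le hsub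
        rw [Subgroup.relIndex_bot_left, Subgroup.relIndex_bot_left] at h3
        have h4 : (St A (rho^[(j + 1) * s] N) (hAN.rhoIter _) w).relIndex
            (St A (rho^[j * s] N) (hAN.rhoIter _) z) ≠ 1 := by
          intro h
          exact absurd hlt (not_lt_of_ge (Subgroup.relIndex_eq_one.1 h))
        have h5 : (St A (rho^[(j + 1) * s] N) (hAN.rhoIter _) w).relIndex
            (St A (rho^[j * s] N) (hAN.rhoIter _) z) ≠ 0 := relIndex_ne _ _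
        have h6 : Nat.card (St A (rho^[(j + 1) * s] N) (hAN.rhoIter _) w) * 2 ≤
            Nat.card (St A (rho^[j * s] N) (hAN.rhoIter _) z) := by
          rw [← h3]
          exact Nat.mul_le_mul_left _ (by omega)
        have h7 : 2 ^ (l + 1 - j) = 2 ^ (l + 1 - (j + 1)) * 2 := by
          rw [← pow_succ]; congr 1; omega
        omega
  obtain ⟨w, hwΔ, -, hw⟩ := key (l + 1) le_rfl
  rw [Nat.sub_self, pow_zero] at hw
  obtain ⟨b, hbA, hb1, hbw⟩ := hst w hwΔ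
  have hbS : b ∈ St A (rho^[(l + 1) * s] N) (hAN.rhoIter _) w :=
    ⟨hbA, 1, Subgroup.one_mem _, by rw [hbw, one_smul]⟩
  have : (St A (rho^[(l + 1) * s] N) (hAN.rhoIter _) w) = ⊥ :=
    Subgroup.card_eq_one.1 (le_antisymm hw Nat.card_pos)
  rw [this, Subgroup.mem_bot] at hbS
  exact hb1 hbS

end core

end Pool.Agent.Helper12.TwoLen
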