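import Pool.Agent.Helper12.FixV
import Pool.Agent.Helper40.HH

/-!
Theorem B'.
-/

set_option autoImplicit false

open scoped commutatorElement Pointwise

namespace Pool.Agent.Helper12.TwoLen

section prelim

variable {G : Type*} [Group G]

theorem step0 [Finite G] {O : Subgroup G} (hO : opi O = O)
    (hcent : ∀ x ∈ tau O, ∀ y ∈ O, x * y = y * x) : tau O = ⊥ := by
  apply tau_eq_bot_of_IsO
  have hJ : ∀ j ∈ O, ∃ m : ℕ, Odd m ∧ ∀ x ∈ O, j ^ m * x = x * j ^ m := by
    intro j hj
    obtain ⟨m, hm, h⟩ := exists_pow_mem_tau Tor.of_finite hj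
    exact ⟨m, hm, fun x hx => hcent _ h x hx⟩
  intro x hx
  rw [← hO] at hx
  induction hx using Subgroup.closure_induction with
  | mem x hx => exact hx.2
  | one => exact EO.one
  | mul x y hx' hy' hx hy =>
    have h1 : x ∈ O := opi_le _ hx'
    have h2 : y ∈ O := opi_le _ hy'
    exact EO_mul_of_center LocFin.of_finite hJ h1 h2 hx hy
  | inv x _ hx => exact hx.inv

theorem pow_conj_eq {x c y : G} (hy : y = x * c * x⁻¹ * c⁻¹) (hcomm : x * y = y * x) (n : ℕ) :
    x ^ n * c * (x ^ n)⁻¹ = y ^ n * c := by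
  induction n with
  | zero => simp
  | succ n ih =>
    have hc : x ^ n * y = y * x ^ n := (Commute.pow_left (show Commute x y from hcomm) n).eq
    have e : x ^ (n + 1) * c * (x ^ (n + 1))⁻¹ = x ^ n * (x * c * x⁻¹) * (x ^ n)⁻¹ := by
      rw [pow_succ]; group
    have e2 : x * c * x⁻¹ = y * c := by rw [hy]; group
    rw [e, e2]
    calc x ^ n * (y * c) * (x ^ n)⁻¹ = (x ^ n * y) * c * (x ^ n)⁻¹ := by group
      _ = y * (x ^ n * c * (x ^ n)⁻¹) := by rw [hc]; group
      _ = y ^ (n + 1) * c := by rw [ih, pow_succ']; group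

theorem coprime_fix {x c : G} (hx : EO x) (hy : E2 (x * c * x⁻¹ * c⁻¹))
    (hcomm : x * (x * c * x⁻¹ * c⁻¹) = (x * c * x⁻¹ * c⁻¹) * x) : x * c = c * x := by
  obtain ⟨n, hn, e⟩ := hx
  have h1 := pow_conj_eq rfl hcomm n
  rw [e] at h1
  have h2 : (x * c * x⁻¹ * c⁻¹) ^ n = 1 := by
    have : c = (x * c * x⁻¹ * c⁻¹) ^ n * c := by simpa using h1
    exact (mul_eq_right.1 this.symm)
  have h3 := eq_one_of_E2_EO hy ⟨n, hn, h2⟩
  have h4 := mul_inv_eq_one.1 h3
  exact mul_inv_eq_iff_eq_mul.1 h4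

/-- a nontrivial finite 2-group has a proper subgroup containing squares and commutators. -/
theorem exists_index_two [Finite G] {C : Subgroup G} (hC : Is2 C) (hne : C ≠ ⊥) :
    ∃ M : Subgroup G, M < C ∧ (∀ x ∈ C, x * x ∈ M) ∧ ⁅C, C⁆ ≤ M := by
  have : Fact (Nat.Prime 2) := ⟨Nat.prime_two⟩
  obtain ⟨n, hn⟩ := IsPGroup.iff_card.1 (is2_iff_isPGroup.1 hC)
  obtain ⟨k, rfl⟩ : ∃ k, n = k + 1 := by
    rcases n with _ | k
    · rw [pow_zero] at hn
      exact absurd (Subgroup.card_eq_one.1 hn) hne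
    · exact ⟨k, rfl⟩
  obtain ⟨K, hK⟩ := Sylow.exists_subgroup_card_pow_prime (G := C) 2 (n := k)
    (by rw [hn]; exact pow_dvd_pow 2 (Nat.le_succ k))
  have hi : K.index = 2 := by
    have := K.card_mul_index
    rw [hK, hn, pow_succ] at this
    exact Nat.eq_of_mul_eq_mul_left (by positivity) this
  refine ⟨K.map C.subtype, ?_, ?_, ?_⟩
  · refine lt_of_le_of_ne (Subgroup.map_subtype_le _) fun e => ?_
    have : K = ⊤ := by
      rw [eq_top_iff]
      intro y _
      have : (y : G) ∈ K.map C.subtype := by rw [e]; exact y.2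
      obtain ⟨z, hz, hzy⟩ := this
      rwa [← Subtype.ext hzy]
    rw [this, Subgroup.index_top] at hi
    omega
  · intro x hx
    exact ⟨⟨x, hx⟩ * ⟨x, hx⟩, Subgroup.mul_self_mem_of_index_two hi _, rfl⟩
  · rw [Subgroup.commutator_le]
    intro x hx y hy
    refine ⟨⁅(⟨x, hx⟩ : C), (⟨y, hy⟩ : C)⁆, ?_, rfl⟩
    rw [commutatorElement_def]
    simp only [SetLike.mem_coe, Subgroup.mul_mem_iff_of_index_two hi, Subgroup.inv_mem_iff]
    tauto

theorem exists_z0 {Z : Subgroup G} [Finite Z] (hZ : ∀ x ∈ Z, ∀ y ∈ Z, x * y = y * x) (s : G)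
    (hs : ∀ z ∈ Z, z * z = 1 → z = 1 ∨ z = s) :
    ∃ z₀ : G, ∀ z ∈ Z, ∃ y ∈ Z, z = y * y ∨ z = z₀ * (y * y) := by
  classical
  let cg : CommGroup Z := { (inferInstance : Group Z) with
    mul_comm := fun a b => Subtype.ext (hZ a a.2 b b.2) }
  let f : Z →* Z := { toFun := fun z => z * z, map_one' := by simp,
                      map_mul' := fun a b => by
                        apply Subtype.ext
                        change ((a : G) * b) * (a * b) = (a * a) * (b * b)
                        rw [mul_assoc, mul_assoc, ← mul_assoc (b : G) a b, hZ b b.2 a a.2,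
                          mul_assoc] }
  have hker : Nat.card f.ker ≤ 2 := by
    have hsub : ((f.ker : Subgroup Z) : Set Z) ⊆ {z : Z | z = 1 ∨ (z : G) = s} := by
      intro z hz
      have : (z : G) * z = 1 := congrArg Subtype.val hz
      rcases hs z z.2 this with h | h
      · exact Or.inl (Subtype.ext h)
      · exact Or.inr h
    rw [← SetLike.coe_sort_coe, Nat.card_coe_set_eq]
    refine (Set.ncard_le_ncard hsub (Set.toFinite _)).trans ?_
    have : {z : Z | z = 1 ∨ (z : G) = s} ⊆ {z : Z | z = 1} ∪ {z : Z | (z : G) = s} := by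
      intro z hz; exact hz
    refine (Set.ncard_le_ncard this (Set.toFinite _)).trans ((Set.ncard_union_le _ _).trans ?_)
    have h1 : {z : Z | z = 1}.ncard ≤ 1 := (Set.ncard_le_one_iff (Set.toFinite _)).2 (by
      intro a b ha hb; exact ha.trans hb.symm)
    have h2 : {z : Z | (z : G) = s}.ncard ≤ 1 := (Set.ncard_le_one_iff (Set.toFinite _)).2 (by
      intro a b ha hb; exact Subtype.ext (ha.trans hb.symm))
    omega
  have hidx : f.range.index ∣ 2 := by
    have h1 : f.range.index = Nat.card f.ker := Subgroup.index_range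
    rw [h1]
    have hpos : 0 < Nat.card f.ker := Nat.card_pos
    interval_cases (Nat.card f.ker)
    · exact one_dvd 2
    · exact dvd_rfl
  obtain ⟨a, ha⟩ := Subgroup.index_dvd_two_iff.1 hidx
  refine ⟨(a : G)⁻¹, fun z hz => ?_⟩
  rcases ha ⟨z, hz⟩ with ⟨y, hy⟩ | ⟨y, hy⟩
  · refine ⟨y, y.2, Or.inr ?_⟩
    have : (y : G) * y = z * a := congrArg Subtype.val hy
    rw [this, hZ z hz a a.2]; group
  · refine ⟨y, y.2, Or.inl ?_⟩
    have : (y : G) * y = z := congrArg Subtype.val hy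
    exact this.symm

end prelim

section res

variable {V : Type} [CommGroup V]

/-- restriction to the fixed vectors of `B` of the normaliser of `B` -/
def resHom {B Q : Subgroup (MulAut V)} (hQ : ∀ g ∈ Q, cK g B = B) : Q →* MulAut (FV B) where
  toFun g :=
    { toFun := fun v => ⟨(g : MulAut V) v, by
        have := FV_cK (g := (g : MulAut V)) v.2
        rwa [hQ g g.2] at this⟩
      invFun := fun v => ⟨((g : MulAut V)⁻¹) v, by
        have := FV_cK (g := ((g : MulAut V)⁻¹)) v.2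
        rwa [hQ _ (Q.inv_mem g.2)] at this⟩
      left_inv := fun v => by ext; simp
      right_inv := fun v => by ext; simp
      map_mul' := fun v w => by ext; simp }
  map_one' := by ext v; rfl
  map_mul' g h := by ext v; rfl

theorem resHom_coe {B Q : Subgroup (MulAut V)} (hQ : ∀ g ∈ Q, cK g B = B) (g : Q) (v : FV B) :
    ((resHom hQ g v : FV B) : V) = (g : MulAut V) v := rfl

end res

section main

variable {V : Type} [CommGroup V] [Finite V]

/-- maximal subgroups with fixed vectors are normalised by `rho^[m] N` -/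
theorem maxFix {l m : ℕ}
    (hm : ∀ (G Ω : Type) [Group G]
    [Finite G] [MulAction G Ω] (N A : Subgroup G) [Group.IsSolvable N] (Δ : Set Ω), Is2 A →
    Nat.card A ≤ 2 ^ (l + 1) → Nrm A N → Good A N → (∀ x ∈ N, ∀ z ∈ Δ, x • z ∈ Δ) →
    (∀ z ∈ Δ, ∃ b ∈ A, b ≠ 1 ∧ b • z = z) →
    ∀ x ∈ rho^[m] N, ∀ z ∈ Δ, x • z = z)
    {N A : Subgroup (MulAut V)} [Group.IsSolvable N] (hodd : Odd (Nat.card V)) (hA : Is2 A)
    (hcard : Nat.card A ≤ 2 ^ (l + 1)) (hAN : Nrm A N) (hg : Good A N)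
    (hCA : ∀ v : V, (∀ a ∈ A, a v = v) → v = 1)
    {Z : Subgroup (MulAut V)} (hZ : ∀ x ∈ Z, ∀ y ∈ Z, x * y = y * x) (hNZ : Nrm N Z)
    (hAZ : Nrm A Z) {B : Subgroup (MulAut V)} (hB : IsMaxF Z B) {x : MulAut V}
    (hx : x ∈ rho^[m] N) : cK x B = B := by
  let inst : MulAction (MulAut V) (Subgroup (MulAut V)) :=
    { smul := cK
      one_smul := fun _ => cK_one
      mul_smul := fun _ _ _ => cK_mul }
  refine @hm (MulAut V) (Subgroup (MulAut V)) _ _ inst N A _ {B | IsMaxF Z B} hA hcard hAN hg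
    ?_ ?_ x hx B hB
  · intro x hx B hB
    exact IsMaxF.cK hB (fun y hy => hNZ x hx y hy) (fun y hy => hNZ.inv hx hy)
  · intro B hB
    by_contra hcon
    push Not at hcon
    have hB' : IsMaxF Z B := hB
    apply hB'.2.1
    rw [eq_bot_iff]
    intro v hv
    rw [Subgroup.mem_bot]
    refine stab_trivial hZ hAZ hodd hA hCA hB' hv fun a ha hab => ?_
    by_cases ha1 : a = 1
    · subst ha1; rfl
    · exact absurd hab (hcon a ha ha1)

/-- elementary abelian invariant subgroups are centralised by `rho^[m] N` -/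
theorem elemCent [Nontrivial V] {m : ℕ} {N A E : Subgroup (MulAut V)}
    (hirr : ∀ U : Subgroup V, (∀ g ∈ N ⊔ A, ∀ u ∈ U, g u ∈ U) → U = ⊥ ∨ U = ⊤)
    (hNE : Nrm N E) (hAE : Nrm A E) (hE : ∀ x ∈ E, x * x = 1)
    (hMF : ∀ B, IsMaxF E B → ∀ x ∈ rho^[m] N, cK x B = B)
    {x e : MulAut V} (hx : x ∈ rho^[m] N) (he : e ∈ E) : x * e = e * x := by
  have hcomm : ∀ x ∈ E, ∀ y ∈ E, x * y = y * x := by
    intro x hx y hy
    have h1 := hE _ (E.mul_mem hx hy)
    have h2 := hE x hx
    have h3 := hE y hy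
    have e1 : x⁻¹ = x := inv_eq_of_mul_eq_one_right h2
    have e2 : y⁻¹ = y := inv_eq_of_mul_eq_one_right h3
    have e3 : (x * y)⁻¹ = x * y := inv_eq_of_mul_eq_one_right h1
    rw [← e3, mul_inv_rev, e1, e2]
  have hxN : x ∈ N := rhoIter_le _ _ hx
  have hu : x * e * x⁻¹ * e⁻¹ = 1 := by
    refine eq_one_of_max hNE hAE hirr fun B hB v hv => ?_
    have hxB := hMF B hB x hx
    have hxv : x⁻¹ v ∈ FV B := by
      have := hv
      rw [← hxB, FV_cK_iff] at this
      exact this
    have hxE : x * e * x⁻¹ ∈ E := hNE x hxN e he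
    have hinv : ∀ e' ∈ E, e' ∉ B → ∀ w ∈ FV B, e' w = w⁻¹ := by
      intro e' he' heB w hw
      have h1 : w * e' w ∈ FV B := by
        refine Subgroup.mul_mem _ hw ?_
        intro g hg
        rw [← MulAut.mul_apply, hcomm g (hB.1 hg) e' he', MulAut.mul_apply, hw g hg]
      have h2 : e' (w * e' w) = w * e' w := by
        rw [map_mul, ← MulAut.mul_apply, hE e' he', MulAut.one_apply, mul_comm]
      have h3 := hB.2.2 e' he' heB _ h1 h2
      exact (inv_eq_of_mul_eq_one_right h3).symm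
    have e0 : (x * e * x⁻¹ * e⁻¹) v = x (e (x⁻¹ (e⁻¹ v))) := rfl
    rw [e0]
    by_cases heB : e ∈ B
    · have h1 : e⁻¹ v = v := hv _ (B.inv_mem heB)
      rw [h1, hxv e heB, MulAut.apply_inv_self]
    · have h1 : e⁻¹ v = v⁻¹ := by
        have : e⁻¹ = e := inv_eq_of_mul_eq_one_right (hE e he)
        rw [this, hinv e he heB v hv]
      rw [h1, map_inv, hinv e he heB _ (Subgroup.inv_mem _ hxv), inv_inv, MulAut.apply_inv_self]
  have h4 := mul_inv_eq_one.1 hu
  exact mul_inv_eq_iff_eq_mul.1 h4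

end main

end Pool.Agent.Helper12.TwoLen
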