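import Pool.Agent.Helper12.ThmB

/-!
Theorem B', second part.
-/

set_option autoImplicit false

open scoped commutatorElement Pointwise

namespace Pool.Agent.Helper12.TwoLen

section minC

variable {G : Type*} [Group G] {N A O R C : Subgroup G}

theorem commutator_eq_bot_iff' {H K : Subgroup G} :
    ⁅H, K⁆ = ⊥ ↔ ∀ x ∈ H, ∀ y ∈ K, x * y = y * x := by
  rw [eq_bot_iff, Subgroup.commutator_le]
  simp only [Subgroup.mem_bot, commutatorElement_eq_one_iff_mul_comm]

/-- the structure of a minimal non-centralised invariant subgroup. -/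
theorem minC_facts [Finite G] (hC2 : Is2 C) (hNC : Nrm N C) (hAC : Nrm A C) (hON : O ≤ N)
    (hNO : Nrm N O) (hAO : Nrm A O) (hO : opi O = O)
    (hCO : ¬ ∀ x ∈ C, ∀ y ∈ O, x * y = y * x)
    (hmin : ∀ D : Subgroup G, D ≤ C → D ≠ C → Nrm N D → Nrm A D →
      ∀ x ∈ D, ∀ y ∈ O, x * y = y * x) :
    ⁅C, O⁆ = C ∧
    (∀ D : Subgroup G, D ≤ C → D ≠ C → Nrm N D → Nrm A D → ∀ x ∈ D, ∀ y ∈ C, x * y = y * x) ∧
    (∀ x ∈ C, ∀ z ∈ C, (x * x) * z = z * (x * x)) ∧
    (∀ x ∈ C, ∀ y ∈ C, ∀ z ∈ C, ⁅x, y⁆ * z = z * ⁅x, y⁆) := by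
  have hCne : C ≠ ⊥ := by
    rintro rfl
    apply hCO
    intro x hx y _
    rw [Subgroup.mem_bot] at hx
    subst hx; simp
  have hOC : Nrm O C := hNC.mono hON
  have hCOle : ⁅C, O⁆ ≤ C := by
    rw [Subgroup.commutator_le]
    intro x hx y hy
    have e : ⁅x, y⁆ = x * (y * x⁻¹ * y⁻¹) := by rw [commutatorElement_def]; group
    rw [e]
    exact C.mul_mem hx (hOC y hy _ (C.inv_mem hx))
  have hN1 : Nrm N ⁅C, O⁆ := hNC.commutator hNO
  have hA1 : Nrm A ⁅C, O⁆ := hAC.commutator hAO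
  have hCOeq : ⁅C, O⁆ = C := by
    by_contra hne
    apply hCO
    have h1 := hmin _ hCOle hne hN1 hA1
    -- odd elements of O centralise C
    have h2 : ∀ x ∈ O, EO x → ∀ c ∈ C, x * c = c * x := by
      intro x hx hxo c hc
      have hy : x * c * x⁻¹ * c⁻¹ ∈ ⁅C, O⁆ := by
        have := Subgroup.inv_mem _ (Subgroup.commutator_mem_commutator hc hx : ⁅c, x⁆ ∈ ⁅C, O⁆)
        rw [commutatorElement_def] at this
        convert this using 1
        group
      exact coprime_fix hxo (hC2 _ (hCOle hy)) (h1 _ hy x hx).symm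
    intro c hc y hy
    have h3 : O ≤ Subgroup.centralizer (C : Set G) := by
      rw [← hO, opi, Subgroup.closure_le]
      rintro x ⟨hx, hxo⟩
      rw [SetLike.mem_coe, Subgroup.mem_centralizer_iff]
      intro c hc
      exact (h2 x hx hxo c hc).symm
    have := h3 hy
    rw [Subgroup.mem_centralizer_iff] at this
    exact this c hc
  obtain ⟨M, hM1, hM2, hM3⟩ := exists_index_two hC2 hCne
  have hCCne : ⁅C, C⁆ ≠ C := fun e => by
    rw [e] at hM3
    exact absurd hM1 (not_lt_of_ge hM3)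
  have hCCle : ⁅C, C⁆ ≤ C := Subgroup.commutator_le_self C
  have hCCO := hmin _ hCCle hCCne (hNC.commutator hNC) (hAC.commutator hAC)
  have hZ : ∀ D : Subgroup G, D ≤ C → D ≠ C → Nrm N D → Nrm A D →
      ∀ x ∈ D, ∀ y ∈ C, x * y = y * x := by
    intro D hD1 hD2 hD3 hD4
    have h1 := hmin D hD1 hD2 hD3 hD4
    -- three subgroups
    have h2 : ⁅⁅C, O⁆, D⁆ = ⊥ := by
      apply Subgroup.commutator_commutator_eq_bot_of_rotate
      · rw [commutator_eq_bot_iff'.2 (fun x hx y hy => (h1 y hy x hx).symm)]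
        exact Subgroup.commutator_bot_left C
      · rw [commutator_eq_bot_iff']
        intro x hx y hy
        exact hCCO x ((Subgroup.commutator_mono hD1 le_rfl) hx) y hy
    rw [hCOeq, commutator_eq_bot_iff'] at h2
    intro x hx y hy
    exact (h2 y hy x hx).symm
  refine ⟨hCOeq, hZ, ?_, ?_⟩
  · -- squares
    set Sq : Subgroup G := Subgroup.closure {y | ∃ x ∈ C, y = x * x} with hSq
    have h1 : Sq ≤ M := by
      rw [hSq, Subgroup.closure_le]
      rintro _ ⟨x, hx, rfl⟩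
      exact hM2 x hx
    have hne : Sq ≠ C := fun e => absurd hM1 (not_lt_of_ge (e ▸ h1))
    have hinv : ∀ Q : Subgroup G, Nrm Q C → Nrm Q Sq := by
      intro Q hQ
      apply Nrm.closure_right
      rintro a ha _ ⟨x, hx, rfl⟩
      exact Subgroup.subset_closure ⟨a * x * a⁻¹, hQ a ha x hx, by group⟩
    have h2 := hZ Sq (h1.trans hM1.le) hne (hinv N hNC) (hinv A hAC)
    intro x hx z hz
    exact h2 _ (Subgroup.subset_closure ⟨x, hx, rfl⟩) z hz
  · have h2 := hZ _ hCCle hCCne (hNC.commutator hNC) (hAC.commutator hAC)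
    intro x hx y hy z hz
    exact h2 _ (Subgroup.commutator_mem_commutator hx hy) z hz

/-- an abelian 2-group whose involutions are centralised by `O = opi O` is centralised. -/
theorem abelian_case (hC2 : Is2 C) (hcomm : ∀ x ∈ C, ∀ y ∈ C, x * y = y * x) (hOC : Nrm O C)
    (hO : opi O = O) (h1 : ∀ x ∈ C, x * x = 1 → ∀ y ∈ O, y * x = x * y) :
    ∀ x ∈ C, ∀ y ∈ O, x * y = y * x := by
  have key : ∀ y ∈ O, EO y → ∀ k : ℕ, ∀ x ∈ C, x ^ (2 ^ k : ℕ) = 1 → y * x = x * y := by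
    intro y hy hyo k
    induction k with
    | zero =>
      intro x _ hx
      rw [pow_zero, pow_one] at hx
      subst hx; simp
    | succ k ih =>
      intro x hx hxk
      have h2 : y * (x * x) = (x * x) * y := by
        apply ih _ (C.mul_mem hx hx)
        rw [← pow_two, ← pow_mul, ← pow_succ']
        exact hxk
      have hu : y * x * y⁻¹ * x⁻¹ ∈ C := C.mul_mem (hOC y hy x hx) (C.inv_mem hx)
      have h3 : (y * x * y⁻¹ * x⁻¹) * (y * x * y⁻¹ * x⁻¹) = 1 := by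
        have hc : x⁻¹ * (y * x * y⁻¹) = (y * x * y⁻¹) * x⁻¹ :=
          hcomm _ (C.inv_mem hx) _ (hOC y hy x hx)
        calc (y * x * y⁻¹ * x⁻¹) * (y * x * y⁻¹ * x⁻¹)
            = (y * x * y⁻¹) * (x⁻¹ * (y * x * y⁻¹)) * x⁻¹ := by group
          _ = (y * (x * x) * y⁻¹) * (x * x)⁻¹ := by rw [hc]; group
          _ = 1 := by rw [h2]; group
      exact coprime_fix hyo (hC2 _ hu) (h1 _ hu h3 y hy)
  intro x hx y hy
  have h3 : O ≤ Subgroup.centralizer (C : Set G) := by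
    rw [← hO, opi, Subgroup.closure_le]
    rintro y ⟨hy, hyo⟩
    rw [SetLike.mem_coe, Subgroup.mem_centralizer_iff]
    intro x hx
    obtain ⟨k, hk⟩ := hC2 x hx
    exact (key y hy hyo k x hx hk).symm
  have := h3 hy
  rw [Subgroup.mem_centralizer_iff] at this
  exact this x hx

end minC

section step

variable {V : Type} [CommGroup V] [Finite V]

theorem commutator_sq {G : Type*} [Group G] {x y : G} (h1 : ⁅x, y⁆ * x = x * ⁅x, y⁆)
    (h2 : (x * x) * y = y * (x * x)) : ⁅x, y⁆ * ⁅x, y⁆ = 1 := by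
  have e : ⁅x, y⁆ * ⁅x, y⁆ = ⁅x, y⁆ * x * y * x⁻¹ * y⁻¹ := by
    rw [commutatorElement_def]; group
  rw [e, h1]
  calc x * ⁅x, y⁆ * y * x⁻¹ * y⁻¹ = (x * x) * y * x⁻¹ * x⁻¹ * y⁻¹ := by
        rw [commutatorElement_def]; group
    _ = 1 := by rw [h2]; group

theorem thmB_step [Nontrivial V] {l c f5 m : ℕ}
    (hc : ∀ (V : Type) [CommGroup V] [Finite V] [Nontrivial V]
    (Γ Z D : Subgroup (MulAut V)) (z₀ s : MulAut V),
    Odd (Nat.card V) → Nat.card D ≤ 2 ^ (l + 1) → Nrm D Γ → Nrm D Z → Z ≤ Γ →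
    (∀ z ∈ Z, ∀ g ∈ Γ, z * g = g * z) →
    (∀ g ∈ Γ, g * g ∈ Z) →
    (s ∈ Γ ∧ ∀ v : V, s v = v⁻¹) →
    (∀ g ∈ Γ, ∀ h ∈ Γ, g * h = h * g ∨ g * h = s * (h * g)) →
    (∀ z ∈ Z, ∃ y ∈ Z, z = y * y ∨ z = z₀ * (y * y)) →
    (∀ b ∈ D, b ≠ 1 → ∀ T : Subgroup (MulAut V), T ≤ Γ →
      (∀ g ∈ T, ∀ h ∈ Γ, (b * g * b⁻¹ * g⁻¹) * h = h * (b * g * b⁻¹ * g⁻¹)) →
      c < T.relIndex Γ) →
    ∃ v : V, v ≠ 1 ∧ ∀ δ ∈ D, δ v = v)
    (hcor : ∀ (G : Type) [Group G]
    [Finite G] (A L P X1 X2 : Subgroup G) [Group.IsSolvable L] (b : G), Is2 A → Nrm A L →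
    Good A L → Nat.card A ≤ 2 ^ (l + 1) → L ≤ P → Nrm P L → Nrm P X1 → Nrm P X2 → X2 ≤ X1 →
    ⁅X1, X1⁆ ≤ X2 → (∀ U : Subgroup G, X2 ≤ U → U ≤ X1 → Nrm P U → U = X2 ∨ U = X1) →
    b ∈ A → b ∈ P → b ≠ 1 →
    (∃ T : Subgroup G, T ≤ X1 ∧ (∀ t ∈ T, b * t * b⁻¹ * t⁻¹ ∈ X2) ∧
      T.relIndex X1 ≤ c) →
    ∀ x ∈ rho^[f5] L, ∀ y ∈ X1, x * y * x⁻¹ * y⁻¹ ∈ X2)
    {N A O C Z B : Subgroup (MulAut V)} [Group.IsSolvable N] (hodd : Odd (Nat.card V))
    (hA : Is2 A) (hcard : Nat.card A ≤ 2 ^ (l + 1)) (hAN : Nrm A N) (hg : Good A N)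
    (hCA : ∀ v : V, (∀ a ∈ A, a v = v) → v = 1)
    (hNC : Nrm N C) (hAC : Nrm A C) (hAZ : Nrm A Z)
    (hZmem : ∀ x, x ∈ Z ↔ x ∈ C ∧ ∀ y ∈ C, x * y = y * x)
    (hsq : ∀ x ∈ C, ∀ z ∈ C, (x * x) * z = z * (x * x))
    (hcc : ∀ x ∈ C, ∀ y ∈ C, ∀ z ∈ C, ⁅x, y⁆ * z = z * ⁅x, y⁆)
    (hB : IsMaxF Z B) (hBL : ∀ x ∈ rho^[m] N, cK x B = B)
    (hx0 : ∃ x ∈ C, ∃ y ∈ C, ⁅x, y⁆ ∉ B)
    (hCO : ⁅C, O⁆ = C) (hOL : O ≤ rho^[f5] (rho^[m] N)) : False := by
  classical
  have hZC : Z ≤ C := fun x hx => ((hZmem x).1 hx).1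
  have hZcomm : ∀ x ∈ Z, ∀ y ∈ Z, x * y = y * x := fun x hx y hy =>
    ((hZmem x).1 hx).2 y (hZC hy)
  have hccZ : ∀ x ∈ C, ∀ y ∈ C, ⁅x, y⁆ ∈ Z := by
    intro x hx y hy
    rw [hZmem]
    refine ⟨?_, hcc x hx y hy⟩
    rw [commutatorElement_def]
    exact C.mul_mem (C.mul_mem (C.mul_mem hx hy) (C.inv_mem hx)) (C.inv_mem hy)
  have hcc2 : ∀ x ∈ C, ∀ y ∈ C, ⁅x, y⁆ * ⁅x, y⁆ = 1 := fun x hx y hy =>
    commutator_sq (hcc x hx y hy x hx) (hsq x hx y hy)
  -- elements of Z outside B with square in B act as inversion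
  have hinv : ∀ z ∈ Z, z ∉ B → z * z ∈ B → ∀ v ∈ FV B, z v = v⁻¹ := by
    intro z hz hzB hzz v hv
    have h1 : v * z v ∈ FV B := by
      refine Subgroup.mul_mem _ hv ?_
      intro g hg
      rw [← MulAut.mul_apply, hZcomm g (hB.1 hg) z hz, MulAut.mul_apply, hv g hg]
    have h2 : z (v * z v) = v * z v := by
      rw [map_mul, ← MulAut.mul_apply, hv _ hzz, mul_comm]
    have h3 := hB.2.2 z hz hzB _ h1 h2
    exact (inv_eq_of_mul_eq_one_right h3).symm
  -- Q = normaliser of B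
  let Q : Subgroup (MulAut V) :=
    { carrier := {g | cK g B = B}
      one_mem' := cK_one
      mul_mem' := by
        intro x y hx hy
        change cK (x * y) B = B
        rw [cK_mul, show cK y B = B from hy, show cK x B = B from hx]
      inv_mem' := by
        intro x hx
        change cK x⁻¹ B = B
        conv_lhs => rw [← (show cK x B = B from hx)]
        rw [← cK_mul, inv_mul_cancel, cK_one] }
  have hQmem : ∀ g, g ∈ Q ↔ cK g B = B := fun g => Iff.rfl
  have hQ : ∀ g ∈ Q, cK g B = B := fun g hg => hg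
  have hBC : ∀ b ∈ B, ∀ x ∈ C, b * x = x * b := fun b hb x hx => ((hZmem b).1 (hB.1 hb)).2 x hx
  have hCQ : C ≤ Q := by
    intro x hx
    change cK x B = B
    ext b
    rw [mem_cK]
    constructor
    · intro h
      have := hBC _ h x hx
      have e : b = x⁻¹ * b * x := by
        have h2 : b * x = x * (x⁻¹ * b * x) := by group
        have h3 : x⁻¹ * b * x = b := by
          have h4 : (x⁻¹ * b * x) * x = b * x := by rw [this]; group
          exact mul_right_cancel h4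
        exact h3.symm
      rw [e]; exact h
    · intro h
      have := hBC b h x hx
      have e : x⁻¹ * b * x = b := by rw [mul_assoc, this]; group
      rw [e]; exact h
  have hZQ : Z ≤ Q := hZC.trans hCQ
  set D : Subgroup (MulAut V) := A ⊓ Q with hD
  have hDQ : D ≤ Q := inf_le_right
  have hDA : D ≤ A := inf_le_left
  set r : Q →* MulAut (FV B) := resHom hQ with hr
  have hr_eq : ∀ (g h : MulAut V) (hg : g ∈ Q) (hh : h ∈ Q),
      r ⟨g, hg⟩ = r ⟨h, hh⟩ ↔ ∀ v ∈ FV B, g v = h v := by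
    intro g h hg hh
    constructor
    · intro e v hv
      have := congrArg (fun f : MulAut (FV B) => ((f ⟨v, hv⟩ : FV B) : V)) e
      exact this
    · intro e
      ext v
      exact e v v.2
  have hr_one : ∀ (g : MulAut V) (hg : g ∈ Q), r ⟨g, hg⟩ = 1 ↔ ∀ v ∈ FV B, g v = v := by
    intro g hg
    have := hr_eq g 1 hg Q.one_mem
    rw [show (⟨1, Q.one_mem⟩ : Q) = 1 from rfl, map_one] at this
    rw [this]; rfl
  -- elements of Z acting trivially are in B
  have hZtriv : ∀ z ∈ Z, (∀ v ∈ FV B, z v = v) → z ∈ B := by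
    intro z hz h
    by_contra hzB
    apply hB.2.1
    rw [eq_bot_iff]
    intro v hv
    rw [Subgroup.mem_bot]
    exact hB.2.2 z hz hzB v hv (h v hv)
  have hNTF : Nontrivial (FV B) := (Subgroup.nontrivial_iff_ne_bot _).2 hB.2.1
  have hoddF : Odd (Nat.card (FV B)) := hodd.of_dvd_nat (Subgroup.card_subgroup_dvd_card _)
  set im : Subgroup (MulAut V) → Subgroup (MulAut (FV B)) := fun H => (H.subgroupOf Q).map r
    with him
  have hmem_im : ∀ (H : Subgroup (MulAut V)) (γ : MulAut (FV B)),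
      γ ∈ im H ↔ ∃ g ∈ H, ∃ hg : g ∈ Q, r ⟨g, hg⟩ = γ := by
    intro H γ
    constructor
    · rintro ⟨g, hg, rfl⟩
      exact ⟨g, hg, g.2, rfl⟩
    · rintro ⟨g, hg, hgQ, rfl⟩
      exact ⟨⟨g, hgQ⟩, hg, rfl⟩
  have hnrm_im : ∀ H K : Subgroup (MulAut V), Nrm H K → Nrm (im H) (im K) := by
    intro H K h
    apply Nrm.map
    intro a ha x hx
    rw [Subgroup.mem_subgroupOf] at ha hx ⊢
    exact h _ ha _ hx
  obtain ⟨x0, hx0C, y0, hy0C, hxy0⟩ := hx0
  set s0 : MulAut V := ⁅x0, y0⁆ with hs0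
  have hs0Z : s0 ∈ Z := hccZ x0 hx0C y0 hy0C
  have hs0inv : ∀ v ∈ FV B, s0 v = v⁻¹ :=
    hinv s0 hs0Z hxy0 (by rw [hcc2 x0 hx0C y0 hy0C]; exact B.one_mem)
  set s : MulAut (FV B) := r ⟨s0, hZQ hs0Z⟩ with hs
  have hsinv : ∀ v : FV B, s v = v⁻¹ := by
    intro v
    ext
    exact hs0inv v v.2
  have hZfin : Finite (im Z) := inferInstance
  have hcommIm : ∀ z ∈ im Z, ∀ g ∈ im C, z * g = g * z := by
    intro z hz g hg
    obtain ⟨z', hz', hzQ, rfl⟩ := (hmem_im _ _).1 hz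
    obtain ⟨g', hg', hgQ, rfl⟩ := (hmem_im _ _).1 hg
    rw [← map_mul, ← map_mul]
    congr 1
    ext1
    exact ((hZmem z').1 hz').2 g' hg'
  have hZCim : im Z ≤ im C := Subgroup.map_mono (Subgroup.comap_mono hZC)
  obtain ⟨z₀, hz₀⟩ := exists_z0 (Z := im Z) (fun x hx y hy => hcommIm x hx y (hZCim hy)) s (by
    intro z hz hzz
    obtain ⟨z', hz', hzQ, rfl⟩ := (hmem_im _ _).1 hz
    rw [← map_mul] at hzz
    have h1 : z' * z' ∈ B := by
      apply hZtriv _ (Z.mul_mem hz' hz')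
      exact (hr_one _ _).1 hzz
    by_cases hzB : z' ∈ B
    · left
      rw [hr_one]
      intro v hv
      exact hv _ hzB
    · right
      rw [hs, hr_eq]
      intro v hv
      rw [hinv z' hz' hzB h1 v hv, hs0inv v hv])
  obtain ⟨w, hw1, hw⟩ := hc (FV B) (im C) (im Z) (im D) z₀ s hoddF
    (by
      refine le_trans ?_ hcard
      refine (Nat.le_of_dvd Nat.card_pos (Subgroup.card_map_dvd (H := D.subgroupOf Q) r)).trans ?_
      have : Nat.card (D.subgroupOf Q) = Nat.card D :=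
        Nat.card_congr (Subgroup.subgroupOfEquivOfLe hDQ).toEquiv
      rw [this]
      exact Subgroup.card_le_of_le hDA)
    (hnrm_im D C (hAC.mono hDA)) (hnrm_im D Z (hAZ.mono hDA)) hZCim hcommIm
    (by
      intro g hg
      obtain ⟨g', hg', hgQ, rfl⟩ := (hmem_im _ _).1 hg
      rw [← map_mul, hmem_im]
      refine ⟨g' * g', ?_, Q.mul_mem hgQ hgQ, rfl⟩
      rw [hZmem]
      exact ⟨C.mul_mem hg' hg', hsq g' hg'⟩)
    ⟨(hmem_im _ _).2 ⟨s0, hZC hs0Z, hZQ hs0Z, rfl⟩, hsinv⟩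
    (by
      intro g hg h hh
      obtain ⟨g', hg', hgQ, rfl⟩ := (hmem_im _ _).1 hg
      obtain ⟨h', hh', hhQ, rfl⟩ := (hmem_im _ _).1 hh
      have hz := hccZ g' hg' h' hh'
      have e : g' * h' = ⁅g', h'⁆ * (h' * g') := by rw [commutatorElement_def]; group
      by_cases hzB : ⁅g', h'⁆ ∈ B
      · left
        rw [← map_mul, ← map_mul]
        rw [show (⟨g', hgQ⟩ : Q) * ⟨h', hhQ⟩ = ⟨g' * h', Q.mul_mem hgQ hhQ⟩ from rfl,
          show (⟨h', hhQ⟩ : Q) * ⟨g', hgQ⟩ = ⟨h' * g', Q.mul_mem hhQ hgQ⟩ from rfl, hr_eq]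
        intro v hv
        rw [e, MulAut.mul_apply]
        have h1 : (h' * g') v ∈ FV B := by
          have := FV_cK (g := h' * g') hv
          rwa [hQ _ (Q.mul_mem hhQ hgQ)] at this
        exact h1 _ hzB
      · right
        rw [hs, ← map_mul, ← map_mul, ← map_mul]
        rw [show (⟨g', hgQ⟩ : Q) * ⟨h', hhQ⟩ = ⟨g' * h', Q.mul_mem hgQ hhQ⟩ from rfl,
          show (⟨s0, hZQ hs0Z⟩ : Q) * (⟨h', hhQ⟩ * ⟨g', hgQ⟩)
            = ⟨s0 * (h' * g'), Q.mul_mem (hZQ hs0Z) (Q.mul_mem hhQ hgQ)⟩ from rfl, hr_eq]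
        intro v hv
        have h1 : (h' * g') v ∈ FV B := by
          have := FV_cK (g := h' * g') hv
          rwa [hQ _ (Q.mul_mem hhQ hgQ)] at this
        rw [e]
        change ⁅g', h'⁆ ((h' * g') v) = s0 ((h' * g') v)
        rw [hinv _ hz hzB (by rw [hcc2 g' hg' h' hh']; exact B.one_mem) _ h1, hs0inv _ h1])
    hz₀
    (by
      intro b' hb' hb'1 T hT hTc
      by_contra hcon
      push Not at hcon
      obtain ⟨b, hbD, hbQ, rfl⟩ := (hmem_im _ _).1 hb'
      have hb1 : b ≠ 1 := by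
        rintro rfl
        exact hb'1 (map_one r)
      have hbA := hDA hbD
      set L := rho^[m] N with hL
      have hLN : L ≤ N := rhoIter_le _ _
      have hsolL : Group.IsSolvable L :=
        Group.isSolvable_of_isSolvable_injective (Subgroup.inclusion_injective hLN)
      have hLB : Nrm L B := by
        intro x hx y hy
        rw [← hBL x hx, mem_cK]
        simpa [mul_assoc] using hy
      have hbB : Nrm (Subgroup.zpowers b) B := by
        have : Subgroup.zpowers b ≤ Q := by rw [Subgroup.zpowers_le]; exact hbQ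
        intro x hx y hy
        rw [← hQ x (this hx), mem_cK]
        simpa [mul_assoc] using hy
      have hbzA : Subgroup.zpowers b ≤ A := by rw [Subgroup.zpowers_le]; exact hbA
      have hCB : Nrm C B := by
        intro x hx y hy
        have := hBC y hy x hx
        rw [← this]; simpa using hy
      set X0 := cen (C : Set (MulAut V)) C B hCB with hX0
      have hX0ne : X0 ≠ C := by
        intro e
        have : y0 ∈ X0 := by rw [e]; exact hy0C
        exact hxy0 (this.2 x0 hx0C)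
      obtain ⟨X2, ⟨hX21, hX22, hX23, hX24⟩, hX2max⟩ := exists_max
        (fun U : Subgroup (MulAut V) => X0 ≤ U ∧ U < C ∧ Nrm L U ∧ Nrm (Subgroup.zpowers b) U)
        ⟨X0, le_rfl, lt_of_le_of_ne cen_le hX0ne, nrm_cen (hNC.mono hLN) (hNC.mono hLN) hLB,
          nrm_cen (hAC.mono hbzA) (hAC.mono hbzA) hbB⟩
      have hBX0 : ∀ z ∈ Z, z ∈ X0 := by
        intro z hz
        refine ⟨hZC hz, fun x hx => ?_⟩
        have := ((hZmem z).1 hz).2 x hx
        have e : x * z * x⁻¹ * z⁻¹ = 1 := by rw [← this]; group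
        rw [e]; exact B.one_mem
      have hres := hcor (MulAut V) A L (L ⊔ Subgroup.zpowers b) C X2 b hA (hAN.rhoIter m)
        (hg.mono hLN) hcard le_sup_left
        ((Nrm.self L).sup_left ((hAN.rhoIter m).mono hbzA))
        ((hNC.mono hLN).sup_left (hAC.mono hbzA)) (hX23.sup_left hX24) hX22.le
        (by
          rw [Subgroup.commutator_le]
          intro x hx y hy
          exact hX21 (hBX0 _ (hccZ x hx y hy)))
        (by
          intro U h1 h2 h3
          by_cases hU : U = C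
          · exact Or.inr hU
          · left
            exact hX2max U ⟨hX21.trans h1, lt_of_le_of_ne h2 hU, h3.mono le_sup_left,
              h3.mono le_sup_right⟩ h1)
        hbA (Subgroup.mem_sup_right (Subgroup.mem_zpowers b)) hb1
        (by
          refine ⟨(T.comap r).map Q.subtype ⊓ C, inf_le_right, ?_, ?_⟩
          · rintro _ ⟨⟨t, ht, rfl⟩, htC⟩
            apply hX21
            have htC' : (t : MulAut V) ∈ C := htC
            have hbt : b * (t : MulAut V) * b⁻¹ * (t : MulAut V)⁻¹ ∈ C :=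
              C.mul_mem (hAC b hbA _ htC') (C.inv_mem htC')
            refine ⟨hbt, fun x hx => ?_⟩
            apply hZtriv
            · have := hccZ x hx _ hbt
              rwa [commutatorElement_def] at this
            · have h1 := hTc _ ht (r ⟨x, hCQ hx⟩) ((hmem_im _ _).2 ⟨x, hx, hCQ hx, rfl⟩)
              have h2 : r (⟨x, hCQ hx⟩ * (⟨b, hbQ⟩ * t * ⟨b, hbQ⟩⁻¹ * t⁻¹) * ⟨x, hCQ hx⟩⁻¹ *
                  (⟨b, hbQ⟩ * t * ⟨b, hbQ⟩⁻¹ * t⁻¹)⁻¹) = 1 := by
                have h3 : r (⟨b, hbQ⟩ * t * ⟨b, hbQ⟩⁻¹ * t⁻¹) * r ⟨x, hCQ hx⟩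
                    = r ⟨x, hCQ hx⟩ * r (⟨b, hbQ⟩ * t * ⟨b, hbQ⟩⁻¹ * t⁻¹) := by
                  simpa using h1
                rw [map_mul, map_mul, map_mul, map_inv, map_inv, ← h3]
                group
              intro v hv
              have h4 := congrArg (fun f : MulAut (FV B) => ((f ⟨v, hv⟩ : FV B) : V)) h2
              exact h4
          · rw [Subgroup.inf_relIndex_right]
            refine le_trans (le_of_eq ?_) hcon
            have e1 : (C.subgroupOf Q).map Q.subtype = C := by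
              rw [Subgroup.subgroupOf_map_subtype]
              exact inf_eq_left.2 hCQ
            conv_lhs => rw [← e1]
            rw [Subgroup.relIndex_map_map_of_injective _ _ (Subgroup.subtype_injective Q),
              Subgroup.relIndex_comap])
      have hlast : ⁅C, O⁆ ≤ X2 := by
        rw [Subgroup.commutator_le]
        intro y hy x hx
        have h1 := X2.inv_mem (hres x (hOL hx) y hy)
        rw [commutatorElement_def]
        convert h1 using 1
        group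
      rw [hCO] at hlast
      exact absurd hX22 (not_lt_of_ge hlast))
  -- contradiction
  have h1 : (w : V) = 1 := by
    refine stab_trivial hZcomm hAZ hodd hA hCA hB w.2 fun a ha hab => ?_
    have h2 := hw (r ⟨a, hab⟩) ((hmem_im _ _).2 ⟨a, ⟨ha, hab⟩, hab, rfl⟩)
    exact congrArg Subtype.val h2
  exact hw1 (Subtype.ext h1)

/-- **Theorem B'.** -/
theorem thmB (h1 : Lem1) (hS : LemS) : ThmB := by
  intro l f0 hP
  obtain ⟨m, hm⟩ := thmA hP h1
  obtain ⟨c, hc⟩ := hS (l + 1)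
  obtain ⟨f5, hcor⟩ := cor1 hP h1 c
  refine ⟨m + f5 + 1, ?_⟩
  intro V _ _ N A _ hodd hA hcard hAN hg hirr hCA i hi h2
  by_contra hne
  obtain ⟨j, rfl⟩ : ∃ j, i = j + 1 := ⟨i - 1, by omega⟩
  have hNT : Nontrivial V := by
    by_contra hnt
    rw [not_nontrivial_iff_subsingleton] at hnt
    apply hne
    rw [eq_bot_iff]
    intro x _
    rw [Subgroup.mem_bot]
    ext v
    exact Subsingleton.elim _ _
  set O : Subgroup (MulAut V) := opi (rho^[j] N) with hO
  set R : Subgroup (MulAut V) := rho^[j + 1] N with hR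
  have hRO : R = tau O := by rw [hR, Function.iterate_succ_apply', rho]
  have hOO : opi O = O := opi_idem _
  have hON : O ≤ N := (opi_le _).trans (rhoIter_le _ _)
  have hNO : Nrm N O := ((Nrm.self N).rhoIter j).opi
  have hAO : Nrm A O := (hAN.rhoIter j).opi
  have hRN : R ≤ N := rhoIter_le _ _
  have hNR : Nrm N R := (Nrm.self N).rhoIter _
  have hAR : Nrm A R := hAN.rhoIter _
  have hOm : O ≤ rho^[m] N := (opi_le _).trans (rhoIter_anti (by omega) N)
  have hOf : O ≤ rho^[f5] (rho^[m] N) := by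
    rw [← Function.iterate_add_apply]
    exact (opi_le _).trans (rhoIter_anti (by omega) N)
  have hRcent : ¬ ∀ x ∈ R, ∀ y ∈ O, x * y = y * x := by
    intro h
    rw [hRO] at h
    apply hne
    rw [hRO]
    exact step0 hOO h
  obtain ⟨C, ⟨hCR, hNC, hAC, hCO⟩, hCmin⟩ := exists_min (fun C : Subgroup (MulAut V) =>
    C ≤ R ∧ Nrm N C ∧ Nrm A C ∧ ¬ ∀ x ∈ C, ∀ y ∈ O, x * y = y * x)
    ⟨R, le_rfl, hNR, hAR, hRcent⟩
  have hC2 : Is2 C := h2.mono hCR
  have hmin : ∀ D : Subgroup (MulAut V), D ≤ C → D ≠ C → Nrm N D → Nrm A D →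
      ∀ x ∈ D, ∀ y ∈ O, x * y = y * x := by
    intro D hD1 hD2 hD3 hD4
    by_contra hcon
    exact hD2 (hCmin D ⟨hD1.trans hCR, hD3, hD4, hcon⟩ hD1)
  obtain ⟨hCOeq, hZ', hsq, hcc⟩ := minC_facts hC2 hNC hAC hON hNO hAO hOO hCO hmin
  have hMF : ∀ Z : Subgroup (MulAut V), (∀ x ∈ Z, ∀ y ∈ Z, x * y = y * x) → Nrm N Z →
      Nrm A Z → ∀ B, IsMaxF Z B → ∀ x ∈ rho^[m] N, cK x B = B := by
    intro Z hZ hNZ hAZ B hB x hx
    exact maxFix hm hodd hA hcard hAN hg hCA hZ hNZ hAZ hB hx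
  -- C is not abelian
  have hCab : ¬ ∀ x ∈ C, ∀ y ∈ C, x * y = y * x := by
    intro hab
    apply hCO
    apply abelian_case hC2 hab (hNC.mono hON) hOO
    intro x hx hxx y hy
    let E : Subgroup (MulAut V) :=
      { carrier := {x | x ∈ C ∧ x * x = 1}
        one_mem' := ⟨C.one_mem, by simp⟩
        mul_mem' := by
          rintro a b ⟨ha, ha'⟩ ⟨hb, hb'⟩
          refine ⟨C.mul_mem ha hb, ?_⟩
          calc a * b * (a * b) = a * (b * a) * b := by group
            _ = (a * a) * (b * b) := by rw [hab b hb a ha]; group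
            _ = 1 := by rw [ha', hb', one_mul]
        inv_mem' := by
          rintro a ⟨ha, ha'⟩
          refine ⟨C.inv_mem ha, ?_⟩
          rw [← mul_inv_rev, ha', inv_one] }
    have hinvE : ∀ Q : Subgroup (MulAut V), Nrm Q C → Nrm Q E := by
      rintro Q hQ q hq x ⟨hx, hxx⟩
      refine ⟨hQ q hq x hx, ?_⟩
      calc q * x * q⁻¹ * (q * x * q⁻¹) = q * (x * x) * q⁻¹ := by group
        _ = 1 := by rw [hxx]; group
    have hEcomm : ∀ x ∈ E, ∀ y ∈ E, x * y = y * x := fun x hx y hy => hab x hx.1 y hy.1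
    exact elemCent hirr (hinvE N hNC) (hinvE A hAC) (fun x hx => hx.2)
      (hMF E hEcomm (hinvE N hNC) (hinvE A hAC)) (hOm hy) (show x ∈ E from ⟨hx, hxx⟩)
  -- the centre of C
  set Z : Subgroup (MulAut V) := C ⊓ Subgroup.centralizer (C : Set (MulAut V)) with hZdef
  have hZmem : ∀ x, x ∈ Z ↔ x ∈ C ∧ ∀ y ∈ C, x * y = y * x := by
    intro x
    rw [hZdef, Subgroup.mem_inf, Subgroup.mem_centralizer_iff]
    exact ⟨fun ⟨h1, h2⟩ => ⟨h1, fun y hy => (h2 y hy).symm⟩,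
      fun ⟨h1, h2⟩ => ⟨h1, fun y hy => (h2 y hy).symm⟩⟩
  have hinvZ : ∀ Q : Subgroup (MulAut V), Nrm Q C → Nrm Q Z := by
    intro Q hQ q hq x hx
    rw [hZmem] at hx ⊢
    refine ⟨hQ q hq x hx.1, fun y hy => ?_⟩
    have h3 := hx.2 (q⁻¹ * y * q) (hQ.inv hq hy)
    calc q * x * q⁻¹ * y = q * (x * (q⁻¹ * y * q)) * q⁻¹ := by group
      _ = y * (q * x * q⁻¹) := by rw [h3]; group
  have hNZ := hinvZ N hNC
  have hAZ := hinvZ A hAC
  have hZcomm : ∀ x ∈ Z, ∀ y ∈ Z, x * y = y * x := fun x hx y hy =>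
    ((hZmem x).1 hx).2 y ((hZmem y).1 hy).1
  obtain ⟨B, hB⟩ := exists_isMaxF hNT Z
  -- commutators are not all in B
  have hx0 : ∃ x ∈ C, ∃ y ∈ C, ⁅x, y⁆ ∉ B := by
    by_contra hcon
    push Not at hcon
    have hle : ⁅C, C⁆ ≤ B := Subgroup.commutator_le.2 hcon
    have hNA : Nrm (N ⊔ A) ⁅C, C⁆ := (hNC.commutator hNC).sup_left (hAC.commutator hAC)
    have hFV : FV ⁅C, C⁆ = ⊤ := by
      rcases hirr (FV ⁅C, C⁆) (by
        intro g hg u hu
        have := FV_cK (g := g) hu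
        rwa [cK_eq_of_mem hNA hg] at this) with h | h
      · exfalso
        apply hB.2.1
        rw [eq_bot_iff, ← h]
        exact FV_anti hle
      · exact h
    apply hCab
    intro x hx y hy
    have h3 : ⁅x, y⁆ = 1 := by
      ext v
      have : v ∈ FV ⁅C, C⁆ := by rw [hFV]; trivial
      exact this _ (Subgroup.commutator_mem_commutator hx hy)
    exact commutatorElement_eq_one_iff_mul_comm.1 h3
  exact thmB_step (c := c) (f5 := f5) (m := m) hc hcor hodd hA hcard hAN hg hCA hNC hAC hAZ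
    hZmem hsq hcc hB (fun x hx => hMF Z hZcomm hNZ hAZ B hB x hx) hx0 hCOeq hOf

end step

end Pool.Agent.Helper12.TwoLen
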